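import Pool.Agent.Work.MP_2c2d16_pr.SE.S13

set_option autoImplicit false

namespace Pool.Agent.CTheta

open Finset

/-- one constant for finitely many bounds, division by n -/
theorem Inv.even_next {n : ℕ} [NeZero n] (κ : ℝ) (ψ : Polynomial ℝ) (B : ZMod n → Om n → ℝ) (x : ZMod n) :
    nextB κ ψ B (-x) = nextB κ ψ B x := by
  funext ω
  simp only [nextB, bt_neg]

theorem De_nextB {n : ℕ} [NeZero n] (κ : ℝ) (ψ : Polynomial ℝ) (B : ZMod n → Om n → ℝ)
    (e : Fin (n / 2 + 1)) (x : ZMod n) :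
    De e (nextB κ ψ B x) = De e (bt (pY ψ B) x) := by
  funext ω
  simp only [De, nextB]
  ring

/-- Theorem B -/
theorem Inv_next (d : ℕ) (C κ : ℝ) (ψ : Polynomial ℝ) (h0 : gE ψ = 0)
    (h1 : gE (Polynomial.derivative ψ) = 0) (h2 : κ ^ 2 + gE (ψ ^ 2) = 1) :
    ∃ (d' : ℕ) (C' : ℝ), ∀ (n : ℕ) [NeZero n] (B : ZMod n → Om n → ℝ), Inv n B d C →
      Inv n (nextB κ ψ B) d' C' := by
  obtain ⟨C13, h13⟩ := S13 d C κ ψ h0 h2
  obtain ⟨C17, h17⟩ := S17 d C ψ
  obtain ⟨C17d, h17d⟩ := S17 d C (Polynomial.derivative ψ)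
  obtain ⟨C5, h5⟩ := S5 d C ψ
  obtain ⟨C11, h11⟩ := S11 d C ψ C17d
  obtain ⟨C12, h12⟩ := S12 d C κ ψ
  refine ⟨ψ.natDegree * (d + 1),
    |C13| + (2 * κ ^ 2 + 2 * |C17|) + |C5| + |C11| + |C12|, ?_⟩
  intro n _ B hB
  have hn : (0 : ℝ) < n := by exact_mod_cast Nat.pos_of_ne_zero (NeZero.ne n)
  have hsn : 0 < Real.sqrt (n : ℝ) := Real.sqrt_pos.mpr hn
  refine ⟨?_, ?_, ?_, ?_, ?_, ?_, ?_⟩
  · intro x; exact Inv.even_next κ ψ B x
  · intro x
    have hd : Deg (ψ.natDegree * (d + 1)) (bt (pY ψ B) x) :=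
      Deg_bt _ (fun j => Deg_pY d ψ B hB.deg j) x
    exact (Deg_const _ _).add hd
  · refine (h13 n B hB).trans ?_
    gcongr
    have := le_abs_self C13
    have e1 := abs_nonneg C17
    have e2 := abs_nonneg C5
    have e3 := abs_nonneg C11
    have e4 := abs_nonneg C12
    have e5 := sq_nonneg κ
    linarith
  · intro x hx
    have e : nrm (nextB κ ψ B x) ^ 2
        ≤ 2 * nrm (fun _ : Om n => κ / Real.sqrt (n : ℝ)) ^ 2 + 2 * nrm (bt (pY ψ B) x) ^ 2 :=
      nrm_add_sq_le _ _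
    rw [nrm_const] at e
    have e' := (h17 n B hB).1 x hx
    have e'' : |κ / Real.sqrt (n : ℝ)| ^ 2 = κ ^ 2 / n := by
      rw [sq_abs, div_pow, Real.sq_sqrt hn.le]
    rw [e''] at e
    have e6 : nrm (nextB κ ψ B x) ^ 2 ≤ (2 * κ ^ 2 + 2 * C17) / n := by
      refine e.trans ?_
      rw [add_div, mul_div_assoc, mul_div_assoc]
      linarith
    refine e6.trans (div_le_div_of_nonneg_right ?_ hn.le)
    have := le_abs_self C17
    have e0 := abs_nonneg C13
    have e2 := abs_nonneg C5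
    have e3 := abs_nonneg C11
    have e4 := abs_nonneg C12
    linarith
  · intro e
    simp only [De_nextB]
    have key : ∑ x : ZMod n, nrm (De e (bt (pY ψ B) x)) ^ 2 ≤ C5 / n := by
      simp only [De_bt]
      refine (sum_nrm_bt_sq_le _).trans ?_
      gcongr
      exact h5 n B hB e
    refine key.trans ?_
    gcongr
    have := le_abs_self C5
    have e0 := abs_nonneg C13
    have e1 := abs_nonneg C17
    have e3 := abs_nonneg C11
    have e4 := abs_nonneg C12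
    have e5 := sq_nonneg κ
    linarith
  · intro w
    simp only [De_nextB]
    have key : ∑ x ∈ univ.erase (0 : ZMod n), nrm (De (cl x) (bt (pY ψ B) (w + x))) ^ 2
        ≤ C11 / n := by
      apply h11 n B hB w
      by_cases hw : w = 0
      · subst hw
        have := (h17d n B hB).2
        rw [h1] at this
        simpa using this
      · exact (h17d n B hB).1 w hw
    refine key.trans ?_
    gcongr
    have := le_abs_self C11
    have e0 := abs_nonneg C13
    have e1 := abs_nonneg C17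
    have e3 := abs_nonneg C5
    have e4 := abs_nonneg C12
    have e5 := sq_nonneg κ
    linarith
  · refine (h12 n B hB).trans ?_
    gcongr
    have := le_abs_self C12
    have e0 := abs_nonneg C13
    have e1 := abs_nonneg C17
    have e3 := abs_nonneg C5
    have e4 := abs_nonneg C11
    have e5 := sq_nonneg κ
    linarith

theorem Inv_zero (n : ℕ) [NeZero n] (κ : ℝ) (ψ : Polynomial ℝ) : Inv n (Bit n κ ψ 0) 0 1 := by
  have hn : (0 : ℝ) < n := by exact_mod_cast Nat.pos_of_ne_zero (NeZero.ne n)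
  have hn1 : (1 : ℝ) ≤ n := by exact_mod_cast Nat.one_le_iff_ne_zero.mpr (NeZero.ne n)
  have hsn : 0 < Real.sqrt (n : ℝ) := Real.sqrt_pos.mpr hn
  have hB : ∀ x : ZMod n, Bit n κ ψ 0 x = fun _ => 1 / Real.sqrt (n : ℝ) := fun x => rfl
  have hN : ∀ x : ZMod n, nrm (Bit n κ ψ 0 x) ^ 2 = 1 / n := by
    intro x
    rw [hB, nrm_const, sq_abs, div_pow, Real.sq_sqrt hn.le, one_pow]
  have hD : ∀ (e : Fin (n / 2 + 1)) (x : ZMod n), De e (Bit n κ ψ 0 x) = 0 := by
    intro e x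
    rw [hB, De_const]
  refine ⟨fun x => rfl, ?_, ?_, ?_, ?_, ?_, ?_⟩
  · intro x; rw [hB]; exact Deg_const _ _
  · simp only [hN]
    rw [Finset.sum_const, Finset.card_erase_of_mem (Finset.mem_univ _), Finset.card_univ,
      ZMod.card, nsmul_eq_mul]
    have : ((n - 1 : ℕ) : ℝ) = n - 1 := by
      rw [Nat.cast_sub (Nat.one_le_iff_ne_zero.mpr (NeZero.ne n))]; simp
    rw [this]
    have h2 : ((n : ℝ) - 1) * (1 / n) - 1 = - (1 / n) := by field_simp; ring
    rw [h2, abs_neg, abs_of_pos (by positivity)]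
    have h3 : Real.sqrt (n : ℝ) ≤ n := by
      rw [Real.sqrt_le_left hn.le]
      nlinarith
    exact one_div_le_one_div_of_le hsn h3
  · intro x _
    rw [hN]
  · intro e
    simp only [hD, nrm_zero]
    simp
    
  · intro w
    simp only [hD, nrm_zero]
    simp
  · simp only [hD]
    have : (fun ω : Om n => ∑ u ∈ univ.erase (0 : ZMod n),
        Bit n κ ψ 0 u ω * (0 : Om n → ℝ) ω) = 0 := by
      funext ω; simp
    simp only [this, nrm_zero]
    simp

theorem Inv_Bit (κ : ℝ) (ψ : Polynomial ℝ) (h0 : gE ψ = 0)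
    (h1 : gE (Polynomial.derivative ψ) = 0) (h2 : κ ^ 2 + gE (ψ ^ 2) = 1) (t : ℕ) :
    ∃ (d : ℕ) (C : ℝ), ∀ (n : ℕ) [NeZero n], Inv n (Bit n κ ψ t) d C := by
  induction t with
  | zero => exact ⟨0, 1, fun n _ => Inv_zero n κ ψ⟩
  | succ t ih =>
    obtain ⟨d, C, h⟩ := ih
    obtain ⟨d', C', h'⟩ := Inv_next d C κ ψ h0 h1 h2
    exact ⟨d', C', fun n _ => h' n _ (h n)⟩

/-- state evolution -/
theorem SE (κ : ℝ) (ψ : Polynomial ℝ) (h0 : gE ψ = 0)
    (h1 : gE (Polynomial.derivative ψ) = 0) (h2 : κ ^ 2 + gE (ψ ^ 2) = 1) (t : ℕ)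
    (Q : Polynomial ℝ) : ∃ C' : ℝ, ∀ (n : ℕ) [NeZero n],
      Ex (fun ω => ((∑ j : ZMod n, Q.eval (Yv (Bit n κ ψ t) j ω)) / n - gE Q) ^ 2) ≤ C' / n ∧
      (∀ j, Ex (fun ω => Yv (Bit n κ ψ t) j ω ^ 2) ≤ C') := by
  obtain ⟨d, C, h⟩ := Inv_Bit κ ψ h0 h1 h2 t
  obtain ⟨C17, h17⟩ := S17 d C Q
  obtain ⟨C1, h1⟩ := S1 d C
  refine ⟨|C17| + |C1|, ?_⟩
  intro n _
  have hn : (0 : ℝ) < n := by exact_mod_cast Nat.pos_of_ne_zero (NeZero.ne n)
  constructor
  · have e := (h17 n _ (h n)).2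
    rw [nrm_sq] at e
    have e2 : (fun ω => ((∑ j : ZMod n, Q.eval (Yv (Bit n κ ψ t) j ω)) / n - gE Q) ^ 2)
        = fun ω => (bt (pY Q (Bit n κ ψ t)) 0 ω - gE Q) ^ 2 := by
      funext ω
      simp only [bt, pY, mul_zero, co_zero, mul_one]
    rw [e2]
    refine e.trans ?_
    gcongr
    have := le_abs_self C17
    have e0 := abs_nonneg C1
    linarith
  · intro j
    have e := h1 n _ (h n) j
    rw [nrm_sq] at e
    refine e.trans ?_
    have := le_abs_self C1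
    have e0 := abs_nonneg C17
    linarith

end Pool.Agent.CTheta
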