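import Pool.Agent.Work.MP_2c2d16_pr.Defs
import Pool.Agent.Work.MP_2c2d16_pr.SE.Main

set_option autoImplicit false

namespace Pool.Agent.CTheta

open Finset

section Bridge

variable {n : ℕ} [NeZero n]

/-- the bits of a set of classes -/
def omS (n : ℕ) (S : Finset ℕ) : Om n := fun e => decide ((e : ℕ) ∈ S)

theorem co_eq_cs (z : ZMod n) : co z = Th2c.cs z := by
  rw [co, Th2c.cs, ZMod.stdAddChar_apply, ZMod.toCircle_apply]
  have h : (2 * (Real.pi : ℂ) * Complex.I * (z.val : ℂ) / (n : ℂ))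
      = ((2 * Real.pi * (z.val : ℝ) / (n : ℝ) : ℝ) : ℂ) * Complex.I := by
    push_cast; ring
  rw [h, Complex.exp_ofReal_mul_I_re]

theorem sg_omS (S : Finset ℕ) (x : ZMod n) :
    sx x (omS n S) = (Th2c.sg S (Th2c.cls x) : ℝ) := by
  simp only [sx, sg, omS, Th2c.sg, cl, Th2c.cls]
  by_cases h : min x.val (-x).val ∈ S
  · simp [h]
  · simp [h]

theorem ict_eq (b : ZMod n → ℝ) (x : ZMod n) :
    Th2c.ict b x = (∑ j : ZMod n, b j * co (j * x)) / n := by
  simp only [Th2c.ict, co_eq_cs]
  congr 1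
  refine Finset.sum_congr rfl fun j _ => ?_
  rw [mul_comm x j]

theorem opR_eq (S : Finset ℕ) (f : ZMod n → ℝ) (j : ZMod n) :
    Th2c.opR S f j = ∑ x ∈ univ.erase (0 : ZMod n),
      sx x (omS n S) * ((∑ i : ZMod n, f i * co (i * x)) / n) * co (j * x) := by
  simp only [Th2c.opR, Th2c.ct, ict_eq]
  rw [← Finset.sum_erase (s := univ) (a := (0 : ZMod n)) (by simp)]
  refine Finset.sum_congr rfl fun x hx => ?_
  have hx0 : x ≠ 0 := Finset.ne_of_mem_erase hx
  rw [if_neg hx0, sg_omS, co_eq_cs (j * x), mul_comm j x]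

theorem wit_eq (A b : ℝ) (u : Polynomial ℝ) (S : Finset ℕ) (t : ℕ) (j : ZMod n) :
    Th2c.wit A b u n S t j
      = Yv (Bit n (A / b) (Polynomial.C (1 / b) * u) t) j (omS n S) := by
  have hn : (0 : ℝ) < n := by exact_mod_cast Nat.pos_of_ne_zero (NeZero.ne n)
  have hsn : Real.sqrt (n : ℝ) * Real.sqrt n = n := Real.mul_self_sqrt hn.le
  have hsn0 : Real.sqrt (n : ℝ) ≠ 0 := (Real.sqrt_pos.mpr hn).ne'
  have hdl : ∀ (c : ℝ) (x : ZMod n),
      ∑ i : ZMod n, (c * Real.sqrt n * Th2c.dl i) * co (i * x) = c * Real.sqrt n := by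
    intro c x
    rw [Finset.sum_eq_single (0 : ZMod n)]
    · simp [Th2c.dl, co_zero]
    · intro i _ hi
      simp [Th2c.dl, hi]
    · intro h; exact absurd (Finset.mem_univ _) h
  have hq : ∀ c : ℝ, c * Real.sqrt n / n = c / Real.sqrt n := by
    intro c
    rw [div_eq_div_iff hn.ne' hsn0, mul_assoc, hsn]
  induction t generalizing j with
  | zero =>
    rw [Th2c.wit, opR_eq, Yv]
    refine Finset.sum_congr rfl fun x _ => ?_
    have := hdl 1 x
    simp only [one_mul] at this
    rw [this]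
    have h1 := hq 1
    rw [one_mul] at h1
    rw [h1]
    rfl
  | succ t ih =>
    rw [Th2c.wit, opR_eq, Yv]
    refine Finset.sum_congr rfl fun x _ => ?_
    congr 2
    simp only [Bit, nextB, bt, pY, Polynomial.eval_mul, Polynomial.eval_C, ← ih]
    have h2 : ∀ i : ZMod n, (A * Real.sqrt n * Th2c.dl i + u.eval (Th2c.wit A b u n S t i)) / b
        * co (i * x) = ((A / b) * Real.sqrt n * Th2c.dl i) * co (i * x)
          + (1 / b * u.eval (Th2c.wit A b u n S t i)) * co (i * x) := by
      intro i; ring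
    simp only [h2]
    rw [Finset.sum_add_distrib, hdl, add_div, hq]

theorem cl_ne_zero {x : ZMod n} (hx : x ≠ 0) : cl x ≠ 0 := fun h => hx ((cl_eq_zero_iff x).1 h)

theorem Bit_update (κ : ℝ) (ψ : Polynomial ℝ) (t : ℕ) (ω : Om n) (b : Bool) :
    (∀ x, Bit n κ ψ t x (Function.update ω 0 b) = Bit n κ ψ t x ω) ∧
    (∀ j, Yv (Bit n κ ψ t) j (Function.update ω 0 b) = Yv (Bit n κ ψ t) j ω) := by
  have key : ∀ s, (∀ x, Bit n κ ψ s x (Function.update ω 0 b) = Bit n κ ψ s x ω) →
      ∀ j, Yv (Bit n κ ψ s) j (Function.update ω 0 b) = Yv (Bit n κ ψ s) j ω := by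
    intro s h j
    rw [Yv, Yv]
    refine Finset.sum_congr rfl fun x hx => ?_
    have hx0 : x ≠ 0 := Finset.ne_of_mem_erase hx
    rw [h x, sx, sx, Function.update_of_ne (cl_ne_zero hx0)]
  induction t with
  | zero => exact ⟨fun x => rfl, key 0 fun x => rfl⟩
  | succ t ih =>
    have h1 : ∀ x, Bit n κ ψ (t + 1) x (Function.update ω 0 b) = Bit n κ ψ (t + 1) x ω := by
      intro x
      simp only [Bit, nextB, bt, pY, ih.2]
    exact ⟨h1, key (t + 1) h1⟩

/-- the two expectations agree for functions which do not depend on the dummy coordinate -/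
theorem Ex_eq_Ex (n : ℕ) (G : Om n → ℝ) (hG : ∀ ω b, G (Function.update ω 0 b) = G ω) :
    Th2c.Ex (Th2c.cl n) (fun S => G (omS n S)) = Ex G := by
  have h1 : ∑ S ∈ (Th2c.cl n).powerset, G (omS n S)
      = ∑ ω ∈ (univ : Finset (Om n)).filter (fun ω => ω 0 = false), G ω := by
    refine Finset.sum_bij' (fun S _ => omS n S)
      (fun ω _ => (univ.filter fun e => ω e = true).image (fun e : Fin (n / 2 + 1) => (e : ℕ)))
      ?_ ?_ ?_ ?_ ?_
    · intro S hS
      rw [Finset.mem_powerset] at hS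
      simp only [Finset.mem_filter, Finset.mem_univ, true_and, omS, decide_eq_false_iff_not]
      intro h
      have := hS h
      simp [Th2c.cl] at this
    · intro ω hω
      simp only [Finset.mem_filter, Finset.mem_univ, true_and] at hω
      rw [Finset.mem_powerset]
      intro k hk
      simp only [Finset.mem_image, Finset.mem_filter, Finset.mem_univ, true_and] at hk
      obtain ⟨e, he, rfl⟩ := hk
      have h0 : e ≠ 0 := by rintro rfl; rw [hω] at he; exact absurd he (by simp)
      have h0' : (e : ℕ) ≠ 0 := fun h => h0 (Fin.ext h)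
      simp only [Th2c.cl, Finset.mem_Icc]
      have := e.2
      omega
    · intro S hS
      rw [Finset.mem_powerset] at hS
      ext k
      simp only [omS, Finset.mem_image, Finset.mem_filter, Finset.mem_univ, true_and,
        decide_eq_true_eq]
      constructor
      · rintro ⟨e, he, rfl⟩; exact he
      · intro hk
        have := hS hk
        simp only [Th2c.cl, Finset.mem_Icc] at this
        exact ⟨⟨k, by omega⟩, hk, rfl⟩
    · intro ω _
      funext e
      simp only [omS]
      rw [Bool.eq_iff_iff, decide_eq_true_eq, Finset.mem_image]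
      constructor
      · rintro ⟨e', he', h⟩
        have : e' = e := Fin.ext h
        subst this
        simpa using he'
      · intro h
        exact ⟨e, by simpa using h, rfl⟩
    · intro S _; rfl
  have h2 : ∑ ω : Om n, G ω = 2 * ∑ ω ∈ (univ : Finset (Om n)).filter (fun ω => ω 0 = false), G ω := by
    rw [← Finset.sum_filter_add_sum_filter_not univ (fun ω : Om n => ω 0 = false), two_mul]
    congr 1
    refine Finset.sum_bij' (fun ω _ => Function.update ω 0 false)
      (fun ω _ => Function.update ω 0 true) ?_ ?_ ?_ ?_ ?_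
    · intro ω _; simp
    · intro ω _; simp
    · intro ω hω
      simp only [Finset.mem_filter, Finset.mem_univ, true_and, Bool.not_eq_false] at hω
      funext e
      by_cases he : e = 0
      · subst he; simp [hω]
      · simp [he]
    · intro ω hω
      simp only [Finset.mem_filter, Finset.mem_univ, true_and] at hω
      funext e
      by_cases he : e = 0
      · subst he; simp [hω]
      · simp [he]
    · intro ω _
      rw [hG]
  rw [Th2c.Ex, Ex, h1, h2, Fintype.card_fin]
  have h3 : #(Th2c.cl n) = n / 2 := by simp [Th2c.cl]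
  rw [h3, pow_succ]
  field_simp

end Bridge

end Pool.Agent.CTheta

namespace Pool.Agent.Th2c

open Finset Polynomial CTheta

theorem state_evolution (A b : ℝ) (u : ℝ[X]) (hb : 0 < b) (h0 : gm u = 0) (h1 : gm (X * u) = 0)
    (hA : A ^ 2 + gm (u ^ 2) = b ^ 2) (t : ℕ) (P : ℝ[X]) :
    ∃ C : ℝ, ∀ N : ℕ,
      Ex (cl (N + 1)) (fun S => ((∑ ξ, P.eval (wit A b u (N + 1) S t ξ)) / (N + 1 : ℕ) - gm P) ^ 2)
        ≤ C / (N + 1 : ℕ) ∧
      Ex (cl (N + 1)) (fun S => (P.eval (wit A b u (N + 1) S t 0)) ^ 2) ≤ C := by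
  have hgm : ∀ Q : ℝ[X], gm Q = gE Q := fun Q => rfl
  set ψ : ℝ[X] := Polynomial.C (1 / b) * u with hψ
  have e0 : gE ψ = 0 := by rw [hψ, gE_smul, ← hgm, h0, mul_zero]
  have e1 : gE (Polynomial.derivative ψ) = 0 := by
    rw [← gE_X_mul, hψ]
    have : X * (Polynomial.C (1 / b) * u) = Polynomial.C (1 / b) * (X * u) := by ring
    rw [this, gE_smul, ← hgm, h1, mul_zero]
  have e2 : (A / b) ^ 2 + gE (ψ ^ 2) = 1 := by
    have : ψ ^ 2 = Polynomial.C ((1 / b) ^ 2) * u ^ 2 := by
      rw [hψ, mul_pow, Polynomial.C_pow]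
    rw [this, gE_smul, ← hgm]
    have hb' : b ≠ 0 := hb.ne'
    field_simp
    linarith
  obtain ⟨d, C, h⟩ := Inv_Bit (A / b) ψ e0 e1 e2 t
  obtain ⟨C3, h3⟩ := S3 d C P
  obtain ⟨C17, h17⟩ := SE (A / b) ψ e0 e1 e2 t P
  refine ⟨|C3| + |C17|, ?_⟩
  intro N
  have hn : (0 : ℝ) < ((N + 1 : ℕ) : ℝ) := by exact_mod_cast Nat.succ_pos N
  constructor
  · have k1 := (h17 (N + 1)).1
    have k2 : Ex (cl (N + 1)) (fun S => ((∑ ξ, P.eval (wit A b u (N + 1) S t ξ)) / (N + 1 : ℕ)
        - gm P) ^ 2) = CTheta.Ex (fun ω => ((∑ j : ZMod (N + 1),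
          P.eval (Yv (Bit (N + 1) (A / b) ψ t) j ω)) / (N + 1 : ℕ) - gE P) ^ 2) := by
      rw [← Ex_eq_Ex]
      · simp only [wit_eq]
        rfl
      · intro ω b'
        simp only [(Bit_update (A / b) ψ t ω b').2]
    rw [k2]
    refine k1.trans (div_le_div_of_nonneg_right ?_ hn.le)
    have := le_abs_self C17
    have := abs_nonneg C3
    linarith
  · have k1 := h3 (N + 1) _ (h (N + 1)) 0
    rw [nrm_sq] at k1
    have k2 : Ex (cl (N + 1)) (fun S => (P.eval (wit A b u (N + 1) S t 0)) ^ 2)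
        = CTheta.Ex (fun ω => pY P (Bit (N + 1) (A / b) ψ t) 0 ω ^ 2) := by
      rw [← Ex_eq_Ex]
      · simp only [wit_eq]
        rfl
      · intro ω b'
        simp only [pY, (Bit_update (A / b) ψ t ω b').2]
    rw [k2]
    refine k1.trans ?_
    have := le_abs_self C3
    have := abs_nonneg C17
    linarith

end Pool.Agent.Th2c
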