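import Pool.Agent.Work.MP_2c2d16_pr.SE.Defs

set_option autoImplicit false

namespace Pool.Agent.CTheta

open Finset

set_option linter.unusedSectionVars false

section Cube

variable {E : Type} [Fintype E] [DecidableEq E]

/-! ### expectation -/

theorem Ex_add (F G : (E → Bool) → ℝ) : Ex (fun ω => F ω + G ω) = Ex F + Ex G := by
  simp only [Ex, Finset.sum_add_distrib, add_div]
theorem Ex_sub (F G : (E → Bool) → ℝ) : Ex (fun ω => F ω - G ω) = Ex F - Ex G := by
  simp only [Ex, Finset.sum_sub_distrib, sub_div]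
theorem Ex_const_mul (c : ℝ) (F : (E → Bool) → ℝ) : Ex (fun ω => c * F ω) = c * Ex F := by
  simp only [Ex, ← Finset.mul_sum, mul_div_assoc]
theorem Ex_mul_const (c : ℝ) (F : (E → Bool) → ℝ) : Ex (fun ω => F ω * c) = Ex F * c := by
  simp only [Ex, ← Finset.sum_mul]; ring
theorem Ex_neg (F : (E → Bool) → ℝ) : Ex (fun ω => - F ω) = - Ex F := by
  simp only [Ex, Finset.sum_neg_distrib, neg_div]
theorem Ex_const (c : ℝ) : Ex (fun _ : E → Bool => c) = c := by
  simp only [Ex, Finset.sum_const, Finset.card_univ, Fintype.card_fun, Fintype.card_bool,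
    nsmul_eq_mul]
  push_cast
  field_simp
theorem Ex_sum {ι : Type*} (s : Finset ι) (F : ι → (E → Bool) → ℝ) :
    Ex (fun ω => ∑ i ∈ s, F i ω) = ∑ i ∈ s, Ex (F i) := by
  simp only [Ex]
  rw [Finset.sum_comm, Finset.sum_div]
theorem Ex_mono {F G : (E → Bool) → ℝ} (h : ∀ ω, F ω ≤ G ω) : Ex F ≤ Ex G := by
  simp only [Ex]
  gcongr with ω _
  exact h ω
theorem Ex_nonneg {F : (E → Bool) → ℝ} (h : ∀ ω, 0 ≤ F ω) : 0 ≤ Ex F := by
  have := Ex_mono (F := fun _ : E → Bool => (0 : ℝ)) (G := F) h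
  rwa [Ex_const] at this

/-- flipping the bit `e` -/
def flipE (e : E) : (E → Bool) ≃ (E → Bool) where
  toFun ω := Function.update ω e (!ω e)
  invFun ω := Function.update ω e (!ω e)
  left_inv ω := by
    funext f
    by_cases h : f = e
    · subst h; simp
    · simp [h]
  right_inv ω := by
    funext f
    by_cases h : f = e
    · subst h; simp
    · simp [h]

theorem Ex_flip (e : E) (F : (E → Bool) → ℝ) :
    Ex (fun ω => F (Function.update ω e (!ω e))) = Ex F := by
  simp only [Ex]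
  congr 1
  exact Equiv.sum_comp (flipE e) F

theorem update_same (e : E) (ω : E → Bool) (b : Bool) (h : ω e = b) : Function.update ω e b = ω := by
  subst h; simp

theorem Ae_eq (e : E) (F : (E → Bool) → ℝ) (ω : E → Bool) :
    Ae e F ω = (F ω + F (Function.update ω e (!ω e))) / 2 := by
  simp only [Ae]
  cases h : ω e
  · rw [update_same e ω false h]; simp; ring
  · rw [update_same e ω true h]; simp

theorem Ex_Ae (e : E) (F : (E → Bool) → ℝ) : Ex (Ae e F) = Ex F := by
  have h : Ae e F = fun ω => (1/2) * F ω + (1/2) * F (Function.update ω e (!ω e)) := by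
    funext ω; rw [Ae_eq]; ring
  rw [h, Ex_add, Ex_const_mul, Ex_const_mul, Ex_flip]; ring

theorem sg_mul_self (b : Bool) : sg b * sg b = 1 := by cases b <;> simp [sg]
theorem sg_true : sg true = 1 := rfl
theorem sg_false : sg false = -1 := rfl
theorem sg_not (b : Bool) : sg (!b) = -sg b := by cases b <;> simp [sg]
theorem abs_sg (b : Bool) : |sg b| = 1 := by cases b <;> simp [sg]
theorem sg_sq (b : Bool) : sg b ^ 2 = 1 := by cases b <;> simp [sg]

theorem decomp (e : E) (F : (E → Bool) → ℝ) (ω : E → Bool) :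
    F ω = Ae e F ω + sg (ω e) * De e F ω := by
  simp only [Ae, De]
  cases h : ω e
  · rw [update_same e ω false h]; simp [sg]; ring
  · rw [update_same e ω true h]; simp [sg]; ring

theorem Ae_update (e : E) (F : (E → Bool) → ℝ) (ω : E → Bool) (b : Bool) :
    Ae e F (Function.update ω e b) = Ae e F ω := by
  simp [Ae]
theorem De_update (e : E) (F : (E → Bool) → ℝ) (ω : E → Bool) (b : Bool) :
    De e F (Function.update ω e b) = De e F ω := by
  simp [De]

theorem De_add (e : E) (F G : (E → Bool) → ℝ) :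
    De e (fun ω => F ω + G ω) = fun ω => De e F ω + De e G ω := by
  funext ω; simp only [De]; ring
theorem De_sub (e : E) (F G : (E → Bool) → ℝ) :
    De e (fun ω => F ω - G ω) = fun ω => De e F ω - De e G ω := by
  funext ω; simp only [De]; ring
theorem De_neg (e : E) (F : (E → Bool) → ℝ) :
    De e (fun ω => - F ω) = fun ω => - De e F ω := by
  funext ω; simp only [De]; ring
theorem De_const_mul (e : E) (c : ℝ) (F : (E → Bool) → ℝ) :
    De e (fun ω => c * F ω) = fun ω => c * De e F ω := by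
  funext ω; simp only [De]; ring
theorem De_mul_const (e : E) (c : ℝ) (F : (E → Bool) → ℝ) :
    De e (fun ω => F ω * c) = fun ω => De e F ω * c := by
  funext ω; simp only [De]; ring
theorem De_const (e : E) (c : ℝ) : De e (fun _ : E → Bool => c) = 0 := by
  funext ω; simp [De]
theorem De_zero (e : E) : De e (0 : (E → Bool) → ℝ) = 0 := by
  funext ω; simp [De]
theorem De_zero' (e : E) : De e (0 : (E → Bool) → ℝ) = 0 := De_zero e
theorem Ae_zero' (e : E) : Ae e (0 : (E → Bool) → ℝ) = 0 := by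
  funext ω; simp [Ae]
theorem De_sum {ι : Type*} (e : E) (s : Finset ι) (F : ι → (E → Bool) → ℝ) :
    De e (fun ω => ∑ i ∈ s, F i ω) = fun ω => ∑ i ∈ s, De e (F i) ω := by
  funext ω
  simp only [De]
  rw [← Finset.sum_sub_distrib, Finset.sum_div]
theorem De_mul (e : E) (F G : (E → Bool) → ℝ) :
    De e (fun ω => F ω * G ω) = fun ω => F ω * De e G ω + G ω * De e F ω
      - 2 * sg (ω e) * (De e F ω * De e G ω) := by
  funext ω
  simp only [De]
  cases h : ω e
  · rw [update_same e ω false h]; simp [sg]; ring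
  · rw [update_same e ω true h]; simp [sg]; ring
theorem De_mul' (e : E) (F G : (E → Bool) → ℝ) :
    De e (fun ω => F ω * G ω) = fun ω => De e F ω * Ae e G ω + Ae e F ω * De e G ω := by
  funext ω
  simp only [De, Ae]
  ring
theorem De_comm (e f : E) (F : (E → Bool) → ℝ) : De e (De f F) = De f (De e F) := by
  funext ω
  by_cases h : e = f
  · subst h; rfl
  · simp only [De]
    rw [Function.update_comm h, Function.update_comm h, Function.update_comm h,
      Function.update_comm h]
    ring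
theorem De_Ae_comm (e f : E) (h : e ≠ f) (F : (E → Bool) → ℝ) :
    De e (Ae f F) = Ae f (De e F) := by
  funext ω
  simp only [De, Ae]
  rw [Function.update_comm h, Function.update_comm h, Function.update_comm h,
    Function.update_comm h]
  ring
theorem De_De_self (e : E) (F : (E → Bool) → ℝ) : De e (De e F) = 0 := by
  funext ω; simp [De]
theorem De_Ae_self (e : E) (F : (E → Bool) → ℝ) : De e (Ae e F) = 0 := by
  funext ω; simp [De, Ae]
theorem Ae_De_self (e : E) (F : (E → Bool) → ℝ) : Ae e (De e F) = De e F := by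
  funext ω; simp [De, Ae]
theorem Ae_add (e : E) (F G : (E → Bool) → ℝ) :
    Ae e (fun ω => F ω + G ω) = fun ω => Ae e F ω + Ae e G ω := by
  funext ω; simp only [Ae]; ring
theorem Ae_const_mul (e : E) (c : ℝ) (F : (E → Bool) → ℝ) :
    Ae e (fun ω => c * F ω) = fun ω => c * Ae e F ω := by
  funext ω; simp only [Ae]; ring
theorem De_sg_self (e : E) : De e (fun ω : E → Bool => sg (ω e)) = fun _ => 1 := by
  funext ω; simp [De, sg]
theorem De_sg_of_ne {e f : E} (h : e ≠ f) : De e (fun ω : E → Bool => sg (ω f)) = 0 := by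
  funext ω; simp [De, Function.update_of_ne h.symm]
/-- `σ_f F` differentiated in a different direction -/
theorem De_sg_mul_of_ne {e f : E} (h : e ≠ f) (F : (E → Bool) → ℝ) :
    De e (fun ω => sg (ω f) * F ω) = fun ω => sg (ω f) * De e F ω := by
  funext ω; simp only [De, Function.update_of_ne h.symm]; ring
theorem De_sg_mul_self (e : E) (F : (E → Bool) → ℝ) :
    De e (fun ω => sg (ω e) * F ω) = Ae e F := by
  funext ω; simp [De, Ae, sg]

theorem De_eq_zero_iff (e : E) (F : (E → Bool) → ℝ) :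
    De e F = 0 ↔ ∀ ω, F ω = Ae e F ω := by
  constructor
  · intro h ω
    have := decomp e F ω
    rw [h] at this
    simpa using this
  · intro h
    have h' : F = Ae e F := funext h
    rw [h', De_Ae_self]

theorem Ex_sg_mul (e : E) (F : (E → Bool) → ℝ) :
    Ex (fun ω => sg (ω e) * F ω) = Ex (De e F) := by
  rw [← Ex_Ae e (fun ω => sg (ω e) * F ω)]
  congr 1
  funext ω
  simp only [Ae, De, sg, Function.update_self]
  simp
  ring

/-! ### norm -/

theorem nrm_nonneg (F : (E → Bool) → ℝ) : 0 ≤ nrm F := Real.sqrt_nonneg _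
theorem nrm_sq (F : (E → Bool) → ℝ) : nrm F ^ 2 = Ex (fun ω => F ω ^ 2) :=
  Real.sq_sqrt (Ex_nonneg fun ω => sq_nonneg _)
theorem nrm_zero : nrm (0 : (E → Bool) → ℝ) = 0 := by
  have : (fun ω => (0 : (E → Bool) → ℝ) ω ^ 2) = fun _ => (0 : ℝ) := by funext ω; simp
  rw [nrm, this, Ex_const, Real.sqrt_zero]

theorem Ex_mul_sq_le (F G : (E → Bool) → ℝ) :
    (Ex fun ω => F ω * G ω) ^ 2 ≤ (Ex fun ω => F ω ^ 2) * Ex fun ω => G ω ^ 2 := by
  simp only [Ex]
  rw [div_pow, div_mul_div_comm, ← sq]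
  gcongr
  exact Finset.sum_mul_sq_le_sq_mul_sq _ _ _

theorem abs_Ex_mul_le (F G : (E → Bool) → ℝ) : |Ex (fun ω => F ω * G ω)| ≤ nrm F * nrm G := by
  apply abs_le_of_sq_le_sq _ (mul_nonneg (nrm_nonneg _) (nrm_nonneg _))
  rw [mul_pow, nrm_sq, nrm_sq]
  exact Ex_mul_sq_le F G

theorem abs_Ex_le (F : (E → Bool) → ℝ) : |Ex F| ≤ nrm F := by
  have h := abs_Ex_mul_le F (fun _ => 1)
  have h1 : nrm (fun _ : E → Bool => (1 : ℝ)) = 1 := by
    rw [nrm]; simp only [one_pow]; rw [Ex_const, Real.sqrt_one]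
  simpa [h1] using h

theorem nrm_add_le (F G : (E → Bool) → ℝ) : nrm (fun ω => F ω + G ω) ≤ nrm F + nrm G := by
  apply le_of_sq_le_sq _ (add_nonneg (nrm_nonneg _) (nrm_nonneg _))
  rw [nrm_sq]
  have h : (fun ω => (F ω + G ω) ^ 2) = fun ω => (F ω ^ 2 + G ω ^ 2) + 2 * (F ω * G ω) := by
    funext ω; ring
  rw [h, Ex_add, Ex_add, Ex_const_mul, ← nrm_sq, ← nrm_sq]
  have := (le_abs_self _).trans (abs_Ex_mul_le F G)
  nlinarith

theorem nrm_const_mul (c : ℝ) (F : (E → Bool) → ℝ) : nrm (fun ω => c * F ω) = |c| * nrm F := by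
  rw [nrm, nrm]
  have h : (fun ω => (c * F ω) ^ 2) = fun ω => c ^ 2 * F ω ^ 2 := by funext ω; ring
  rw [h, Ex_const_mul, Real.sqrt_mul (sq_nonneg c), Real.sqrt_sq_eq_abs]
theorem nrm_mul_const (c : ℝ) (F : (E → Bool) → ℝ) : nrm (fun ω => F ω * c) = |c| * nrm F := by
  rw [← nrm_const_mul]; congr 1; funext ω; ring
theorem nrm_neg (F : (E → Bool) → ℝ) : nrm (fun ω => - F ω) = nrm F := by
  have := nrm_const_mul (-1) F
  simpa using this
theorem nrm_const (c : ℝ) : nrm (fun _ : E → Bool => c) = |c| := by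
  rw [nrm, Ex_const, Real.sqrt_sq_eq_abs]
theorem nrm_sub_le (F G : (E → Bool) → ℝ) : nrm (fun ω => F ω - G ω) ≤ nrm F + nrm G := by
  have := nrm_add_le F (fun ω => - G ω)
  rw [nrm_neg] at this
  simpa [sub_eq_add_neg] using this
theorem nrm_sum_le {ι : Type*} (s : Finset ι) (F : ι → (E → Bool) → ℝ) :
    nrm (fun ω => ∑ i ∈ s, F i ω) ≤ ∑ i ∈ s, nrm (F i) := by
  classical
  induction s using Finset.induction_on with
  | empty =>
    simp only [Finset.sum_empty]
    exact (nrm_zero (E := E)).le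
  | insert i s hi ih =>
    simp only [Finset.sum_insert hi]
    refine (nrm_add_le _ _).trans ?_
    gcongr
theorem nrm_mono {F G : (E → Bool) → ℝ} (h : ∀ ω, |F ω| ≤ |G ω|) : nrm F ≤ nrm G := by
  apply Real.sqrt_le_sqrt
  apply Ex_mono
  intro ω
  exact sq_le_sq.mpr (h ω)
theorem nrm_congr_abs {F G : (E → Bool) → ℝ} (h : ∀ ω, |F ω| = |G ω|) : nrm F = nrm G :=
  le_antisymm (nrm_mono fun ω => (h ω).le) (nrm_mono fun ω => (h ω).ge)
theorem nrm_sg_mul (e : E) (F : (E → Bool) → ℝ) : nrm (fun ω => sg (ω e) * F ω) = nrm F := by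
  apply nrm_congr_abs
  intro ω
  rw [abs_mul, abs_sg, one_mul]

theorem nrm_sq_decomp (e : E) (F : (E → Bool) → ℝ) :
    nrm F ^ 2 = nrm (Ae e F) ^ 2 + nrm (De e F) ^ 2 := by
  rw [nrm_sq, nrm_sq, nrm_sq, ← Ex_add, ← Ex_Ae e (fun ω => F ω ^ 2)]
  congr 1
  funext ω
  simp only [Ae, De]
  ring
theorem nrm_De_le (e : E) (F : (E → Bool) → ℝ) : nrm (De e F) ≤ nrm F := by
  apply le_of_sq_le_sq _ (nrm_nonneg _)
  have := nrm_sq_decomp e F
  nlinarith [sq_nonneg (nrm (Ae e F))]
theorem nrm_Ae_le (e : E) (F : (E → Bool) → ℝ) : nrm (Ae e F) ≤ nrm F := by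
  apply le_of_sq_le_sq _ (nrm_nonneg _)
  have := nrm_sq_decomp e F
  nlinarith [sq_nonneg (nrm (De e F))]
theorem nrm_add_sq_le (F G : (E → Bool) → ℝ) :
    nrm (fun ω => F ω + G ω) ^ 2 ≤ 2 * nrm F ^ 2 + 2 * nrm G ^ 2 := by
  have h := nrm_add_le F G
  have h1 := nrm_nonneg (fun ω => F ω + G ω)
  have h2 := nrm_nonneg F
  have h3 := nrm_nonneg G
  nlinarith [sq_nonneg (nrm F - nrm G)]
theorem nrm_sub_sq_le (F G : (E → Bool) → ℝ) :
    nrm (fun ω => F ω - G ω) ^ 2 ≤ 2 * nrm F ^ 2 + 2 * nrm G ^ 2 := by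
  have h := nrm_sub_le F G
  have h1 := nrm_nonneg (fun ω => F ω - G ω)
  have h2 := nrm_nonneg F
  have h3 := nrm_nonneg G
  nlinarith [sq_nonneg (nrm F - nrm G)]
theorem nrm_sum_sq_le {ι : Type*} (s : Finset ι) (F : ι → (E → Bool) → ℝ) :
    nrm (fun ω => ∑ i ∈ s, F i ω) ^ 2 ≤ (s.card : ℝ) * ∑ i ∈ s, nrm (F i) ^ 2 := by
  have h := nrm_sum_le s F
  have h1 := nrm_nonneg (fun ω => ∑ i ∈ s, F i ω)
  calc nrm (fun ω => ∑ i ∈ s, F i ω) ^ 2 ≤ (∑ i ∈ s, nrm (F i)) ^ 2 := by gcongr
    _ ≤ (s.card : ℝ) * ∑ i ∈ s, nrm (F i) ^ 2 := sq_sum_le_card_mul_sum_sq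

/-! ### degree -/

theorem Deg_zero (d : ℕ) : Deg d (0 : (E → Bool) → ℝ) := by
  induction d with
  | zero => intro e; exact De_zero e
  | succ d ih => intro e; rw [De_zero]; exact ih
theorem Deg_const (d : ℕ) (c : ℝ) : Deg d (fun _ : E → Bool => c) := by
  cases d with
  | zero => intro e; exact De_const e c
  | succ d => intro e; rw [De_const]; exact Deg_zero d
theorem Deg_sg (e : E) : Deg 1 (fun ω : E → Bool => sg (ω e)) := by
  intro f
  by_cases h : f = e
  · subst h; rw [De_sg_self]; exact Deg_const 0 1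
  · rw [De_sg_of_ne h]; exact Deg_zero 0
theorem Deg.succ {d : ℕ} {F : (E → Bool) → ℝ} (h : Deg d F) : Deg (d + 1) F := by
  induction d generalizing F with
  | zero => intro e; rw [h e]; exact Deg_zero 0
  | succ d ih => intro e; exact ih (h e)
theorem Deg.mono {d d' : ℕ} {F : (E → Bool) → ℝ} (h : Deg d F) (hd : d ≤ d') : Deg d' F := by
  induction d', hd using Nat.le_induction with
  | base => exact h
  | succ k _ ih => exact ih.succ
theorem Deg.add {d : ℕ} {F G : (E → Bool) → ℝ} (h : Deg d F) (h' : Deg d G) :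
    Deg d (fun ω => F ω + G ω) := by
  induction d generalizing F G with
  | zero =>
    intro e
    rw [De_add, h e, h' e]
    funext ω; simp
  | succ d ih =>
    intro e
    rw [De_add]
    exact ih (h e) (h' e)
theorem Deg.const_mul {d : ℕ} {F : (E → Bool) → ℝ} (c : ℝ) (h : Deg d F) :
    Deg d (fun ω => c * F ω) := by
  induction d generalizing F with
  | zero =>
    intro e
    rw [De_const_mul, h e]
    funext ω; simp
  | succ d ih =>
    intro e
    rw [De_const_mul]
    exact ih (h e)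
theorem Deg.mul_const {d : ℕ} {F : (E → Bool) → ℝ} (c : ℝ) (h : Deg d F) :
    Deg d (fun ω => F ω * c) := by
  have := h.const_mul c
  simpa only [mul_comm] using this
theorem Deg.neg {d : ℕ} {F : (E → Bool) → ℝ} (h : Deg d F) : Deg d (fun ω => - F ω) := by
  have := h.const_mul (-1)
  simpa using this
theorem Deg.sub {d : ℕ} {F G : (E → Bool) → ℝ} (h : Deg d F) (h' : Deg d G) :
    Deg d (fun ω => F ω - G ω) := by
  have := h.add h'.neg
  simpa [sub_eq_add_neg] using this
theorem Deg.sum {ι : Type*} {d : ℕ} (s : Finset ι) {F : ι → (E → Bool) → ℝ}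
    (h : ∀ i ∈ s, Deg d (F i)) : Deg d (fun ω => ∑ i ∈ s, F i ω) := by
  classical
  induction s using Finset.induction_on with
  | empty => simp only [Finset.sum_empty]; exact Deg_const d 0
  | insert i s hi ih =>
    simp only [Finset.sum_insert hi]
    exact (h i (Finset.mem_insert_self i s)).add
      (ih fun j hj => h j (Finset.mem_insert_of_mem hj))
theorem Deg.De {d : ℕ} {F : (E → Bool) → ℝ} (e : E) (h : Deg d F) : Deg d (De e F) := by
  cases d with
  | zero => rw [h e]; exact Deg_zero 0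
  | succ d => exact (h e).succ
theorem Deg.Ae {d : ℕ} {F : (E → Bool) → ℝ} (e : E) (h : Deg d F) : Deg d (Ae e F) := by
  induction d generalizing F with
  | zero =>
    intro f
    by_cases hf : f = e
    · subst hf; exact De_Ae_self f F
    · rw [De_Ae_comm f e hf, h f]
      funext ω; simp [CTheta.Ae]
  | succ d ih =>
    intro f
    by_cases hf : f = e
    · subst hf; rw [De_Ae_self]; exact Deg_zero d
    · rw [De_Ae_comm f e hf]
      exact ih (h f)
theorem Deg.mul {d d' : ℕ} {F G : (E → Bool) → ℝ} (h : Deg d F) (h' : Deg d' G) :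
    Deg (d + d') (fun ω => F ω * G ω) := by
  induction hs : d + d' generalizing d d' F G with
  | zero =>
    have hd : d = 0 := by omega
    have hd' : d' = 0 := by omega
    subst hd; subst hd'
    intro e
    rw [De_mul', h e, h' e]
    funext ω; simp
  | succ s ih =>
    intro e
    rw [De_mul']
    apply Deg.add
    · cases d with
      | zero =>
        rw [h e]
        have : (fun ω => (0 : (E → Bool) → ℝ) ω * CTheta.Ae e G ω) = 0 := by funext ω; simp
        rw [this]; exact Deg_zero s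
      | succ d =>
        exact ih (h e) (h'.Ae e) (by omega)
    · cases d' with
      | zero =>
        rw [h' e]
        have : (fun ω => CTheta.Ae e F ω * (0 : (E → Bool) → ℝ) ω) = 0 := by funext ω; simp
        rw [this]; exact Deg_zero s
      | succ d' =>
        exact ih (h.Ae e) (h' e) (by omega)
theorem Deg.pow {d : ℕ} {F : (E → Bool) → ℝ} (h : Deg d F) (k : ℕ) :
    Deg (k * d) (fun ω => F ω ^ k) := by
  induction k with
  | zero => simp only [pow_zero]; exact Deg_const _ 1
  | succ k ih =>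
    have := ih.mul h
    simp only [pow_succ]
    rw [Nat.succ_mul]
    exact this

end Cube

end Pool.Agent.CTheta
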