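import Pool.Agent.Work.MP_2c2d16_pr.SE.Cube1

set_option autoImplicit false

/-!
# Fair signs, part 2: Bonami, sum of derivatives, Efron-Stein, Lemma A
-/

namespace Pool.Agent.CTheta

open Finset

section Cube2

set_option linter.unusedSectionVars false

variable {E : Type} [Fintype E] [DecidableEq E]

/-! ### functions that do not depend on a coordinate -/

theorem De_mul_eq_zero {e : E} {F G : (E → Bool) → ℝ} (hF : De e F = 0) (hG : De e G = 0) :
    De e (fun ω => F ω * G ω) = 0 := by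
  rw [De_mul, hF, hG]; funext ω; simp

theorem De_add_eq_zero {e : E} {F G : (E → Bool) → ℝ} (hF : De e F = 0) (hG : De e G = 0) :
    De e (fun ω => F ω + G ω) = 0 := by
  rw [De_add, hF, hG]; funext ω; simp

theorem De_const_mul_eq_zero {e : E} {F : (E → Bool) → ℝ} (c : ℝ) (hF : De e F = 0) :
    De e (fun ω => c * F ω) = 0 := by
  rw [De_const_mul, hF]; funext ω; simp

theorem Ex_zero' : Ex (0 : (E → Bool) → ℝ) = 0 := Ex_const 0

theorem Ex_sg_mul_eq_zero {e : E} {F : (E → Bool) → ℝ} (hF : De e F = 0) :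
    Ex (fun ω => sg (ω e) * F ω) = 0 := by
  rw [Ex_sg_mul, hF, Ex_zero']

theorem update_eq_of_De {e : E} {F : (E → Bool) → ℝ} (h : De e F = 0) (ω : E → Bool) (b : Bool) :
    F (Function.update ω e b) = F ω := by
  have h1 : F (Function.update ω e true) = F (Function.update ω e false) := by
    have := congrFun h ω
    simp only [De, Pi.zero_apply] at this
    linarith
  have h2 : Function.update ω e (ω e) = ω := Function.update_eq_self e ω
  cases hb : ω e <;> cases b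
  · rw [hb] at h2; rw [h2]
  · rw [hb] at h2; rw [h1, h2]
  · rw [hb] at h2; rw [← h1, h2]
  · rw [hb] at h2; rw [h2]

theorem eq_of_De_eq_zero {F : (E → Bool) → ℝ} (h : ∀ e, De e F = 0) (ω ω' : E → Bool) :
    F ω = F ω' := by
  have key : ∀ S : Finset E, ∀ ω : E → Bool, F (fun e => if e ∈ S then ω' e else ω e) = F ω := by
    intro S
    induction S using Finset.induction_on with
    | empty => intro ω; simp
    | insert a S ha ih =>
      intro ω
      have : (fun e => if e ∈ insert a S then ω' e else ω e)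
          = Function.update (fun e => if e ∈ S then ω' e else ω e) a (ω' a) := by
        funext e
        by_cases hea : e = a
        · subst hea; simp
        · simp [Finset.mem_insert, hea]
      rw [this, update_eq_of_De (h a), ih]
  have := key univ ω
  simp only [Finset.mem_univ, if_true] at this
  exact this.symm

theorem eq_const_of_De {F : (E → Bool) → ℝ} (h : ∀ e, De e F = 0) :
    F = fun _ => F (fun _ => true) := by
  funext ω; exact eq_of_De_eq_zero h ω _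

/-- independence of the averages and derivatives of the remaining coordinates -/
theorem De_Ae_eq_zero_of {e f : E} {F : (E → Bool) → ℝ} (h : f = e ∨ De f F = 0) :
    De f (Ae e F) = 0 := by
  by_cases hfe : f = e
  · subst hfe; exact De_Ae_self f F
  · rcases h with h | h
    · exact absurd h hfe
    · rw [De_Ae_comm f e hfe, h, Ae_zero']

theorem De_De_eq_zero_of {e f : E} {F : (E → Bool) → ℝ} (h : f = e ∨ De f F = 0) :
    De f (De e F) = 0 := by
  by_cases hfe : f = e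
  · subst hfe; exact De_De_self f F
  · rcases h with h | h
    · exact absurd h hfe
    · rw [De_comm, h, De_zero']

/-! ### Bonami -/

theorem sq_Ex_mul_le (F G : (E → Bool) → ℝ) :
    (Ex fun ω => F ω * G ω) ^ 2 ≤ Ex (fun ω => F ω ^ 2) * Ex (fun ω => G ω ^ 2) := by
  have h := abs_Ex_mul_le F G
  have h0 : |Ex fun ω => F ω * G ω| ^ 2 ≤ (nrm F * nrm G) ^ 2 :=
    pow_le_pow_left₀ (abs_nonneg _) h 2
  rw [sq_abs, mul_pow, nrm_sq, nrm_sq] at h0
  exact h0

theorem Ex_pow_four_expand (e : E) (F : (E → Bool) → ℝ) :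
    Ex (fun ω => F ω ^ 4) = Ex (fun ω => Ae e F ω ^ 4)
      + 6 * Ex (fun ω => Ae e F ω ^ 2 * De e F ω ^ 2) + Ex (fun ω => De e F ω ^ 4) := by
  set A := Ae e F with hA
  set D := De e F with hD
  have hA0 : De e A = 0 := De_Ae_self e F
  have hD0 : De e D = 0 := De_De_self e F
  have h1 : (fun ω => F ω ^ 4) = fun ω => ((A ω ^ 4 + 6 * (A ω ^ 2 * D ω ^ 2)) + D ω ^ 4)
      + sg (ω e) * (A ω * D ω * (4 * (A ω * A ω + D ω * D ω))) := by
    funext ω
    have hs : sg (ω e) ^ 2 = 1 := by rw [sq]; exact sg_mul_self _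
    have h3 : sg (ω e) ^ 3 = sg (ω e) := by
      rw [pow_succ, hs, one_mul]
    have h4 : sg (ω e) ^ 4 = 1 := by
      rw [show (4 : ℕ) = 2 * 2 from rfl, pow_mul, hs, one_pow]
    rw [decomp e F ω, ← hA, ← hD]
    have : (A ω + sg (ω e) * D ω) ^ 4 = A ω ^ 4 + 6 * (sg (ω e) ^ 2) * (A ω ^ 2 * D ω ^ 2)
        + sg (ω e) ^ 4 * D ω ^ 4 + 4 * sg (ω e) * A ω ^ 3 * D ω
        + 4 * sg (ω e) ^ 3 * A ω * D ω ^ 3 := by ring
    rw [this, hs, h3, h4]; ring
  rw [h1, Ex_add, Ex_add, Ex_add, Ex_const_mul]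
  rw [Ex_sg_mul_eq_zero]
  · ring
  · refine De_mul_eq_zero (De_mul_eq_zero hA0 hD0) ?_
    exact De_const_mul_eq_zero 4 (De_add_eq_zero (De_mul_eq_zero hA0 hA0) (De_mul_eq_zero hD0 hD0))

theorem Ex_sq_expand (e : E) (F : (E → Bool) → ℝ) :
    Ex (fun ω => F ω ^ 2) = Ex (fun ω => Ae e F ω ^ 2) + Ex (fun ω => De e F ω ^ 2) := by
  have := nrm_sq_decomp e F
  rwa [nrm_sq, nrm_sq, nrm_sq] at this

theorem bonami_aux (S : Finset E) : ∀ (d : ℕ) (F : (E → Bool) → ℝ), (∀ e, e ∉ S → De e F = 0) →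
    Deg d F → Ex (fun ω => F ω ^ 4) ≤ 9 ^ d * (Ex (fun ω => F ω ^ 2)) ^ 2 := by
  induction S using Finset.induction_on with
  | empty =>
    intro d F hF _
    have hc := eq_const_of_De (fun e => hF e (by simp))
    set c := F (fun _ => true)
    rw [hc]
    simp only
    rw [Ex_const, Ex_const]
    have h9 : (1 : ℝ) ≤ 9 ^ d := one_le_pow₀ (by norm_num)
    nlinarith [sq_nonneg (c ^ 2)]
  | insert e S he ih =>
    intro d F hF hd
    have hIA : ∀ f, f ∉ S → De f (Ae e F) = 0 := by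
      intro f hf
      apply De_Ae_eq_zero_of
      by_cases hfe : f = e
      · exact Or.inl hfe
      · exact Or.inr (hF f (by simp [hfe, hf]))
    have hID : ∀ f, f ∉ S → De f (De e F) = 0 := by
      intro f hf
      apply De_De_eq_zero_of
      by_cases hfe : f = e
      · exact Or.inl hfe
      · exact Or.inr (hF f (by simp [hfe, hf]))
    have hA := ih d (Ae e F) hIA (hd.Ae e)
    rw [Ex_pow_four_expand e F, Ex_sq_expand e F]
    set a := Ex (fun ω => Ae e F ω ^ 2) with ha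
    have ha0 : 0 ≤ a := Ex_nonneg fun ω => sq_nonneg _
    cases d with
    | zero =>
      have hD0 : De e F = 0 := hd e
      rw [hD0] at *
      simp only [Pi.zero_apply]
      have e1 : Ex (fun ω => Ae e F ω ^ 2 * (0 : ℝ) ^ 2) = 0 := by
        simp only [ne_eq, OfNat.ofNat_ne_zero, not_false_eq_true, zero_pow, mul_zero]
        exact Ex_const 0
      have e2 : Ex (fun _ : E → Bool => (0 : ℝ) ^ 4) = 0 := by
        simp only [ne_eq, OfNat.ofNat_ne_zero, not_false_eq_true, zero_pow]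
        exact Ex_const 0
      have e3 : Ex (fun _ : E → Bool => (0 : ℝ) ^ 2) = 0 := by
        simp only [ne_eq, OfNat.ofNat_ne_zero, not_false_eq_true, zero_pow]
        exact Ex_const 0
      rw [e1, e2, e3]
      simpa using hA
    | succ d =>
      have hD := ih d (De e F) hID (hd e)
      set b := Ex (fun ω => De e F ω ^ 2) with hb
      have hb0 : 0 ≤ b := Ex_nonneg fun ω => sq_nonneg _
      set x := Ex (fun ω => Ae e F ω ^ 2 * De e F ω ^ 2) with hx
      have hcs : x ^ 2 ≤ Ex (fun ω => Ae e F ω ^ 4) * Ex (fun ω => De e F ω ^ 4) := by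
        have := sq_Ex_mul_le (fun ω => Ae e F ω ^ 2) (fun ω => De e F ω ^ 2)
        simp only [← pow_mul] at this
        exact this
      have h9 : (0 : ℝ) < 9 ^ d := by positivity
      have hx' : x ≤ 3 * 9 ^ d * (a * b) := by
        apply le_of_sq_le_sq' ?_ (by positivity)
        calc x ^ 2 ≤ _ := hcs
          _ ≤ (9 ^ (d + 1) * a ^ 2) * (9 ^ d * b ^ 2) := by
              apply mul_le_mul hA hD (Ex_nonneg fun ω => by positivity) (by positivity)
          _ = (3 * 9 ^ d * (a * b)) ^ 2 := by rw [pow_succ]; ring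
      have hA' : Ex (fun ω => Ae e F ω ^ 4) ≤ 9 * 9 ^ d * a ^ 2 := by
        rw [pow_succ] at hA; linarith
      have hab : 0 ≤ a * b := mul_nonneg ha0 hb0
      have : 9 ^ (d + 1) * (a + b) ^ 2 = 9 * 9 ^ d * a ^ 2 + 18 * 9 ^ d * (a * b)
          + 9 * 9 ^ d * b ^ 2 := by rw [pow_succ]; ring
      rw [this]
      nlinarith [mul_nonneg h9.le (sq_nonneg b)]
where
  le_of_sq_le_sq' {x y : ℝ} (h : x ^ 2 ≤ y ^ 2) (hy : 0 ≤ y) : x ≤ y := by
    exact le_of_abs_le (abs_le_of_sq_le_sq h hy)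

/-- Bonami -/
theorem Ex_pow_four_le {d : ℕ} {F : (E → Bool) → ℝ} (h : Deg d F) :
    Ex (fun ω => F ω ^ 4) ≤ 9 ^ d * (nrm F ^ 2) ^ 2 := by
  rw [nrm_sq]
  exact bonami_aux univ d F (fun e he => absurd (mem_univ e) he) h

theorem nrm_mul_sq_le {d d' : ℕ} {F G : (E → Bool) → ℝ} (h : Deg d F) (h' : Deg d' G) :
    nrm (fun ω => F ω * G ω) ^ 2 ≤ 3 ^ (d + d') * (nrm F ^ 2 * nrm G ^ 2) := by
  have h1 := Ex_pow_four_le h
  have h2 := Ex_pow_four_le h'
  have hcs := sq_Ex_mul_le (fun ω => F ω ^ 2) (fun ω => G ω ^ 2)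
  simp only [← pow_mul] at hcs
  have e1 : nrm (fun ω => F ω * G ω) ^ 2 = Ex (fun ω => F ω ^ 2 * G ω ^ 2) := by
    rw [nrm_sq]; congr 1; funext ω; ring
  rw [e1]
  have ha : 0 ≤ nrm F ^ 2 := sq_nonneg _
  have hb : 0 ≤ nrm G ^ 2 := sq_nonneg _
  refine le_of_abs_le (abs_le_of_sq_le_sq ?_ (by positivity))
  calc (Ex fun ω => F ω ^ 2 * G ω ^ 2) ^ 2 ≤ _ := hcs
    _ ≤ (9 ^ d * (nrm F ^ 2) ^ 2) * (9 ^ d' * (nrm G ^ 2) ^ 2) :=
        mul_le_mul h1 h2 (Ex_nonneg fun ω => by rw [pow_mul]; exact sq_nonneg _)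
          (mul_nonneg (by positivity) (sq_nonneg _))
    _ = (3 ^ (d + d') * (nrm F ^ 2 * nrm G ^ 2)) ^ 2 := by
        have : (9 : ℝ) = 3 ^ 2 := by norm_num
        rw [this, ← pow_mul, ← pow_mul, pow_add, mul_pow, mul_pow, ← pow_mul, ← pow_mul,
          mul_comm 2 d, mul_comm 2 d', mul_pow]
        ring

theorem nrm_mul_le {d d' : ℕ} {F G : (E → Bool) → ℝ} (h : Deg d F) (h' : Deg d' G) :
    nrm (fun ω => F ω * G ω) ≤ 3 ^ (d + d') * (nrm F * nrm G) := by
  have h1 := nrm_mul_sq_le h h'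
  have hF := nrm_nonneg F
  have hG := nrm_nonneg G
  refine le_of_abs_le (abs_le_of_sq_le_sq ?_ (by positivity))
  have h3 : (1 : ℝ) ≤ 3 ^ (d + d') := one_le_pow₀ (by norm_num)
  calc nrm (fun ω => F ω * G ω) ^ 2 ≤ 3 ^ (d + d') * (nrm F ^ 2 * nrm G ^ 2) := h1
    _ ≤ 3 ^ (d + d') * (3 ^ (d + d') * (nrm F ^ 2 * nrm G ^ 2)) := by
        apply mul_le_mul_of_nonneg_left _ (by positivity)
        exact le_mul_of_one_le_left (by positivity) h3
    _ = (3 ^ (d + d') * (nrm F * nrm G)) ^ 2 := by ring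

/-! ### sum of the squares of the derivatives -/

theorem Ex_sub_sq_nonneg (F : (E → Bool) → ℝ) : 0 ≤ Ex (fun ω => F ω ^ 2) - (Ex F) ^ 2 := by
  have := abs_Ex_le F
  have h2 : |Ex F| ^ 2 ≤ nrm F ^ 2 := pow_le_pow_left₀ (abs_nonneg _) this 2
  rw [sq_abs, nrm_sq] at h2
  linarith

theorem nrm_De_sq_expand {e f : E} (h : f ≠ e) (F : (E → Bool) → ℝ) :
    nrm (De f F) ^ 2 = nrm (De f (Ae e F)) ^ 2 + nrm (De f (De e F)) ^ 2 := by
  rw [nrm_sq_decomp e (De f F), De_Ae_comm f e h, De_comm e f]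

theorem sum_aux (S : Finset E) : ∀ (d : ℕ) (F : (E → Bool) → ℝ), (∀ e, e ∉ S → De e F = 0) →
    Deg d F → ∑ e ∈ S, nrm (De e F) ^ 2 ≤ d * (nrm F ^ 2 - (Ex F) ^ 2) := by
  induction S using Finset.induction_on with
  | empty =>
    intro d F _ _
    have := Ex_sub_sq_nonneg F
    rw [← nrm_sq] at this
    simpa using mul_nonneg (Nat.cast_nonneg d) this
  | insert e S he ih =>
    intro d F hF hd
    have hIA : ∀ f, f ∉ S → De f (Ae e F) = 0 := by
      intro f hf
      apply De_Ae_eq_zero_of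
      by_cases hfe : f = e
      · exact Or.inl hfe
      · exact Or.inr (hF f (by simp [hfe, hf]))
    have hID : ∀ f, f ∉ S → De f (De e F) = 0 := by
      intro f hf
      apply De_De_eq_zero_of
      by_cases hfe : f = e
      · exact Or.inl hfe
      · exact Or.inr (hF f (by simp [hfe, hf]))
    have hA := ih d (Ae e F) hIA (hd.Ae e)
    rw [Finset.sum_insert he]
    have hsum : ∑ f ∈ S, nrm (De f F) ^ 2 = ∑ f ∈ S, nrm (De f (Ae e F)) ^ 2
        + ∑ f ∈ S, nrm (De f (De e F)) ^ 2 := by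
      rw [← Finset.sum_add_distrib]
      refine Finset.sum_congr rfl fun f hf => ?_
      exact nrm_De_sq_expand (by rintro rfl; exact he hf) F
    rw [hsum, nrm_sq_decomp e F]
    rw [Ex_Ae] at hA
    cases d with
    | zero =>
      have h0 : De e F = 0 := hd e
      have h1 : ∑ f ∈ S, nrm (De f (De e F)) ^ 2 = 0 := by
        apply Finset.sum_eq_zero
        intro f _
        rw [h0, De_zero', nrm_zero]; norm_num
      rw [h1, h0, nrm_zero]
      simpa using hA
    | succ d =>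
      have hD := ih d (De e F) hID (hd e)
      have h2 : (d : ℝ) * (nrm (De e F) ^ 2 - (Ex (De e F)) ^ 2) ≤ d * nrm (De e F) ^ 2 := by
        apply mul_le_mul_of_nonneg_left _ (Nat.cast_nonneg d)
        nlinarith [sq_nonneg (Ex (De e F))]
      push_cast at hA ⊢
      nlinarith [hA, hD, h2]

theorem sum_nrm_De_sq_le {d : ℕ} {F : (E → Bool) → ℝ} (h : Deg d F) :
    ∑ e, nrm (De e F) ^ 2 ≤ d * nrm F ^ 2 := by
  refine (sum_aux univ d F (fun e he => absurd (mem_univ e) he) h).trans ?_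
  apply mul_le_mul_of_nonneg_left _ (Nat.cast_nonneg d)
  nlinarith [sq_nonneg (Ex F)]

theorem nrm_sq_eq_var_add (F : (E → Bool) → ℝ) :
    nrm F ^ 2 = nrm (fun ω => F ω - Ex F) ^ 2 + (Ex F) ^ 2 := by
  rw [nrm_sq, nrm_sq]
  have : (fun ω => (F ω - Ex F) ^ 2) = fun ω => (F ω ^ 2 + (-2 * Ex F) * F ω) + (Ex F) ^ 2 := by
    funext ω; ring
  rw [this, Ex_add, Ex_add, Ex_const_mul, Ex_const]
  ring

theorem var_aux (S : Finset E) : ∀ (F : (E → Bool) → ℝ), (∀ e, e ∉ S → De e F = 0) →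
    nrm F ^ 2 - (Ex F) ^ 2 ≤ ∑ e ∈ S, nrm (De e F) ^ 2 := by
  induction S using Finset.induction_on with
  | empty =>
    intro F hF
    have hc := eq_const_of_De (fun e => hF e (by simp))
    set c := F (fun _ => true)
    rw [hc, Ex_const, nrm_const]
    simp
  | insert e S he ih =>
    intro F hF
    have hIA : ∀ f, f ∉ S → De f (Ae e F) = 0 := by
      intro f hf
      apply De_Ae_eq_zero_of
      by_cases hfe : f = e
      · exact Or.inl hfe
      · exact Or.inr (hF f (by simp [hfe, hf]))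
    have hA := ih (Ae e F) hIA
    rw [Finset.sum_insert he]
    have hsum : ∑ f ∈ S, nrm (De f F) ^ 2 = ∑ f ∈ S, nrm (De f (Ae e F)) ^ 2
        + ∑ f ∈ S, nrm (De f (De e F)) ^ 2 := by
      rw [← Finset.sum_add_distrib]
      refine Finset.sum_congr rfl fun f hf => ?_
      exact nrm_De_sq_expand (by rintro rfl; exact he hf) F
    have hpos : 0 ≤ ∑ f ∈ S, nrm (De f (De e F)) ^ 2 :=
      Finset.sum_nonneg fun f _ => sq_nonneg _
    rw [hsum, nrm_sq_decomp e F]
    rw [Ex_Ae] at hA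
    linarith

/-- Efron-Stein -/
theorem var_le (F : (E → Bool) → ℝ) :
    nrm (fun ω => F ω - Ex F) ^ 2 ≤ ∑ e, nrm (De e F) ^ 2 := by
  have h1 := nrm_sq_eq_var_add F
  have h2 := var_aux univ F (fun e he => absurd (mem_univ e) he)
  linarith

/-! ### Lemma A -/

theorem Ex_sg_sg_mul {U : E → (E → Bool) → ℝ} (hU : ∀ e, De e (U e) = 0) {e f : E} (hef : e ≠ f) :
    Ex (fun ω => (sg (ω e) * U e ω) * (sg (ω f) * U f ω))
      = Ex (fun ω => De f (U e) ω * De e (U f) ω) := by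
  have h1 : (fun ω => (sg (ω e) * U e ω) * (sg (ω f) * U f ω))
      = fun ω => sg (ω e) * (sg (ω f) * (U e ω * U f ω)) := by funext ω; ring
  rw [h1, Ex_sg_mul, De_sg_mul_of_ne hef, De_mul, hU e]
  have h2 : (fun ω => sg (ω f) * (U e ω * De e (U f) ω + U f ω * (0 : (E → Bool) → ℝ) ω
      - 2 * sg (ω e) * ((0 : (E → Bool) → ℝ) ω * De e (U f) ω)))
      = fun ω => sg (ω f) * (U e ω * De e (U f) ω) := by
    funext ω; simp
  rw [h2, Ex_sg_mul, De_mul]
  have h3 : De f (De e (U f)) = 0 := by rw [De_comm, hU f, De_zero']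
  rw [h3]
  congr 1; funext ω; simp [mul_comm]

theorem lemmaA_aux {d : ℕ} {U : E → (E → Bool) → ℝ} (hU : ∀ e, De e (U e) = 0)
    (h : ∀ e, Deg d (U e)) :
    nrm (fun ω => ∑ e, sg (ω e) * U e ω) ^ 2 ≤ (d + 1) * ∑ e, nrm (U e) ^ 2 := by
  have h1 : nrm (fun ω => ∑ e, sg (ω e) * U e ω) ^ 2
      = ∑ e, ∑ f, Ex (fun ω => (sg (ω e) * U e ω) * (sg (ω f) * U f ω)) := by
    rw [nrm_sq]
    have : (fun ω => (∑ e, sg (ω e) * U e ω) ^ 2)
        = fun ω => ∑ e, ∑ f, (sg (ω e) * U e ω) * (sg (ω f) * U f ω) := by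
      funext ω; rw [sq, Finset.sum_mul_sum]
    rw [this, Ex_sum]
    refine Finset.sum_congr rfl fun e _ => ?_
    rw [Ex_sum]
  rw [h1]
  have h2 : ∀ e f : E, Ex (fun ω => (sg (ω e) * U e ω) * (sg (ω f) * U f ω))
      ≤ (if f = e then nrm (U e) ^ 2 else 0)
        + (nrm (De f (U e)) ^ 2 + nrm (De e (U f)) ^ 2) / 2 := by
    intro e f
    by_cases hfe : f = e
    · subst hfe
      rw [if_pos rfl]
      have : (fun ω => (sg (ω f) * U f ω) * (sg (ω f) * U f ω)) = fun ω => U f ω ^ 2 := by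
        funext ω
        have := sg_mul_self (ω f)
        calc (sg (ω f) * U f ω) * (sg (ω f) * U f ω) = (sg (ω f) * sg (ω f)) * U f ω ^ 2 := by ring
          _ = _ := by rw [this, one_mul]
      rw [this, ← nrm_sq]
      nlinarith [sq_nonneg (nrm (De f (U f)))]
    · rw [if_neg hfe, Ex_sg_sg_mul hU (Ne.symm hfe)]
      have := abs_Ex_mul_le (De f (U e)) (De e (U f))
      have h3 := le_of_abs_le this
      nlinarith [sq_nonneg (nrm (De f (U e)) - nrm (De e (U f)))]
  calc ∑ e, ∑ f, Ex (fun ω => (sg (ω e) * U e ω) * (sg (ω f) * U f ω))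
      ≤ ∑ e, ∑ f, ((if f = e then nrm (U e) ^ 2 else 0)
        + (nrm (De f (U e)) ^ 2 + nrm (De e (U f)) ^ 2) / 2) :=
        Finset.sum_le_sum fun e _ => Finset.sum_le_sum fun f _ => h2 e f
    _ = ∑ e, nrm (U e) ^ 2 + ∑ e, ∑ f, nrm (De f (U e)) ^ 2 := by
        have hswap : ∑ e, ∑ f, nrm (De e (U f)) ^ 2 = ∑ e, ∑ f, nrm (De f (U e)) ^ 2 :=
          Finset.sum_comm
        simp_rw [Finset.sum_add_distrib, Finset.sum_ite_eq' univ, Finset.mem_univ, if_true,
          ← Finset.sum_div, Finset.sum_add_distrib]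
        rw [hswap]; ring
    _ ≤ ∑ e, nrm (U e) ^ 2 + ∑ e, d * nrm (U e) ^ 2 := by
        gcongr with e _
        exact sum_nrm_De_sq_le (h e)
    _ = (d + 1) * ∑ e, nrm (U e) ^ 2 := by
        rw [← Finset.mul_sum]; ring

/-- Lemma A, indexed by classes -/
theorem lemmaA {d : ℕ} {T : E → (E → Bool) → ℝ} (h : ∀ e, Deg d (T e)) :
    nrm (fun ω => ∑ e, sg (ω e) * T e ω) ^ 2
      ≤ 2 * (d + 1) * ∑ e, nrm (T e) ^ 2 + 2 * nrm (fun ω => ∑ e, De e (T e) ω) ^ 2 := by
  have h1 : (fun ω => ∑ e, sg (ω e) * T e ω)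
      = fun ω => (∑ e, sg (ω e) * Ae e (T e) ω) + ∑ e, De e (T e) ω := by
    funext ω
    rw [← Finset.sum_add_distrib]
    refine Finset.sum_congr rfl fun e _ => ?_
    conv_lhs => rw [decomp e (T e) ω]
    have := sg_mul_self (ω e)
    calc sg (ω e) * (Ae e (T e) ω + sg (ω e) * De e (T e) ω)
        = sg (ω e) * Ae e (T e) ω + (sg (ω e) * sg (ω e)) * De e (T e) ω := by ring
      _ = _ := by rw [this, one_mul]
  rw [h1]
  refine (nrm_add_sq_le _ _).trans ?_
  have h2 := lemmaA_aux (d := d) (U := fun e => Ae e (T e)) (fun e => De_Ae_self e (T e))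
    (fun e => (h e).Ae e)
  have h3 : ∑ e, nrm (Ae e (T e)) ^ 2 ≤ ∑ e, nrm (T e) ^ 2 :=
    Finset.sum_le_sum fun e _ => pow_le_pow_left₀ (nrm_nonneg _) (nrm_Ae_le e (T e)) 2
  have h4 : ((d : ℝ) + 1) * ∑ e, nrm (Ae e (T e)) ^ 2 ≤ (d + 1) * ∑ e, nrm (T e) ^ 2 :=
    mul_le_mul_of_nonneg_left h3 (by positivity)
  linarith

end Cube2

end Pool.Agent.CTheta
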