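import Mathlib

set_option autoImplicit false

/-!
# Definitions for the state evolution part of MP_2c2d16_pr

* fair signs on the cube `E → Bool` : expectation `Ex`, L2 norm `nrm`, sign `sg`,
  averaging `Ae`, discrete derivative `De`, degree predicate `Deg`.
* cosines on `ZMod n` : `co`, classes `cl`, signs `sx`, transforms `bt`, `Yv`.
* the invariant `Inv`.
-/

namespace Pool.Agent.CTheta

open Finset

section Cube

variable {E : Type} [Fintype E] [DecidableEq E]

/-- expectation over fair signs -/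
noncomputable def Ex (F : (E → Bool) → ℝ) : ℝ :=
  (∑ ω : E → Bool, F ω) / 2 ^ (Fintype.card E)

/-- L2 norm over fair signs -/
noncomputable def nrm (F : (E → Bool) → ℝ) : ℝ :=
  Real.sqrt (Ex fun ω => F ω ^ 2)

/-- the sign of a bit -/
def sg (b : Bool) : ℝ := if b then 1 else -1

/-- average over the coordinate `e` -/
noncomputable def Ae (e : E) (F : (E → Bool) → ℝ) : (E → Bool) → ℝ :=
  fun ω => (F (Function.update ω e true) + F (Function.update ω e false)) / 2

/-- discrete derivative in the coordinate `e` -/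
noncomputable def De (e : E) (F : (E → Bool) → ℝ) : (E → Bool) → ℝ :=
  fun ω => (F (Function.update ω e true) - F (Function.update ω e false)) / 2

/-- `F` has degree at most `d` as a multilinear polynomial in the signs -/
def Deg : ℕ → ((E → Bool) → ℝ) → Prop
  | 0, F => ∀ e, De e F = 0
  | d + 1, F => ∀ e, Deg d (De e F)

end Cube

section Circ

variable {n : ℕ} [NeZero n]

/-- sample space: one sign for each class `{x,-x}`; coordinate `0` is a dummy -/
abbrev Om (n : ℕ) : Type := Fin (n / 2 + 1) → Bool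

/-- the class of `x` -/
def cl (x : ZMod n) : Fin (n / 2 + 1) :=
  ⟨min x.val (-x).val, by
    have h : x.val + (-x).val ≤ n := by
      rcases eq_or_ne x 0 with h | h
      · subst h; simp
      · have hx : NeZero x := ⟨h⟩
        rw [ZMod.val_neg_of_ne_zero]
        have := (ZMod.val_lt x).le
        omega
    omega⟩

/-- `cos (2 π z / n)` -/
noncomputable def co (z : ZMod n) : ℝ := Real.cos (2 * Real.pi * (z.val : ℝ) / (n : ℝ))

/-- the sign at `x` -/
def sx (x : ZMod n) : Om n → ℝ := fun ω => sg (ω (cl x))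

/-- the field `Y_j = ∑_{x ≠ 0} σ_x B(x) cos(2π j x/n)` -/
noncomputable def Yv (B : ZMod n → Om n → ℝ) (j : ZMod n) : Om n → ℝ :=
  fun ω => ∑ x ∈ univ.erase (0 : ZMod n), sx x ω * B x ω * co (j * x)

/-- back transform `(1/n) ∑_j H_j cos(2π j x/n)` -/
noncomputable def bt (H : ZMod n → Om n → ℝ) (x : ZMod n) : Om n → ℝ :=
  fun ω => (∑ j : ZMod n, H j ω * co (j * x)) / (n : ℝ)

/-- a polynomial in the field `Y` -/
noncomputable def pY (Q : Polynomial ℝ) (B : ZMod n → Om n → ℝ) (j : ZMod n) : Om n → ℝ :=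
  fun ω => Q.eval (Yv B j ω)

/-- the next layer -/
noncomputable def nextB (κ : ℝ) (ψ : Polynomial ℝ) (B : ZMod n → Om n → ℝ) (x : ZMod n) :
    Om n → ℝ :=
  fun ω => κ / Real.sqrt (n : ℝ) + bt (pY ψ B) x ω

/-- the invariant of a layer -/
structure Inv (n : ℕ) [NeZero n] (B : ZMod n → Om n → ℝ) (d : ℕ) (C : ℝ) : Prop where
  even : ∀ x, B (-x) = B x
  deg : ∀ x, Deg d (B x)
  b0 : |(∑ x ∈ univ.erase (0 : ZMod n), nrm (B x) ^ 2) - 1| ≤ C / Real.sqrt (n : ℝ)
  b1 : ∀ x, x ≠ 0 → nrm (B x) ^ 2 ≤ C / (n : ℝ)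
  b3 : ∀ e, ∑ x : ZMod n, nrm (De e (B x)) ^ 2 ≤ C / (n : ℝ)
  b4 : ∀ w, ∑ x ∈ univ.erase (0 : ZMod n), nrm (De (cl x) (B (w + x))) ^ 2 ≤ C / (n : ℝ)
  b5 : ∑ e, nrm (fun ω => ∑ u ∈ univ.erase (0 : ZMod n), B u ω * De e (B u) ω) ^ 2
        ≤ C / (n : ℝ)

/-- Gaussian expectation of a polynomial -/
noncomputable def gE (Q : Polynomial ℝ) : ℝ :=
  ∫ x, Q.eval x ∂(ProbabilityTheory.gaussianReal 0 1)

/-- the iteration -/
noncomputable def Bit (n : ℕ) [NeZero n] (κ : ℝ) (ψ : Polynomial ℝ) : ℕ → ZMod n → Om n → ℝ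
  | 0 => fun _ _ => 1 / Real.sqrt (n : ℝ)
  | t + 1 => nextB κ ψ (Bit n κ ψ t)

end Circ

end Pool.Agent.CTheta
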