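import Pool.Agent.Work.MP_2c2d16_pr.SE.Defs

set_option autoImplicit false

/-! Cosines and classes on `ZMod n`. -/

namespace Pool.Agent.CTheta

open Finset

section FourFile

variable {n : ℕ} [NeZero n]

theorem co_eq_re (z : ZMod n) : co z = (ZMod.stdAddChar z).re := by
  have h1 : ((z.val : ℤ) : ZMod n) = z := by
    rw [Int.cast_natCast, ZMod.natCast_val, ZMod.cast_id', id]
  have h2 : ZMod.stdAddChar z = Complex.exp (2 * Real.pi * Complex.I * (z.val : ℤ) / (n : ℂ)) := by
    conv_lhs => rw [← h1]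
    exact ZMod.stdAddChar_coe _
  have h3 : (2 * Real.pi * Complex.I * (z.val : ℤ) / (n : ℂ) : ℂ) =
      ((2 * Real.pi * (z.val : ℝ) / (n : ℝ) : ℝ) : ℂ) * Complex.I := by
    push_cast; ring
  rw [h2, h3, Complex.exp_ofReal_mul_I_re, co]

theorem ch_neg (z : ZMod n) :
    ZMod.stdAddChar (-z) = (starRingEnd ℂ) (ZMod.stdAddChar z) :=
  AddChar.map_neg_eq_conj _ _

theorem co_zero : co (0 : ZMod n) = 1 := by
  rw [co_eq_re, AddChar.map_zero_eq_one, Complex.one_re]

theorem co_neg (z : ZMod n) : co (-z) = co z := by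
  rw [co_eq_re, co_eq_re, ch_neg, Complex.conj_re]

theorem abs_co_le (z : ZMod n) : |co z| ≤ 1 := Real.abs_cos_le_one _

theorem co_mul_co (a b : ZMod n) : co a * co b = (co (a + b) + co (a - b)) / 2 := by
  rw [co_eq_re, co_eq_re, co_eq_re, co_eq_re, sub_eq_add_neg, AddChar.map_add_eq_mul,
    AddChar.map_add_eq_mul, ch_neg, Complex.mul_re, Complex.mul_re, Complex.conj_re,
    Complex.conj_im]
  ring

theorem sum_co_mul (x : ZMod n) :
    ∑ j : ZMod n, co (j * x) = if x = 0 then (n : ℝ) else 0 := by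
  have h1 := AddChar.sum_mulShift x (ZMod.isPrimitive_stdAddChar n)
  have h2 : ∑ j : ZMod n, co (j * x) = (∑ j : ZMod n, ZMod.stdAddChar (j * x) : ℂ).re := by
    rw [Complex.re_sum]
    exact Finset.sum_congr rfl fun j _ => co_eq_re _
  rw [h2, h1, ZMod.card]
  split_ifs
  · simp
  · simp

theorem sum_co_mul' (j : ZMod n) :
    ∑ x : ZMod n, co (j * x) = if j = 0 then (n : ℝ) else 0 := by
  rw [← sum_co_mul j]
  exact Finset.sum_congr rfl fun x _ => by rw [mul_comm]

theorem sum_co_co (x y : ZMod n) :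
    ∑ j : ZMod n, co (j * x) * co (j * y) =
      (n : ℝ) / 2 * ((if x + y = 0 then 1 else 0) + (if x - y = 0 then 1 else 0)) := by
  have h1 : ∀ j : ZMod n, co (j * x) * co (j * y) =
      (co (j * (x + y)) + co (j * (x - y))) / 2 := by
    intro j
    rw [co_mul_co, mul_add, mul_sub]
  simp_rw [h1]
  rw [← Finset.sum_div, Finset.sum_add_distrib, sum_co_mul, sum_co_mul]
  split_ifs <;> ring

theorem bilin (a b : ZMod n → ℝ) :
    ∑ j : ZMod n, (∑ x : ZMod n, a x * co (j * x)) * (∑ x : ZMod n, b x * co (j * x)) =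
      (n : ℝ) / 2 * ∑ x : ZMod n, a x * (b (-x) + b x) := by
  have h1 : ∀ j : ZMod n, (∑ x : ZMod n, a x * co (j * x)) * (∑ x : ZMod n, b x * co (j * x)) =
      ∑ x : ZMod n, ∑ y : ZMod n, a x * b y * (co (j * x) * co (j * y)) := by
    intro j
    rw [Finset.sum_mul_sum]
    exact Finset.sum_congr rfl fun x _ => Finset.sum_congr rfl fun y _ => by ring
  simp_rw [h1]
  rw [Finset.sum_comm]
  rw [Finset.mul_sum]
  refine Finset.sum_congr rfl fun x _ => ?_
  rw [Finset.sum_comm]
  have h2 : ∀ y : ZMod n, ∑ j : ZMod n, a x * b y * (co (j * x) * co (j * y)) =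
      (n : ℝ) / 2 * (a x * (if -x = y then b y else 0) + a x * (if x = y then b y else 0)) := by
    intro y
    rw [← Finset.mul_sum, sum_co_co]
    have e1 : (x + y = 0) ↔ (-x = y) := by
      constructor
      · intro h; exact (neg_eq_of_add_eq_zero_right h)
      · intro h; rw [← h]; ring
    have e2 : (x - y = 0) ↔ (x = y) := sub_eq_zero
    simp only [e1, e2]
    split_ifs <;> ring
  simp_rw [h2]
  rw [← Finset.mul_sum, Finset.sum_add_distrib, ← Finset.mul_sum, ← Finset.mul_sum,
    Finset.sum_ite_eq, Finset.sum_ite_eq, if_pos (Finset.mem_univ _), if_pos (Finset.mem_univ _)]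
  ring

theorem bessel (a : ZMod n → ℝ) :
    ∑ j : ZMod n, (∑ x : ZMod n, a x * co (j * x)) ^ 2 ≤ n * ∑ x : ZMod n, a x ^ 2 := by
  have h1 := bilin a a
  have h2 : ∑ j : ZMod n, (∑ x : ZMod n, a x * co (j * x)) ^ 2 =
      ∑ j : ZMod n, (∑ x : ZMod n, a x * co (j * x)) * (∑ x : ZMod n, a x * co (j * x)) :=
    Finset.sum_congr rfl fun j _ => by rw [sq]
  rw [h2, h1]
  have h3 : ∑ x : ZMod n, a x * (a (-x) + a x) ≤ ∑ x : ZMod n, (a (-x) ^ 2 / 2 + 3 / 2 * a x ^ 2) :=
    Finset.sum_le_sum fun x _ => by nlinarith [sq_nonneg (a x - a (-x))]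
  have h4 : ∑ x : ZMod n, a (-x) ^ 2 = ∑ x : ZMod n, a x ^ 2 :=
    Equiv.sum_comp (Equiv.neg (ZMod n)) (fun x => a x ^ 2)
  rw [Finset.sum_add_distrib, ← Finset.sum_div, h4, ← Finset.mul_sum] at h3
  have h5 : (0 : ℝ) ≤ n := Nat.cast_nonneg n
  nlinarith [h3, mul_le_mul_of_nonneg_left h3 h5]

theorem bessel' (h : ZMod n → ℝ) :
    ∑ x : ZMod n, (∑ j : ZMod n, h j * co (j * x)) ^ 2 ≤ n * ∑ j : ZMod n, h j ^ 2 := by
  have h1 := bessel h
  have h2 : ∑ x : ZMod n, (∑ j : ZMod n, h j * co (j * x)) ^ 2 =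
      ∑ j : ZMod n, (∑ x : ZMod n, h x * co (j * x)) ^ 2 := by
    refine Finset.sum_congr rfl fun x _ => ?_
    congr 1
    exact Finset.sum_congr rfl fun j _ => by rw [mul_comm j x]
  rw [h2]; exact h1

theorem parseval (h h' : ZMod n → ℝ) (he : ∀ j, h (-j) = h j) :
    ∑ x : ZMod n, (∑ j : ZMod n, h j * co (j * x)) * (∑ j : ZMod n, h' j * co (j * x))
      = n * ∑ j : ZMod n, h j * h' j := by
  have h1 := bilin h h'
  have h2 : ∑ x : ZMod n, (∑ j : ZMod n, h j * co (j * x)) * (∑ j : ZMod n, h' j * co (j * x)) =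
      ∑ j : ZMod n, (∑ x : ZMod n, h x * co (j * x)) * (∑ x : ZMod n, h' x * co (j * x)) := by
    refine Finset.sum_congr rfl fun x _ => ?_
    congr 1
    · exact Finset.sum_congr rfl fun j _ => by rw [mul_comm j x]
    · exact Finset.sum_congr rfl fun j _ => by rw [mul_comm j x]
  rw [h2, h1]
  have h3 : ∑ x : ZMod n, h x * (h' (-x) + h' x) =
      ∑ x : ZMod n, h x * h' (-x) + ∑ x : ZMod n, h x * h' x := by
    rw [← Finset.sum_add_distrib]
    exact Finset.sum_congr rfl fun x _ => by ring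
  have h4 : ∑ x : ZMod n, h x * h' (-x) = ∑ x : ZMod n, h x * h' x := by
    have := Equiv.sum_comp (Equiv.neg (ZMod n)) (fun x => h x * h' x)
    rw [← this]
    exact Finset.sum_congr rfl fun x _ => by simp [he]
  rw [h3, h4]; ring

theorem inversion (a : ZMod n → ℝ) (ha : ∀ x, a (-x) = a x) (y : ZMod n) :
    ∑ j : ZMod n, (∑ x : ZMod n, a x * co (j * x)) * co (j * y) = n * a y := by
  have h1 : ∀ j : ZMod n, (∑ x : ZMod n, a x * co (j * x)) * co (j * y) =
      (∑ x : ZMod n, a x * co (j * x)) *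
        (∑ x : ZMod n, (if x = y then (1 : ℝ) else 0) * co (j * x)) := by
    intro j
    congr 1
    simp [ite_mul]
  simp_rw [h1]
  rw [bilin]
  have h2 : ∀ x : ZMod n, a x * ((if -x = y then (1 : ℝ) else 0) + (if x = y then 1 else 0)) =
      (if -y = x then a x else 0) + (if y = x then a x else 0) := by
    intro x
    have e1 : (-x = y) ↔ (-y = x) := by
      constructor
      · intro h; rw [← h, neg_neg]
      · intro h; rw [← h, neg_neg]
    have e2 : (x = y) ↔ (y = x) := eq_comm
    simp only [e1, e2]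
    split_ifs <;> ring
  simp_rw [h2]
  rw [Finset.sum_add_distrib, Finset.sum_ite_eq, Finset.sum_ite_eq, if_pos (Finset.mem_univ _),
    if_pos (Finset.mem_univ _), ha]
  ring

/-! ### doubling -/

/-- the kernel of doubling has at most two elements -/
theorem two_mul_ker {z z' : ZMod n} (h : 2 * z = 0) (h' : 2 * z' = 0) (hz : z ≠ 0)
    (hz' : z' ≠ 0) : z = z' := by
  have key : ∀ w : ZMod n, 2 * w = 0 → w ≠ 0 → 2 * w.val = n := by
    intro w hw hw0
    have h1 : ((2 * w.val : ℕ) : ZMod n) = 0 := by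
      push_cast
      rw [ZMod.natCast_val, ZMod.cast_id', id]
      exact hw
    rw [ZMod.natCast_eq_zero_iff] at h1
    obtain ⟨k, hk⟩ := h1
    have h2 : w.val < n := ZMod.val_lt w
    have h3 : 0 < w.val := by
      rcases Nat.eq_zero_or_pos w.val with h | h
      · exact absurd ((ZMod.val_eq_zero w).mp h) hw0
      · exact h
    have hk1 : k < 2 := by
      by_contra hcon
      push Not at hcon
      have : n * 2 ≤ n * k := Nat.mul_le_mul_left n hcon
      omega
    interval_cases k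
    · omega
    · omega
  have e1 := key z h hz
  have e2 := key z' h' hz'
  apply ZMod.val_injective n
  omega

theorem card_two_mul_le (y : ZMod n) : (univ.filter fun x : ZMod n => 2 * x = y).card ≤ 2 := by
  rcases (univ.filter fun x : ZMod n => 2 * x = y).eq_empty_or_nonempty with h | ⟨x0, hx0⟩
  · rw [h]; simp
  · have hx0' : 2 * x0 = y := (Finset.mem_filter.mp hx0).2
    by_cases hall : ∀ x : ZMod n, 2 * x = y → x = x0
    · have hsub : (univ.filter fun x : ZMod n => 2 * x = y) ⊆ {x0} := by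
        intro x hx
        rw [Finset.mem_singleton]
        exact hall x (Finset.mem_filter.mp hx).2
      exact (Finset.card_le_card hsub).trans (by simp)
    · push Not at hall
      obtain ⟨x1, hx1, hne⟩ := hall
      have hsub : (univ.filter fun x : ZMod n => 2 * x = y) ⊆ {x0, x1} := by
        intro x hx
        have hx' := (Finset.mem_filter.mp hx).2
        rw [Finset.mem_insert, Finset.mem_singleton]
        by_cases hx2 : x = x0
        · exact Or.inl hx2
        · right
          have e1 : 2 * (x - x0) = 0 := by rw [mul_sub, hx', hx0', sub_self]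
          have e2 : 2 * (x1 - x0) = 0 := by rw [mul_sub, hx1, hx0', sub_self]
          have := two_mul_ker e1 e2 (sub_ne_zero.mpr hx2) (sub_ne_zero.mpr hne)
          exact sub_left_injective this
      exact (Finset.card_le_card hsub).trans Finset.card_le_two

theorem sum_two_mul_le (f : ZMod n → ℝ) (hf : ∀ x, 0 ≤ f x) (w : ZMod n) :
    ∑ x : ZMod n, f (w + 2 * x) ≤ 2 * ∑ x : ZMod n, f x := by
  have h1 : ∑ x : ZMod n, f (w + 2 * x) =
      ∑ y : ZMod n, ∑ x ∈ univ.filter (fun x : ZMod n => w + 2 * x = y), f (w + 2 * x) :=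
    (Finset.sum_fiberwise _ _ _).symm
  rw [h1, Finset.mul_sum]
  refine Finset.sum_le_sum fun y _ => ?_
  have h2 : ∑ x ∈ univ.filter (fun x : ZMod n => w + 2 * x = y), f (w + 2 * x) =
      ((univ.filter (fun x : ZMod n => w + 2 * x = y)).card : ℝ) * f y := by
    rw [Finset.sum_congr rfl (fun x hx => by rw [(Finset.mem_filter.mp hx).2]),
      Finset.sum_const, nsmul_eq_mul]
  rw [h2]
  apply mul_le_mul_of_nonneg_right _ (hf y)
  have h3 : (univ.filter (fun x : ZMod n => w + 2 * x = y)) =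
      univ.filter (fun x : ZMod n => 2 * x = y - w) := by
    apply Finset.filter_congr
    intro x _
    constructor
    · intro h; rw [← h]; ring
    · intro h; rw [h]; ring
  rw [h3]
  exact_mod_cast card_two_mul_le (y - w)

theorem bessel_two (a : ZMod n → ℝ) :
    ∑ j : ZMod n, (∑ x : ZMod n, a x * co (j * (2 * x))) ^ 2 ≤ 2 * n * ∑ x : ZMod n, a x ^ 2 := by
  set b : ZMod n → ℝ := fun y => ∑ x ∈ univ.filter (fun x : ZMod n => 2 * x = y), a x with hb
  have h1 : ∀ j : ZMod n, ∑ x : ZMod n, a x * co (j * (2 * x)) =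
      ∑ y : ZMod n, b y * co (j * y) := by
    intro j
    have e1 : ∑ x : ZMod n, a x * co (j * (2 * x)) =
        ∑ y : ZMod n, ∑ x ∈ univ.filter (fun x : ZMod n => 2 * x = y), a x * co (j * (2 * x)) :=
      (Finset.sum_fiberwise _ _ _).symm
    rw [e1]
    refine Finset.sum_congr rfl fun y _ => ?_
    rw [hb]
    simp only
    rw [Finset.sum_mul]
    exact Finset.sum_congr rfl fun x hx => by rw [(Finset.mem_filter.mp hx).2]
  simp_rw [h1]
  refine (bessel b).trans ?_
  have h2 : ∀ y : ZMod n, b y ^ 2 ≤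
      2 * ∑ x ∈ univ.filter (fun x : ZMod n => 2 * x = y), a x ^ 2 := by
    intro y
    have e1 := sq_sum_le_card_mul_sum_sq (s := univ.filter (fun x : ZMod n => 2 * x = y)) (f := a)
    refine e1.trans ?_
    apply mul_le_mul_of_nonneg_right _ (Finset.sum_nonneg fun x _ => sq_nonneg _)
    exact_mod_cast card_two_mul_le y
  have h3 : ∑ y : ZMod n, b y ^ 2 ≤ 2 * ∑ x : ZMod n, a x ^ 2 := by
    calc ∑ y : ZMod n, b y ^ 2 ≤
        ∑ y : ZMod n, 2 * ∑ x ∈ univ.filter (fun x : ZMod n => 2 * x = y), a x ^ 2 :=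
          Finset.sum_le_sum fun y _ => h2 y
      _ = 2 * ∑ x : ZMod n, a x ^ 2 := by
          rw [← Finset.mul_sum, Finset.sum_fiberwise]
  have h5 : (0 : ℝ) ≤ n := Nat.cast_nonneg n
  calc (n : ℝ) * ∑ y : ZMod n, b y ^ 2 ≤ n * (2 * ∑ x : ZMod n, a x ^ 2) :=
        mul_le_mul_of_nonneg_left h3 h5
    _ = 2 * n * ∑ x : ZMod n, a x ^ 2 := by ring

/-! ### classes -/

theorem cl_val (x : ZMod n) : (cl x : Fin (n / 2 + 1)).val = min x.val (-x).val := rfl

theorem cl_neg (x : ZMod n) : cl (-x) = cl x := by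
  apply Fin.ext
  rw [cl_val, cl_val, neg_neg, min_comm]

theorem cl_eq_iff (x y : ZMod n) : cl x = cl y ↔ x = y ∨ x = -y := by
  constructor
  · intro h
    have h1 : min x.val (-x).val = min y.val (-y).val := by
      rw [← cl_val, ← cl_val, h]
    rcases min_choice x.val (-x).val with hx | hx <;>
    rcases min_choice y.val (-y).val with hy | hy <;> rw [hx, hy] at h1
    · exact Or.inl (ZMod.val_injective n h1)
    · exact Or.inr (ZMod.val_injective n h1)
    · right
      have := ZMod.val_injective n h1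
      rw [← this, neg_neg]
    · left
      exact neg_injective (ZMod.val_injective n h1)
  · rintro (h | h)
    · rw [h]
    · rw [h, cl_neg]

theorem cl_eq_zero_iff (x : ZMod n) : cl x = 0 ↔ x = 0 := by
  have h0 : cl (0 : ZMod n) = 0 := by
    apply Fin.ext
    rw [cl_val]
    simp
  constructor
  · intro h
    rw [← h0, cl_eq_iff] at h
    rcases h with h | h
    · exact h
    · rw [h, neg_zero]
  · intro h; rw [h, h0]

theorem card_fiber_le (e : Fin (n / 2 + 1)) :
    (univ.filter fun x : ZMod n => cl x = e).card ≤ 2 := by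
  rcases (univ.filter fun x : ZMod n => cl x = e).eq_empty_or_nonempty with h | ⟨x0, hx0⟩
  · rw [h]; simp
  · have hx0' : cl x0 = e := (Finset.mem_filter.mp hx0).2
    have hsub : (univ.filter fun x : ZMod n => cl x = e) ⊆ {x0, -x0} := by
      intro x hx
      have hx' := (Finset.mem_filter.mp hx).2
      rw [← hx0', cl_eq_iff] at hx'
      rw [Finset.mem_insert, Finset.mem_singleton]
      exact hx'
    exact (Finset.card_le_card hsub).trans Finset.card_le_two

theorem sum_cl_le (f : Fin (n / 2 + 1) → ℝ) (hf : ∀ e, 0 ≤ f e) :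
    ∑ x ∈ univ.erase (0 : ZMod n), f (cl x) ≤ 2 * ∑ e, f e := by
  have h0 : ∑ x ∈ univ.erase (0 : ZMod n), f (cl x) ≤ ∑ x : ZMod n, f (cl x) :=
    Finset.sum_le_sum_of_subset_of_nonneg (Finset.erase_subset _ _) fun x _ _ => hf _
  refine h0.trans ?_
  have h1 : ∑ x : ZMod n, f (cl x) =
      ∑ e : Fin (n / 2 + 1), ∑ x ∈ univ.filter (fun x : ZMod n => cl x = e), f (cl x) :=
    (Finset.sum_fiberwise _ _ _).symm
  rw [h1, Finset.mul_sum]
  refine Finset.sum_le_sum fun e _ => ?_
  have h2 : ∑ x ∈ univ.filter (fun x : ZMod n => cl x = e), f (cl x) =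
      ((univ.filter (fun x : ZMod n => cl x = e)).card : ℝ) * f e := by
    rw [Finset.sum_congr rfl (fun x hx => by rw [(Finset.mem_filter.mp hx).2]),
      Finset.sum_const, nsmul_eq_mul]
  rw [h2]
  apply mul_le_mul_of_nonneg_right _ (hf e)
  exact_mod_cast card_fiber_le e

end FourFile

end Pool.Agent.CTheta
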