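import Pool.Agent.Work.MP_2c2d16_pr.SE.Cube2
import Pool.Agent.Work.MP_2c2d16_pr.SE.Four

set_option autoImplicit false

/-! Lemma A on `ZMod n`, the back transform, the derivative of the field. -/

namespace Pool.Agent.CTheta

open Finset

section Four2File

variable {n : ℕ} [NeZero n]

/-- Lemma A, indexed by nonzero elements of `ZMod n` -/
theorem lemmaA' {d : ℕ} {T : ZMod n → Om n → ℝ} (h : ∀ x, Deg d (T x)) :
    nrm (fun ω => ∑ x ∈ univ.erase (0 : ZMod n), sx x ω * T x ω) ^ 2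
      ≤ 4 * (d + 1) * ∑ x ∈ univ.erase (0 : ZMod n), nrm (T x) ^ 2
        + 2 * nrm (fun ω => ∑ x ∈ univ.erase (0 : ZMod n), De (cl x) (T x) ω) ^ 2 := by
  set S : Fin (n / 2 + 1) → Finset (ZMod n) :=
    fun e => (univ.erase (0 : ZMod n)).filter (fun x => cl x = e) with hS
  have hmem : ∀ e x, x ∈ S e → cl x = e := fun e x hx => (Finset.mem_filter.mp hx).2
  have hcard : ∀ e, ((S e).card : ℝ) ≤ 2 := by
    intro e
    have h1 : S e ⊆ univ.filter (fun x : ZMod n => cl x = e) :=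
      Finset.filter_subset_filter _ (Finset.erase_subset _ _)
    exact_mod_cast (Finset.card_le_card h1).trans (card_fiber_le e)
  set T' : Fin (n / 2 + 1) → Om n → ℝ := fun e ω => ∑ x ∈ S e, T x ω with hT'
  have hdeg : ∀ e, Deg d (T' e) := fun e => Deg.sum (S e) fun x _ => h x
  have h1 := lemmaA hdeg
  have e1 : (fun ω : Om n => ∑ e, sg (ω e) * T' e ω) =
      fun ω => ∑ x ∈ univ.erase (0 : ZMod n), sx x ω * T x ω := by
    funext ω
    rw [← Finset.sum_fiberwise (univ.erase (0 : ZMod n)) (fun x => cl x)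
      (fun x => sx x ω * T x ω)]
    refine Finset.sum_congr rfl fun e _ => ?_
    rw [hT']
    simp only
    rw [Finset.mul_sum]
    refine Finset.sum_congr rfl fun x hx => ?_
    rw [sx, hmem e x hx]
  have e2 : (fun ω : Om n => ∑ e, De e (T' e) ω) =
      fun ω => ∑ x ∈ univ.erase (0 : ZMod n), De (cl x) (T x) ω := by
    funext ω
    rw [← Finset.sum_fiberwise (univ.erase (0 : ZMod n)) (fun x => cl x)
      (fun x => De (cl x) (T x) ω)]
    refine Finset.sum_congr rfl fun e _ => ?_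
    rw [hT']
    simp only
    rw [De_sum]
    refine Finset.sum_congr rfl fun x hx => ?_
    rw [hmem e x hx]
  have e3 : ∑ e, nrm (T' e) ^ 2 ≤ 2 * ∑ x ∈ univ.erase (0 : ZMod n), nrm (T x) ^ 2 := by
    rw [← Finset.sum_fiberwise (univ.erase (0 : ZMod n)) (fun x => cl x)
      (fun x => nrm (T x) ^ 2), Finset.mul_sum]
    refine Finset.sum_le_sum fun e _ => ?_
    refine (nrm_sum_sq_le (S e) T).trans ?_
    exact mul_le_mul_of_nonneg_right (hcard e) (Finset.sum_nonneg fun x _ => sq_nonneg _)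
  rw [e1, e2] at h1
  refine h1.trans ?_
  have h2 : (0 : ℝ) ≤ 2 * (d + 1) := by positivity
  have h3 := mul_le_mul_of_nonneg_left e3 h2
  linarith

theorem nrm_bt_le (H : ZMod n → Om n → ℝ) (x : ZMod n) :
    nrm (bt H x) ≤ (∑ j : ZMod n, nrm (H j)) / n := by
  have h1 : bt H x = fun ω => (n : ℝ)⁻¹ * ∑ j : ZMod n, H j ω * co (j * x) := by
    funext ω
    rw [bt, div_eq_inv_mul]
  rw [h1, nrm_const_mul, div_eq_inv_mul, abs_of_nonneg (by positivity)]
  apply mul_le_mul_of_nonneg_left _ (by positivity)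
  refine (nrm_sum_le univ (fun j ω => H j ω * co (j * x))).trans ?_
  refine Finset.sum_le_sum fun j _ => ?_
  rw [nrm_mul_const]
  calc |co (j * x)| * nrm (H j) ≤ 1 * nrm (H j) :=
        mul_le_mul_of_nonneg_right (abs_co_le _) (nrm_nonneg _)
    _ = nrm (H j) := one_mul _

theorem sum_nrm_bt_sq_le (H : ZMod n → Om n → ℝ) :
    ∑ x : ZMod n, nrm (bt H x) ^ 2 ≤ (∑ j : ZMod n, nrm (H j) ^ 2) / n := by
  have hn : (0 : ℝ) < n := by exact_mod_cast Nat.pos_of_ne_zero (NeZero.ne n)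
  simp_rw [nrm_sq]
  rw [← Ex_sum univ (fun x ω => bt H x ω ^ 2), ← Ex_sum univ (fun j ω => H j ω ^ 2),
    div_eq_inv_mul, ← Ex_const_mul]
  apply Ex_mono
  intro ω
  have h1 := bessel' (fun j => H j ω)
  have h2 : ∑ x : ZMod n, bt H x ω ^ 2 =
      (n : ℝ)⁻¹ ^ 2 * ∑ x : ZMod n, (∑ j : ZMod n, H j ω * co (j * x)) ^ 2 := by
    rw [Finset.mul_sum]
    refine Finset.sum_congr rfl fun x _ => ?_
    rw [bt, div_eq_inv_mul, mul_pow]
  rw [h2]
  calc (n : ℝ)⁻¹ ^ 2 * ∑ x : ZMod n, (∑ j : ZMod n, H j ω * co (j * x)) ^ 2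
      ≤ (n : ℝ)⁻¹ ^ 2 * (n * ∑ j : ZMod n, H j ω ^ 2) :=
        mul_le_mul_of_nonneg_left h1 (by positivity)
    _ = (n : ℝ)⁻¹ * ∑ j : ZMod n, H j ω ^ 2 := by field_simp

theorem De_bt (e : Fin (n / 2 + 1)) (H : ZMod n → Om n → ℝ) (x : ZMod n) :
    De e (bt H x) = bt (fun j => De e (H j)) x := by
  have h1 : bt H x = fun ω => (n : ℝ)⁻¹ * ∑ j : ZMod n, H j ω * co (j * x) := by
    funext ω
    rw [bt, div_eq_inv_mul]
  rw [h1, De_const_mul, De_sum e univ (fun j ω => H j ω * co (j * x))]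
  funext ω
  rw [bt, div_eq_inv_mul]
  congr 1
  refine Finset.sum_congr rfl fun j _ => ?_
  rw [De_mul_const]

theorem bt_neg (H : ZMod n → Om n → ℝ) (x : ZMod n) : bt H (-x) = bt H x := by
  funext ω
  rw [bt, bt]
  congr 1
  refine Finset.sum_congr rfl fun j _ => ?_
  rw [mul_neg, co_neg]

theorem Yv_neg (B : ZMod n → Om n → ℝ) (j : ZMod n) : Yv B (-j) = Yv B j := by
  funext ω
  rw [Yv, Yv]
  refine Finset.sum_congr rfl fun x _ => ?_
  rw [neg_mul, co_neg]

theorem pY_neg (Q : Polynomial ℝ) (B : ZMod n → Om n → ℝ) (j : ZMod n) :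
    pY Q B (-j) = pY Q B j := by
  funext ω
  rw [pY, pY, Yv_neg]

/-- (D1) -/
theorem De_Yv (B : ZMod n → Om n → ℝ) (e : Fin (n / 2 + 1)) (j : ZMod n) :
    De e (Yv B j) = fun ω =>
      (∑ x ∈ (univ.erase (0 : ZMod n)).filter (fun x => cl x = e),
        (B x ω - 2 * sg (ω e) * De e (B x) ω) * co (j * x))
      + ∑ x ∈ univ.erase (0 : ZMod n), sx x ω * De e (B x) ω * co (j * x) := by
  have h1 : Yv B j = fun ω => ∑ x ∈ univ.erase (0 : ZMod n), sx x ω * B x ω * co (j * x) := rfl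
  rw [h1, De_sum e (univ.erase (0 : ZMod n)) (fun x ω => sx x ω * B x ω * co (j * x))]
  funext ω
  rw [Finset.sum_filter, ← Finset.sum_add_distrib]
  refine Finset.sum_congr rfl fun x _ => ?_
  have h2 : De e (fun ω => sx x ω * B x ω * co (j * x)) =
      fun ω => De e (fun ω => sx x ω * B x ω) ω * co (j * x) :=
    De_mul_const e (co (j * x)) (fun ω => sx x ω * B x ω)
  rw [h2]
  by_cases hx : cl x = e
  · rw [if_pos hx]
    have h3 : De e (fun ω => sx x ω * B x ω) = Ae e (B x) := by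
      have h4 : (fun ω => sx x ω * B x ω) = fun ω => sg (ω e) * B x ω := by
        funext ω'
        rw [sx, hx]
      rw [h4, De_sg_mul_self]
    have h5 := decomp e (B x) ω
    have h6 : sx x ω = sg (ω e) := by rw [sx, hx]
    rw [h3, h6]
    have h7 : Ae e (B x) ω = B x ω - sg (ω e) * De e (B x) ω := by linarith
    beta_reduce
    rw [h7]; ring
  · rw [if_neg hx, zero_add]
    have h3 : De e (fun ω => sx x ω * B x ω) = fun ω => sg (ω (cl x)) * De e (B x) ω :=
      De_sg_mul_of_ne (Ne.symm hx) (B x)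
    rw [h3]
    rfl

end Four2File

end Pool.Agent.CTheta
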