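import Pool.Agent.Work.MP_2c2d16_pr.SE.Defs

set_option autoImplicit false

/-!
# Gaussian expectation of polynomials
-/

namespace Pool.Agent.CTheta

open MeasureTheory ProbabilityTheory Filter Topology

theorem gpdf_eq (x : ℝ) : gaussianPDFReal 0 1 x
    = (Real.sqrt (2 * Real.pi))⁻¹ * Real.exp (-(1 / 2) * x ^ 2) := by
  simp only [gaussianPDFReal, NNReal.coe_one, mul_one, sub_zero]
  congr 2
  ring

theorem gE_eq (Q : Polynomial ℝ) : gE Q = ∫ x, gaussianPDFReal 0 1 x * Q.eval x := by
  rw [gE, integral_gaussianReal_eq_integral_smul one_ne_zero]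
  rfl

theorem integrable_pow_mul_exp (k : ℕ) :
    Integrable (fun x : ℝ => x ^ k * Real.exp (-(1 / 2) * x ^ 2)) := by
  have h := integrable_rpow_mul_exp_neg_mul_sq (b := 1 / 2) (by norm_num) (s := (k : ℝ))
    (by have : (0 : ℝ) ≤ k := Nat.cast_nonneg k
        linarith)
  simpa only [Real.rpow_natCast] using h

theorem integrable_poly (Q : Polynomial ℝ) :
    Integrable (fun x => gaussianPDFReal 0 1 x * Q.eval x) := by
  have : (fun x => gaussianPDFReal 0 1 x * Q.eval x) = fun x => ∑ i ∈ Finset.range (Q.natDegree + 1),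
      ((Real.sqrt (2 * Real.pi))⁻¹ * Q.coeff i) * (x ^ i * Real.exp (-(1 / 2) * x ^ 2)) := by
    funext x
    rw [gpdf_eq, Polynomial.eval_eq_sum_range, Finset.mul_sum]
    exact Finset.sum_congr rfl fun i _ => by ring
  rw [this]
  exact integrable_finsetSum _ fun i _ => (integrable_pow_mul_exp i).const_mul _

theorem tendsto_poly (Q : Polynomial ℝ) :
    Tendsto (fun x => gaussianPDFReal 0 1 x * Q.eval x) (cocompact ℝ) (𝓝 0) := by
  have : (fun x => gaussianPDFReal 0 1 x * Q.eval x) = fun x => ∑ i ∈ Finset.range (Q.natDegree + 1),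
      ((Real.sqrt (2 * Real.pi))⁻¹ * Q.coeff i) * (x ^ i * Real.exp (-(1 / 2) * x ^ 2)) := by
    funext x
    rw [gpdf_eq, Polynomial.eval_eq_sum_range, Finset.mul_sum]
    exact Finset.sum_congr rfl fun i _ => by ring
  rw [this]
  have h0 : (0 : ℝ) = ∑ i ∈ Finset.range (Q.natDegree + 1),
      ((Real.sqrt (2 * Real.pi))⁻¹ * Q.coeff i) * 0 := by simp
  rw [h0]
  refine tendsto_finsetSum _ fun i _ => Tendsto.const_mul _ ?_
  have h := tendsto_rpow_abs_mul_exp_neg_mul_sq_cocompact (a := 1 / 2) (by norm_num) (i : ℝ)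
  refine squeeze_zero_norm (fun x => le_of_eq ?_) h
  rw [norm_mul, Real.norm_eq_abs, Real.norm_eq_abs, abs_pow, Real.rpow_natCast, Real.abs_exp]

theorem gE_one : gE 1 = 1 := by
  rw [gE]
  simp

theorem gE_add (P Q : Polynomial ℝ) : gE (P + Q) = gE P + gE Q := by
  rw [gE_eq, gE_eq, gE_eq, ← integral_add (integrable_poly P) (integrable_poly Q)]
  congr 1; funext x
  rw [Polynomial.eval_add]; ring

theorem gE_smul (c : ℝ) (P : Polynomial ℝ) : gE (Polynomial.C c * P) = c * gE P := by
  rw [gE_eq, gE_eq, ← integral_const_mul]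
  congr 1; funext x
  rw [Polynomial.eval_mul, Polynomial.eval_C]; ring

theorem gE_X_mul (Q : Polynomial ℝ) : gE (Polynomial.X * Q) = gE (Polynomial.derivative Q) := by
  have hd : ∀ x : ℝ, HasDerivAt (fun x => -(gaussianPDFReal 0 1 x * Q.eval x))
      (gaussianPDFReal 0 1 x * (Polynomial.X * Q).eval x
        - gaussianPDFReal 0 1 x * (Polynomial.derivative Q).eval x) x := by
    intro x
    have h1 : HasDerivAt (fun x : ℝ => gaussianPDFReal 0 1 x)
        (-x * gaussianPDFReal 0 1 x) x := by
      have : (fun x : ℝ => gaussianPDFReal 0 1 x)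
          = fun x => (Real.sqrt (2 * Real.pi))⁻¹ * Real.exp (-(1 / 2) * x ^ 2) := by
        funext x; exact gpdf_eq x
      rw [this, gpdf_eq]
      have h2 : HasDerivAt (fun x : ℝ => -(1 / 2) * x ^ 2) (-x) x := by
        have := (hasDerivAt_pow 2 x).const_mul (-(1 / 2) : ℝ)
        refine this.congr_deriv ?_
        norm_num
        ring
      have := (h2.exp).const_mul ((Real.sqrt (2 * Real.pi))⁻¹)
      refine this.congr_deriv ?_
      ring
    have h3 := (h1.mul (Q.hasDerivAt x)).neg
    refine h3.congr_deriv ?_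
    rw [Polynomial.eval_mul, Polynomial.eval_X]; ring
  have hint : Integrable (fun x => gaussianPDFReal 0 1 x * (Polynomial.X * Q).eval x
        - gaussianPDFReal 0 1 x * (Polynomial.derivative Q).eval x) :=
    (integrable_poly _).sub (integrable_poly _)
  have ht : Tendsto (fun x => -(gaussianPDFReal 0 1 x * Q.eval x)) (cocompact ℝ) (𝓝 0) := by
    simpa using (tendsto_poly Q).neg
  have hbot := ht.mono_left atBot_le_cocompact
  have htop := ht.mono_left atTop_le_cocompact
  have h := integral_of_hasDerivAt_of_tendsto hd hint hbot htop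
  rw [integral_sub (integrable_poly _) (integrable_poly _), ← gE_eq, ← gE_eq] at h
  linarith

end Pool.Agent.CTheta
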