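import Pool.Agent.Work.MP_2c2d16_pr.SE.Four2

set_option autoImplicit false
set_option linter.unusedSectionVars false

namespace Pool.Agent.CTheta

open Finset

section Tools

variable {E : Type} [Fintype E] [DecidableEq E]

theorem nrm_mul_bdd_le (s F : (E → Bool) → ℝ) (c : ℝ) (h : ∀ ω, |s ω| ≤ c) :
    nrm (fun ω => s ω * F ω) ≤ c * nrm F := by
  have hc : 0 ≤ c := (abs_nonneg _).trans (h fun _ => true)
  have : nrm (fun ω => s ω * F ω) ≤ nrm (fun ω => c * F ω) := by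
    apply nrm_mono
    intro ω
    rw [abs_mul, abs_mul, abs_of_nonneg hc]
    exact mul_le_mul_of_nonneg_right (h ω) (abs_nonneg _)
  rw [nrm_const_mul, abs_of_nonneg hc] at this
  exact this

/-- Cauchy-Schwarz over an index set, with bounded weights -/
theorem nrm_sum_wmul_sq_le {ι : Type*} (t : Finset ι) (s F G : ι → (E → Bool) → ℝ) (c : ℝ)
    (hc : 0 ≤ c) (hs : ∀ i ∈ t, ∀ ω, |s i ω| ≤ c) {d d' : ℕ} (hF : ∀ i ∈ t, Deg d (F i))
    (hG : ∀ i ∈ t, Deg d' (G i)) :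
    nrm (fun ω => ∑ i ∈ t, s i ω * (F i ω * G i ω)) ^ 2
      ≤ c ^ 2 * 9 ^ (d + d') * ((∑ i ∈ t, nrm (F i) ^ 2) * ∑ i ∈ t, nrm (G i) ^ 2) := by
  have h1 : nrm (fun ω => ∑ i ∈ t, s i ω * (F i ω * G i ω))
      ≤ c * 3 ^ (d + d') * ∑ i ∈ t, nrm (F i) * nrm (G i) := by
    refine (nrm_sum_le t _).trans ?_
    rw [Finset.mul_sum]
    refine Finset.sum_le_sum fun i hi => ?_
    refine (nrm_mul_bdd_le (s i) (fun ω => F i ω * G i ω) c (hs i hi)).trans ?_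
    rw [mul_assoc]
    exact mul_le_mul_of_nonneg_left (nrm_mul_le (hF i hi) (hG i hi)) hc
  have h2 : (∑ i ∈ t, nrm (F i) * nrm (G i)) ^ 2
      ≤ (∑ i ∈ t, nrm (F i) ^ 2) * ∑ i ∈ t, nrm (G i) ^ 2 := Finset.sum_mul_sq_le_sq_mul_sq _ _ _
  have h3 := nrm_nonneg (fun ω => ∑ i ∈ t, s i ω * (F i ω * G i ω))
  have h9 : (9 : ℝ) ^ (d + d') = (3 ^ (d + d')) ^ 2 := by
    rw [← pow_mul, mul_comm, pow_mul]; norm_num
  calc nrm (fun ω => ∑ i ∈ t, s i ω * (F i ω * G i ω)) ^ 2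
      ≤ (c * 3 ^ (d + d') * ∑ i ∈ t, nrm (F i) * nrm (G i)) ^ 2 := by gcongr
    _ = c ^ 2 * 9 ^ (d + d') * (∑ i ∈ t, nrm (F i) * nrm (G i)) ^ 2 := by rw [h9]; ring
    _ ≤ _ := by gcongr

theorem nrm_sum_mul_sq_le {ι : Type*} (t : Finset ι) (F G : ι → (E → Bool) → ℝ)
    {d d' : ℕ} (hF : ∀ i ∈ t, Deg d (F i)) (hG : ∀ i ∈ t, Deg d' (G i)) :
    nrm (fun ω => ∑ i ∈ t, F i ω * G i ω) ^ 2
      ≤ 9 ^ (d + d') * ((∑ i ∈ t, nrm (F i) ^ 2) * ∑ i ∈ t, nrm (G i) ^ 2) := by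
  have h := nrm_sum_wmul_sq_le t (fun _ _ => 1) F G 1 zero_le_one (fun i _ ω => by simp) hF hG
  simpa using h

theorem nrm_add3_sq_le (F G H : (E → Bool) → ℝ) :
    nrm (fun ω => F ω + G ω + H ω) ^ 2 ≤ 3 * (nrm F ^ 2 + nrm G ^ 2 + nrm H ^ 2) := by
  have h1 := nrm_add_le (fun ω => F ω + G ω) H
  have h2 := nrm_add_le F G
  have a := nrm_nonneg F
  have b := nrm_nonneg G
  have c := nrm_nonneg H
  have e := nrm_nonneg (fun ω => F ω + G ω + H ω)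
  have h3 : nrm (fun ω => F ω + G ω + H ω) ≤ nrm F + nrm G + nrm H := by linarith
  calc nrm (fun ω => F ω + G ω + H ω) ^ 2 ≤ (nrm F + nrm G + nrm H) ^ 2 := by gcongr
    _ ≤ _ := by nlinarith [sq_nonneg (nrm F - nrm G), sq_nonneg (nrm F - nrm H),
        sq_nonneg (nrm G - nrm H)]

theorem sum_nrm_De_le' {d : ℕ} {F : (E → Bool) → ℝ} (h : Deg d F) (s : Finset E) :
    ∑ e ∈ s, nrm (De e F) ^ 2 ≤ d * nrm F ^ 2 :=
  (Finset.sum_le_univ_sum_of_nonneg fun _ => sq_nonneg _).trans (sum_nrm_De_sq_le h)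

end Tools

section ToolsN

variable {n : ℕ} [NeZero n]

theorem Deg_bt {d : ℕ} (H : ZMod n → Om n → ℝ) (h : ∀ j, Deg d (H j))
    (x : ZMod n) : Deg d (bt H x) := by
  have h1 : Deg d (fun ω => (∑ j : ZMod n, H j ω * co (j * x)) * (1 / (n : ℝ))) := by
    apply Deg.mul_const
    apply Deg.sum
    intro j _
    exact (h j).mul_const _
  have h2 : bt H x = (fun ω => (∑ j : ZMod n, H j ω * co (j * x)) * (1 / (n : ℝ))) := by
    funext ω; simp only [bt]; ring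
  rw [h2]; exact h1

theorem abs_sx (x : ZMod n) (ω : Om n) : |sx x ω| = 1 := abs_sg _

theorem sum_nrm_De_cl_le {d : ℕ} {F : Om n → ℝ} (h : Deg d F) :
    ∑ u ∈ univ.erase (0 : ZMod n), nrm (De (cl u) F) ^ 2 ≤ 2 * (d * nrm F ^ 2) := by
  refine (sum_cl_le (fun e => nrm (De e F) ^ 2) fun e => sq_nonneg _).trans ?_
  have := sum_nrm_De_sq_le h
  linarith

theorem Inv.C_nonneg {B : ZMod n → Om n → ℝ} {d : ℕ} {C : ℝ} (h : Inv n B d C) : 0 ≤ C := by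
  have hn : (0 : ℝ) < n := by exact_mod_cast Nat.pos_of_ne_zero (NeZero.ne n)
  have h1 : 0 ≤ C / n := (Finset.sum_nonneg fun e _ => sq_nonneg _).trans h.b5
  have := mul_nonneg h1 hn.le
  rwa [div_mul_cancel₀ _ hn.ne'] at this

/-- reindexing: `∑_u ∑_v f(w+u+v) g(u,v) = ∑_z f(z) ∑_u g(u, z-w-u)` -/
theorem sum_shift (f : ZMod n → ℝ) (g : ZMod n → ZMod n → ℝ) (w : ZMod n) (s : Finset (ZMod n)) :
    ∑ u ∈ s, ∑ v : ZMod n, f (w + u + v) * g u v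
      = ∑ z : ZMod n, f z * ∑ u ∈ s, g u (z - w - u) := by
  have h1 : ∀ u ∈ s, ∑ v : ZMod n, f (w + u + v) * g u v
      = ∑ z : ZMod n, f z * g u (z - w - u) := by
    intro u _
    refine Fintype.sum_equiv (Equiv.addLeft (w + u)) _ _ ?_
    intro v
    simp only [Equiv.coe_addLeft]
    congr 2
    ring
  rw [Finset.sum_congr rfl h1, Finset.sum_comm]
  refine Finset.sum_congr rfl fun z _ => ?_
  rw [Finset.mul_sum]

theorem sum_erase_neg (f : ZMod n → ℝ) :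
    ∑ u ∈ univ.erase (0 : ZMod n), f (-u) = ∑ u ∈ univ.erase (0 : ZMod n), f u := by
  refine Finset.sum_bij' (fun u _ => -u) (fun u _ => -u) ?_ ?_ ?_ ?_ ?_
  · intro u hu; simpa using hu
  · intro u hu; simpa using hu
  · intro u _; simp
  · intro u _; simp
  · intro u _; rfl

theorem sum_erase_le (f : ZMod n → ℝ) (hf : ∀ x, 0 ≤ f x) (s : Finset (ZMod n)) :
    ∑ u ∈ s, f u ≤ ∑ u : ZMod n, f u :=
  Finset.sum_le_univ_sum_of_nonneg hf

theorem sum_add_left (f : ZMod n → ℝ) (w : ZMod n) : ∑ v : ZMod n, f (w + v) = ∑ v : ZMod n, f v :=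
  Fintype.sum_equiv (Equiv.addLeft w) _ _ fun v => rfl

/-- (B4) in the reflected form -/
theorem Inv.b4' {B : ZMod n → Om n → ℝ} {d : ℕ} {C : ℝ} (h : Inv n B d C) (w : ZMod n) :
    ∑ u ∈ univ.erase (0 : ZMod n), nrm (De (cl u) (B (w - u))) ^ 2 ≤ C / n := by
  have h1 := h.b4 w
  rw [← sum_erase_neg] at h1
  refine le_trans (le_of_eq ?_) h1
  refine Finset.sum_congr rfl fun u _ => ?_
  rw [cl_neg, sub_eq_add_neg]

end ToolsN

end Pool.Agent.CTheta
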