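import Pool.Agent.Work.MP_2c2d16_pr.SE.Cube2
import Pool.Agent.Work.MP_2c2d16_pr.SE.Tools

set_option autoImplicit false

/-!
# The feedback term in Stein's identity (S10F) and the variance of the energy (S10V)
-/

namespace Pool.Agent.CTheta

open Finset

section

variable {n : ℕ} [NeZero n]

/-- reindexed form of `b4` : derivative in direction `w - v` of `B v` -/
theorem Inv.b4_sub {B : ZMod n → Om n → ℝ} {d : ℕ} {C : ℝ} (h : Inv n B d C) (w : ZMod n) :
    ∑ v ∈ univ.erase w, nrm (De (cl (w - v)) (B v)) ^ 2 ≤ C / (n : ℝ) := by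
  refine le_trans (le_of_eq ?_) (h.b4 w)
  refine Finset.sum_nbij' (fun v => v - w) (fun x => w + x) ?_ ?_ ?_ ?_ ?_
  · intro v hv
    rw [Finset.mem_erase] at hv ⊢
    exact ⟨sub_ne_zero.2 hv.1, Finset.mem_univ _⟩
  · intro x hx
    rw [Finset.mem_erase] at hx ⊢
    exact ⟨by simpa using hx.1, Finset.mem_univ _⟩
  · intro v _; ring
  · intro x _; ring
  · intro v _
    have e1 : w - v = -(v - w) := by ring
    have e2 : w + (v - w) = v := by ring
    rw [e2, e1, cl_neg]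

/-- reindexed form of `b4` : derivative in direction `v` of `B (w - v)` -/
theorem Inv.b4_neg {B : ZMod n → Om n → ℝ} {d : ℕ} {C : ℝ} (h : Inv n B d C) (w : ZMod n) :
    ∑ v ∈ univ.erase (0 : ZMod n), nrm (De (cl v) (B (w - v))) ^ 2 ≤ C / (n : ℝ) := by
  refine le_trans (le_of_eq ?_) (h.b4 w)
  refine Finset.sum_nbij' (fun v => -v) (fun x => -x) ?_ ?_ ?_ ?_ ?_
  · intro v hv
    rw [Finset.mem_erase] at hv ⊢
    exact ⟨neg_ne_zero.2 hv.1, Finset.mem_univ _⟩
  · intro v hv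
    rw [Finset.mem_erase] at hv ⊢
    exact ⟨neg_ne_zero.2 hv.1, Finset.mem_univ _⟩
  · intro v _; ring
  · intro v _; ring
  · intro v _
    rw [cl_neg, sub_eq_add_neg]

/-- sum over all `w` of the second derivatives -/
theorem Inv.sum_second {B : ZMod n → Om n → ℝ} {d : ℕ} {C : ℝ} (h : Inv n B d C) :
    ∑ w : ZMod n, ∑ v ∈ (univ.erase (0 : ZMod n)).filter (fun v => v ≠ w),
      nrm (De (cl (w - v)) (De (cl v) (B v))) ^ 2 ≤ 2 * d * (C / (n : ℝ)) := by
  have e1 : ∑ w : ZMod n, ∑ v ∈ (univ.erase (0 : ZMod n)).filter (fun v => v ≠ w),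
      nrm (De (cl (w - v)) (De (cl v) (B v))) ^ 2
      = ∑ v ∈ univ.erase (0 : ZMod n), ∑ w ∈ univ.erase v,
        nrm (De (cl (w - v)) (De (cl v) (B v))) ^ 2 := by
    simp_rw [Finset.sum_filter]
    rw [Finset.sum_comm]
    refine Finset.sum_congr rfl fun v _ => ?_
    rw [← Finset.sum_filter]
    refine Finset.sum_congr ?_ fun _ _ => rfl
    ext w
    simp [eq_comm]
  rw [e1]
  have e2 : ∀ v ∈ univ.erase (0 : ZMod n), ∑ w ∈ univ.erase v,
        nrm (De (cl (w - v)) (De (cl v) (B v))) ^ 2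
        ≤ 2 * d * nrm (De (cl v) (B v)) ^ 2 := by
    intro v _
    have e3 : ∑ w ∈ univ.erase v, nrm (De (cl (w - v)) (De (cl v) (B v))) ^ 2
        = ∑ x ∈ univ.erase (0 : ZMod n), nrm (De (cl x) (De (cl v) (B v))) ^ 2 := by
      refine Finset.sum_nbij' (fun w => w - v) (fun x => x + v) ?_ ?_ ?_ ?_ ?_
      · intro w hw
        rw [Finset.mem_erase] at hw ⊢
        exact ⟨sub_ne_zero.2 hw.1, Finset.mem_univ _⟩
      · intro x hx
        rw [Finset.mem_erase] at hx ⊢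
        exact ⟨by simpa using hx.1, Finset.mem_univ _⟩
      · intro w _; ring
      · intro x _; ring
      · intro w _; rfl
    rw [e3]
    refine (sum_cl_le (fun e => nrm (De e (De (cl v) (B v))) ^ 2) fun e => sq_nonneg _).trans ?_
    have := sum_nrm_De_sq_le ((h.deg v).De (cl v))
    nlinarith [this]
  refine (Finset.sum_le_sum e2).trans ?_
  rw [← Finset.mul_sum]
  have e4 := h.b4 0
  simp only [zero_add] at e4
  have : (0 : ℝ) ≤ 2 * d := by positivity
  exact mul_le_mul_of_nonneg_left e4 this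

end


section

variable {n : ℕ} [NeZero n]

/-- bound of the feedback term for one fixed `w` -/
theorem Inv.phi_le {B : ZMod n → Om n → ℝ} {d : ℕ} {C : ℝ} (h : Inv n B d C) (w : ZMod n) :
    nrm (fun ω => ∑ v ∈ (univ.erase (0 : ZMod n)).filter (fun v => v ≠ w),
        sx v ω * (B (w - v) ω * De (cl (w - v)) (B v) ω)) ^ 2
      ≤ 4 * (((d + d : ℕ) : ℝ) + 1) * (3 ^ (d + d) * ((C / n) * (C / n)))
        + 2 * (2 * (9 * (3 ^ (d + d)) ^ 2 * C *
          ∑ v ∈ (univ.erase (0 : ZMod n)).filter (fun v => v ≠ w),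
            nrm (De (cl (w - v)) (De (cl v) (B v))) ^ 2)
          + 2 * ((3 ^ (d + d)) ^ 2 * ((C / n) * (C / n)))) := by
  classical
  have hC := h.C_nonneg
  have hn : (0 : ℝ) < n := Nat.cast_pos.2 (Nat.pos_of_ne_zero (NeZero.ne n))
  have hCn : 0 ≤ C / n := div_nonneg hC hn.le
  have hK : (0 : ℝ) ≤ 3 ^ (d + d) := by positivity
  set K : ℝ := 3 ^ (d + d) with hKdef
  set s := (univ.erase (0 : ZMod n)).filter (fun v => v ≠ w) with hs
  let T : ZMod n → Om n → ℝ := fun v =>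
    if v = w then 0 else fun ω => B (w - v) ω * De (cl (w - v)) (B v) ω
  have hTw : T w = 0 := by simp [T]
  have hTv : ∀ v, v ≠ w → T v = fun ω => B (w - v) ω * De (cl (w - v)) (B v) ω := by
    intro v hv; simp [T, hv]
  have hdeg : ∀ v, Deg (d + d) (T v) := by
    intro v
    by_cases hv : v = w
    · rw [hv, hTw]; exact Deg_zero _
    · rw [hTv v hv]; exact (h.deg _).mul ((h.deg _).De _)
  have hsplit : ∀ (f : ZMod n → ℝ), f w = 0 →
      ∑ v ∈ univ.erase (0 : ZMod n), f v = ∑ v ∈ s, f v := by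
    intro f hf
    rw [hs, Finset.sum_filter]
    refine Finset.sum_congr rfl fun v _ => ?_
    by_cases hv : v = w
    · subst hv; simp [hf]
    · simp [hv]
  have hmem : ∀ v ∈ s, v ≠ w ∧ v ≠ 0 := by
    intro v hv
    rw [hs, Finset.mem_filter, Finset.mem_erase] at hv
    exact ⟨hv.2, hv.1.1⟩
  have hsw : s ⊆ univ.erase w := by
    intro v hv
    rw [Finset.mem_erase]
    exact ⟨(hmem v hv).1, Finset.mem_univ _⟩
  have hs0 : s ⊆ univ.erase 0 := by
    intro v hv
    rw [Finset.mem_erase]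
    exact ⟨(hmem v hv).2, Finset.mem_univ _⟩
  have hcard : (s.card : ℝ) ≤ n := by
    have := Finset.card_le_univ s
    rw [ZMod.card] at this
    exact_mod_cast this
  -- rewrite the left side
  have hL : (fun ω => ∑ v ∈ s, sx v ω * (B (w - v) ω * De (cl (w - v)) (B v) ω))
      = fun ω => ∑ v ∈ univ.erase (0 : ZMod n), sx v ω * T v ω := by
    funext ω
    rw [hsplit (fun v => sx v ω * T v ω) (by simp [hTw])]
    refine Finset.sum_congr rfl fun v hv => ?_
    rw [hTv v (hmem v hv).1]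
  rw [hL]
  refine (lemmaA' hdeg).trans ?_
  have hsumA : ∑ v ∈ s, nrm (De (cl (w - v)) (B v)) ^ 2 ≤ C / n :=
    (Finset.sum_le_sum_of_subset_of_nonneg hsw fun _ _ _ => sq_nonneg _).trans (h.b4_sub w)
  have hsumC : ∑ v ∈ s, nrm (De (cl v) (B (w - v))) ^ 2 ≤ C / n :=
    (Finset.sum_le_sum_of_subset_of_nonneg hs0 fun _ _ _ => sq_nonneg _).trans (h.b4_neg w)
  -- HS part
  have hHS : ∑ v ∈ univ.erase (0 : ZMod n), nrm (T v) ^ 2 ≤ K * ((C / n) * (C / n)) := by
    rw [hsplit (fun v => nrm (T v) ^ 2) (by simp [hTw, nrm_zero])]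
    have h1 : ∀ v ∈ s, nrm (T v) ^ 2 ≤ K * ((C / n) * nrm (De (cl (w - v)) (B v)) ^ 2) := by
      intro v hv
      rw [hTv v (hmem v hv).1]
      refine (nrm_mul_sq_le (h.deg _) ((h.deg _).De _)).trans ?_
      refine mul_le_mul_of_nonneg_left ?_ hK
      exact mul_le_mul_of_nonneg_right (h.b1 _ (sub_ne_zero.2 (hmem v hv).1.symm)) (sq_nonneg _)
    refine (Finset.sum_le_sum h1).trans ?_
    rw [← Finset.mul_sum, ← Finset.mul_sum]
    exact mul_le_mul_of_nonneg_left (mul_le_mul_of_nonneg_left hsumA hCn) hK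
  -- self part
  have hself : (fun ω => ∑ v ∈ univ.erase (0 : ZMod n), De (cl v) (T v) ω)
      = fun ω => (∑ v ∈ s, (B (w - v) ω * De (cl v) (De (cl (w - v)) (B v)) ω
          - 2 * sg (ω (cl v)) * (De (cl v) (B (w - v)) ω *
            De (cl v) (De (cl (w - v)) (B v)) ω)))
        + ∑ v ∈ s, De (cl (w - v)) (B v) ω * De (cl v) (B (w - v)) ω := by
    funext ω
    rw [hsplit (fun v => De (cl v) (T v) ω)
      (by simp only [hTw]; simp [De])]
    rw [← Finset.sum_add_distrib]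
    refine Finset.sum_congr rfl fun v hv => ?_
    rw [hTv v (hmem v hv).1, De_mul]
    ring
  have hP : nrm (fun ω => ∑ v ∈ s, (B (w - v) ω * De (cl v) (De (cl (w - v)) (B v)) ω
          - 2 * sg (ω (cl v)) * (De (cl v) (B (w - v)) ω *
            De (cl v) (De (cl (w - v)) (B v)) ω))) ^ 2
      ≤ 9 * K ^ 2 * C * ∑ v ∈ s, nrm (De (cl (w - v)) (De (cl v) (B v))) ^ 2 := by
    refine (nrm_sum_sq_le s _).trans ?_
    have h1 : ∀ v ∈ s, nrm (fun ω => B (w - v) ω * De (cl v) (De (cl (w - v)) (B v)) ω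
          - 2 * sg (ω (cl v)) * (De (cl v) (B (w - v)) ω *
            De (cl v) (De (cl (w - v)) (B v)) ω)) ^ 2
        ≤ 9 * K ^ 2 * (C / n) * nrm (De (cl (w - v)) (De (cl v) (B v))) ^ 2 := by
      intro v hv
      have hb := h.b1 (w - v) (sub_ne_zero.2 (hmem v hv).1.symm)
      rw [De_comm (cl v) (cl (w - v)) (B v)]
      set G := De (cl (w - v)) (De (cl v) (B v)) with hG
      have hGdeg : Deg d G := ((h.deg v).De _).De _
      have n1 : nrm (fun ω => B (w - v) ω * G ω) ≤ K * (nrm (B (w - v)) * nrm G) :=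
        nrm_mul_le (h.deg _) hGdeg
      have n2 : nrm (fun ω => 2 * sg (ω (cl v)) * (De (cl v) (B (w - v)) ω * G ω))
          ≤ 2 * (K * (nrm (B (w - v)) * nrm G)) := by
        have e1 : (fun ω : Om n => 2 * sg (ω (cl v)) * (De (cl v) (B (w - v)) ω * G ω))
            = fun ω => 2 * (sg (ω (cl v)) * (De (cl v) (B (w - v)) ω * G ω)) := by
          funext ω; ring
        rw [e1, nrm_const_mul, nrm_sg_mul]
        have : nrm (fun ω => De (cl v) (B (w - v)) ω * G ω)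
            ≤ K * (nrm (De (cl v) (B (w - v))) * nrm G) :=
          nrm_mul_le ((h.deg _).De _) hGdeg
        have h3 := nrm_De_le (cl v) (B (w - v))
        have h4 : nrm (De (cl v) (B (w - v))) * nrm G ≤ nrm (B (w - v)) * nrm G :=
          mul_le_mul_of_nonneg_right h3 (nrm_nonneg _)
        have h5 := mul_le_mul_of_nonneg_left h4 hK
        rw [abs_of_pos (by norm_num : (0 : ℝ) < 2)]
        linarith
      have n3 := (nrm_sub_le (fun ω => B (w - v) ω * G ω)
        (fun ω => 2 * sg (ω (cl v)) * (De (cl v) (B (w - v)) ω * G ω))).trans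
          (add_le_add n1 n2)
      have n4 : nrm (fun ω => B (w - v) ω * G ω -
          2 * sg (ω (cl v)) * (De (cl v) (B (w - v)) ω * G ω))
          ≤ 3 * K * (nrm (B (w - v)) * nrm G) := by linarith
      have n5 := pow_le_pow_left₀ (nrm_nonneg _) n4 2
      refine n5.trans ?_
      have n6 : (3 * K * (nrm (B (w - v)) * nrm G)) ^ 2
          = 9 * K ^ 2 * (nrm (B (w - v)) ^ 2 * nrm G ^ 2) := by ring
      rw [n6, mul_assoc (9 * K ^ 2)]
      exact mul_le_mul_of_nonneg_left (mul_le_mul_of_nonneg_right hb (sq_nonneg _))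
        (by positivity)
    refine (mul_le_mul_of_nonneg_left (Finset.sum_le_sum h1) (Nat.cast_nonneg _)).trans ?_
    rw [← Finset.mul_sum]
    have hX : (0 : ℝ) ≤ ∑ v ∈ s, nrm (De (cl (w - v)) (De (cl v) (B v))) ^ 2 :=
      Finset.sum_nonneg fun _ _ => sq_nonneg _
    set X := ∑ v ∈ s, nrm (De (cl (w - v)) (De (cl v) (B v))) ^ 2
    have h2 : (s.card : ℝ) * (9 * K ^ 2 * (C / n) * X) ≤ n * (9 * K ^ 2 * (C / n) * X) :=
      mul_le_mul_of_nonneg_right hcard (by positivity)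
    refine h2.trans (le_of_eq ?_)
    field_simp
  have hQ : nrm (fun ω => ∑ v ∈ s, De (cl (w - v)) (B v) ω * De (cl v) (B (w - v)) ω) ^ 2
      ≤ K ^ 2 * ((C / n) * (C / n)) := by
    have h1 : nrm (fun ω => ∑ v ∈ s, De (cl (w - v)) (B v) ω * De (cl v) (B (w - v)) ω)
        ≤ K * ∑ v ∈ s, nrm (De (cl (w - v)) (B v)) * nrm (De (cl v) (B (w - v))) := by
      refine (nrm_sum_le s _).trans ?_
      rw [Finset.mul_sum]
      refine Finset.sum_le_sum fun v _ => ?_
      exact nrm_mul_le ((h.deg _).De _) ((h.deg _).De _)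
    have h2 := pow_le_pow_left₀ (nrm_nonneg _) h1 2
    refine h2.trans ?_
    rw [mul_pow]
    refine mul_le_mul_of_nonneg_left ?_ (sq_nonneg _)
    refine (Finset.sum_mul_sq_le_sq_mul_sq s _ _).trans ?_
    exact mul_le_mul hsumA hsumC (Finset.sum_nonneg fun _ _ => sq_nonneg _) hCn
  have hS : nrm (fun ω => ∑ v ∈ univ.erase (0 : ZMod n), De (cl v) (T v) ω) ^ 2
      ≤ 2 * (9 * K ^ 2 * C * ∑ v ∈ s, nrm (De (cl (w - v)) (De (cl v) (B v))) ^ 2)
        + 2 * (K ^ 2 * ((C / n) * (C / n))) := by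
    rw [hself]
    refine (nrm_add_sq_le _ _).trans ?_
    linarith
  have hd : (0 : ℝ) ≤ 4 * (((d + d : ℕ) : ℝ) + 1) := by positivity
  have := mul_le_mul_of_nonneg_left hHS hd
  linarith

end

/-- (S10F) the feedback term in Stein -/
theorem S10F (d : ℕ) (C : ℝ) : ∃ C' : ℝ, ∀ (n : ℕ) [NeZero n]
    (B : ZMod n → Om n → ℝ), Inv n B d C →
      ∑ w : ZMod n, nrm (fun ω => ∑ v ∈ (univ.erase (0 : ZMod n)).filter (fun v => v ≠ w),
        sx v ω * (B (w - v) ω * De (cl (w - v)) (B v) ω)) ^ 2 ≤ C' / n := by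
  refine ⟨4 * (((d + d : ℕ) : ℝ) + 1) * (3 ^ (d + d) * (C * C))
    + 2 * (2 * (9 * (3 ^ (d + d)) ^ 2 * C * (2 * d * C))
      + 2 * ((3 ^ (d + d)) ^ 2 * (C * C))), ?_⟩
  intro n _ B h
  have hC := h.C_nonneg
  have hn : (0 : ℝ) < n := Nat.cast_pos.2 (Nat.pos_of_ne_zero (NeZero.ne n))
  refine (Finset.sum_le_sum fun w _ => h.phi_le w).trans ?_
  simp only [Finset.sum_add_distrib, ← Finset.mul_sum]
  have h1 := h.sum_second
  set X := ∑ w : ZMod n, ∑ v ∈ (univ.erase (0 : ZMod n)).filter (fun v => v ≠ w),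
      nrm (De (cl (w - v)) (De (cl v) (B v))) ^ 2
  simp only [Finset.sum_const, Finset.card_univ, ZMod.card, nsmul_eq_mul]
  have hc : (0 : ℝ) ≤ 9 * (3 ^ (d + d)) ^ 2 * C := by positivity
  have h2 := mul_le_mul_of_nonneg_left h1 hc
  have e1 : 4 * (((d + d : ℕ) : ℝ) + 1) * ((n : ℝ) * (3 ^ (d + d) * (C / n * (C / n))))
      = 4 * (((d + d : ℕ) : ℝ) + 1) * (3 ^ (d + d) * (C * C)) / n := by
    field_simp
  have e2 : 2 * ((n : ℝ) * ((3 ^ (d + d)) ^ 2 * (C / n * (C / n))))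
      = 2 * ((3 ^ (d + d)) ^ 2 * (C * C)) / n := by
    field_simp
  have e3 : (4 * (((d + d : ℕ) : ℝ) + 1) * (3 ^ (d + d) * (C * C))
    + 2 * (2 * (9 * (3 ^ (d + d)) ^ 2 * C * (2 * d * C))
      + 2 * ((3 ^ (d + d)) ^ 2 * (C * C)))) / n
      = 4 * (((d + d : ℕ) : ℝ) + 1) * (3 ^ (d + d) * (C * C)) / n
      + 2 * (2 * (9 * (3 ^ (d + d)) ^ 2 * C * (2 * d * (C / n)))
      + 2 * ((3 ^ (d + d)) ^ 2 * (C * C)) / n) := by
    field_simp
  rw [e3]
  linarith

/-- variance of the energy -/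
theorem S10V (d : ℕ) (C : ℝ) : ∃ C' : ℝ, ∀ (n : ℕ) [NeZero n]
    (B : ZMod n → Om n → ℝ), Inv n B d C →
      nrm (fun ω => (∑ x ∈ univ.erase (0 : ZMod n), B x ω ^ 2)
        - ∑ x ∈ univ.erase (0 : ZMod n), nrm (B x) ^ 2) ^ 2 ≤ C' / n := by
  refine ⟨8 * C + 16 * ((3 ^ (d + d)) ^ 2 * C ^ 2), ?_⟩
  intro n _ B h
  have hC := h.C_nonneg
  have hn : (0 : ℝ) < n := Nat.cast_pos.2 (Nat.pos_of_ne_zero (NeZero.ne n))
  have hn1 : (1 : ℝ) ≤ n := by exact_mod_cast Nat.pos_of_ne_zero (NeZero.ne n)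
  have hK : (0 : ℝ) ≤ 3 ^ (d + d) := by positivity
  set K : ℝ := 3 ^ (d + d) with hKdef
  set F : Om n → ℝ := fun ω => ∑ x ∈ univ.erase (0 : ZMod n), B x ω ^ 2 with hF
  have hEx : ∑ x ∈ univ.erase (0 : ZMod n), nrm (B x) ^ 2 = Ex F := by
    rw [hF, Ex_sum (univ.erase (0 : ZMod n)) (fun x ω => B x ω ^ 2)]
    exact Finset.sum_congr rfl fun x _ => nrm_sq _
  rw [hEx]
  refine (var_le F).trans ?_
  have hDe : ∀ e, De e F = fun ω => 2 * (∑ x ∈ univ.erase (0 : ZMod n), B x ω * De e (B x) ω)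
      - 2 * (sg (ω e) * ∑ x ∈ univ.erase (0 : ZMod n), De e (B x) ω * De e (B x) ω) := by
    intro e
    have e1 : F = fun ω => ∑ x ∈ univ.erase (0 : ZMod n), (B x ω * B x ω) := by
      rw [hF]; funext ω; exact Finset.sum_congr rfl fun x _ => by ring
    rw [e1, De_sum e (univ.erase (0 : ZMod n)) (fun x ω => B x ω * B x ω)]
    funext ω
    rw [Finset.mul_sum, Finset.mul_sum, Finset.mul_sum, ← Finset.sum_sub_distrib]
    refine Finset.sum_congr rfl fun x _ => ?_
    rw [De_mul]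
    ring
  have hb : ∀ e, nrm (De e F) ^ 2 ≤
      8 * nrm (fun ω => ∑ x ∈ univ.erase (0 : ZMod n), B x ω * De e (B x) ω) ^ 2
        + 8 * (K ^ 2 * (C / n) ^ 2) := by
    intro e
    rw [hDe e]
    have h1 := nrm_add_sq_le
      (fun ω => 2 * (∑ x ∈ univ.erase (0 : ZMod n), B x ω * De e (B x) ω))
      (fun ω => -(2 * (sg (ω e) * ∑ x ∈ univ.erase (0 : ZMod n), De e (B x) ω * De e (B x) ω)))
    simp only [← sub_eq_add_neg] at h1
    refine h1.trans ?_
    rw [nrm_neg, nrm_const_mul, nrm_const_mul, nrm_sg_mul]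
    have h2 : nrm (fun ω => ∑ x ∈ univ.erase (0 : ZMod n), De e (B x) ω * De e (B x) ω)
        ≤ K * (C / n) := by
      refine (nrm_sum_le _ _).trans ?_
      have h3 : ∀ x ∈ univ.erase (0 : ZMod n),
          nrm (fun ω => De e (B x) ω * De e (B x) ω) ≤ K * nrm (De e (B x)) ^ 2 := by
        intro x _
        have := nrm_mul_le ((h.deg x).De e) ((h.deg x).De e)
        rw [← sq] at this
        exact this
      refine (Finset.sum_le_sum h3).trans ?_
      rw [← Finset.mul_sum]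
      refine mul_le_mul_of_nonneg_left ?_ hK
      refine le_trans ?_ (h.b3 e)
      exact Finset.sum_le_sum_of_subset_of_nonneg (Finset.subset_univ _)
        fun _ _ _ => sq_nonneg _
    have h4 := pow_le_pow_left₀ (nrm_nonneg _) h2 2
    have e2 : |(2 : ℝ)| = 2 := abs_of_pos (by norm_num)
    rw [e2]
    nlinarith [h4]
  refine (Finset.sum_le_sum fun e _ => hb e).trans ?_
  rw [Finset.sum_add_distrib, ← Finset.mul_sum]
  have h5 := h.b5
  simp only [Finset.sum_const, Finset.card_univ, Fintype.card_fin, nsmul_eq_mul]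
  have h6 : ((n / 2 + 1 : ℕ) : ℝ) ≤ 2 * n := by
    have : n / 2 + 1 ≤ 2 * n := by
      have := Nat.pos_of_ne_zero (NeZero.ne n)
      omega
    exact_mod_cast this
  have h7 : (0 : ℝ) ≤ 8 * (K ^ 2 * (C / n) ^ 2) := by positivity
  have h8 := mul_le_mul_of_nonneg_right h6 h7
  have e3 : 2 * (n : ℝ) * (8 * (K ^ 2 * (C / n) ^ 2)) = 16 * (K ^ 2 * C ^ 2) / n := by
    field_simp
    ring
  have e4 : (8 * C + 16 * (K ^ 2 * C ^ 2)) / n = 8 * (C / n) + 16 * (K ^ 2 * C ^ 2) / n := by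
    field_simp
  rw [e4]
  linarith

end Pool.Agent.CTheta
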