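import Pool.Agent.Work.MP_2c2d16_pr.SE.Tools

/-!
First layer bounds and the chain rule (S1 to S6).
-/

set_option autoImplicit false

namespace Pool.Agent.CTheta

open Finset

section helpers

variable {n : ℕ} [NeZero n]

theorem nn_pos : (0 : ℝ) < (n : ℝ) := by
  have := NeZero.pos n
  exact_mod_cast this

theorem co_sq_le (z : ZMod n) : co z ^ 2 ≤ 1 := by
  rw [sq_le_one_iff_abs_le_one]
  exact abs_co_le z

theorem card_erase_le : (((univ : Finset (ZMod n)).erase 0).card : ℝ) ≤ n := by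
  have h : ((univ : Finset (ZMod n)).erase 0).card ≤ n := by
    refine (Finset.card_erase_le).trans ?_
    rw [Finset.card_univ, ZMod.card]
  exact_mod_cast h

/-- the derivatives on the diagonal -/
theorem Inv.delta {B : ZMod n → Om n → ℝ} {d : ℕ} {C : ℝ} (h : Inv n B d C) :
    ∑ x ∈ univ.erase (0 : ZMod n), nrm (De (cl x) (B x)) ^ 2 ≤ C / n := by
  have := h.b4 0
  simpa only [zero_add] using this

/-- Bessel inequality in expectation -/
theorem bessel_nrm (s : Finset (ZMod n)) (A : ZMod n → Om n → ℝ) :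
    ∑ j : ZMod n, nrm (fun ω => ∑ x ∈ s, A x ω * co (j * x)) ^ 2
      ≤ n * ∑ x ∈ s, nrm (A x) ^ 2 := by
  classical
  simp only [nrm_sq]
  rw [← Ex_sum, ← Ex_sum, ← Ex_const_mul]
  refine Ex_mono fun ω => ?_
  have h := bessel (fun x => if x ∈ s then A x ω else 0)
  have h1 : ∀ j : ZMod n, ∑ x : ZMod n, (if x ∈ s then A x ω else 0) * co (j * x) =
      ∑ x ∈ s, A x ω * co (j * x) := by
    intro j
    rw [← Finset.sum_filter_add_sum_filter_not univ (fun x => x ∈ s)]
    have h2 : ∑ x ∈ univ.filter (fun x => ¬ x ∈ s),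
        (if x ∈ s then A x ω else 0) * co (j * x) = 0 := by
      refine Finset.sum_eq_zero fun x hx => ?_
      rw [if_neg (Finset.mem_filter.1 hx).2, zero_mul]
    rw [h2, add_zero]
    have h3 : univ.filter (fun x => x ∈ s) = s := by ext x; simp
    rw [h3]
    refine Finset.sum_congr rfl fun x hx => ?_
    rw [if_pos hx]
  have h4 : ∑ x : ZMod n, (if x ∈ s then A x ω else 0) ^ 2 = ∑ x ∈ s, A x ω ^ 2 := by
    have : ∀ x : ZMod n, (if x ∈ s then A x ω else 0) ^ 2 = if x ∈ s then A x ω ^ 2 else 0 := by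
      intro x
      split_ifs <;> simp
    rw [Finset.sum_congr rfl fun x _ => this x, ← Finset.sum_filter]
    congr 1
    ext x
    simp
  rw [h4] at h
  simp only [h1] at h
  exact h

theorem nrm_sx_mul (x : ZMod n) (F : Om n → ℝ) : nrm (fun ω => sx x ω * F ω) = nrm F :=
  nrm_sg_mul (cl x) F

omit [NeZero n] in
theorem nrm_sq_le_of_le {F : Om n → ℝ} {a : ℝ} (h : nrm F ≤ a) : nrm F ^ 2 ≤ a ^ 2 :=
  pow_le_pow_left₀ (nrm_nonneg F) h 2

omit [NeZero n] in
theorem nrm_le_of_sq_le {F : Om n → ℝ} {a : ℝ} (h : nrm F ^ 2 ≤ a) : nrm F ≤ Real.sqrt a :=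
  Real.le_sqrt_of_sq_le h

theorem sq_nrm_le_one_mul (F : Om n → ℝ) (z : ZMod n) :
    nrm (fun ω => F ω * co z) ≤ nrm F := by
  rw [nrm_mul_const]
  calc |co z| * nrm F ≤ 1 * nrm F := mul_le_mul_of_nonneg_right (abs_co_le z) (nrm_nonneg F)
    _ = nrm F := one_mul _

theorem pY_C (a : ℝ) (B : ZMod n → Om n → ℝ) (j : ZMod n) :
    pY (Polynomial.C a) B j = fun _ => a := by
  funext ω
  simp [pY]

theorem pY_add (P Q : Polynomial ℝ) (B : ZMod n → Om n → ℝ) (j : ZMod n) :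
    pY (P + Q) B j = fun ω => pY P B j ω + pY Q B j ω := by
  funext ω
  simp [pY]

theorem pY_mul (P Q : Polynomial ℝ) (B : ZMod n → Om n → ℝ) (j : ZMod n) :
    pY (P * Q) B j = fun ω => pY P B j ω * pY Q B j ω := by
  funext ω
  simp [pY]

theorem pY_X (B : ZMod n → Om n → ℝ) (j : ZMod n) :
    pY Polynomial.X B j = Yv B j := by
  funext ω
  simp [pY]

theorem pY_mul_X (P : Polynomial ℝ) (B : ZMod n → Om n → ℝ) (j : ZMod n) :
    pY (P * Polynomial.X) B j = fun ω => pY P B j ω * Yv B j ω := by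
  rw [pY_mul, pY_X]

end helpers

/-- induction on polynomials -/
theorem poly_ind {P : Polynomial ℝ → Prop} (hC : ∀ a, P (Polynomial.C a))
    (hadd : ∀ p q, P p → P q → P (p + q)) (hX : ∀ p, P p → P (p * Polynomial.X)) :
    ∀ p, P p := by
  intro p
  refine Polynomial.induction_on p hC hadd ?_
  intro k a h
  rw [pow_succ, ← mul_assoc]
  exact hX _ h

theorem S1_bound {d : ℕ} {C : ℝ} {n : ℕ} [NeZero n] {B : ZMod n → Om n → ℝ}
    (h : Inv n B d C) (j : ZMod n) : nrm (Yv B j) ^ 2 ≤ 4 * (d + 1) * C + 2 * C := by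
  have hn := nn_pos (n := n)
  have h1 := lemmaA' (n := n) (d := d) (T := fun x ω => B x ω * co (j * x))
    (fun x => (h.deg x).mul_const _)
  have h2 : (fun ω => ∑ x ∈ univ.erase (0 : ZMod n), sx x ω * (B x ω * co (j * x))) = Yv B j := by
    funext ω
    unfold Yv
    refine Finset.sum_congr rfl fun x _ => ?_
    ring
  rw [h2] at h1
  refine h1.trans ?_
  refine add_le_add ?_ ?_
  · refine mul_le_mul_of_nonneg_left ?_ (by positivity)
    calc ∑ x ∈ univ.erase (0 : ZMod n), nrm (fun ω => B x ω * co (j * x)) ^ 2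
        ≤ ∑ x ∈ univ.erase (0 : ZMod n), C / n := by
          refine Finset.sum_le_sum fun x hx => ?_
          exact (nrm_sq_le_of_le (sq_nrm_le_one_mul (B x) (j * x))).trans
            (h.b1 x (Finset.ne_of_mem_erase hx))
      _ = (((univ : Finset (ZMod n)).erase 0).card : ℝ) * (C / n) := by
          rw [Finset.sum_const, nsmul_eq_mul]
      _ ≤ n * (C / n) :=
          mul_le_mul_of_nonneg_right card_erase_le (div_nonneg h.C_nonneg hn.le)
      _ = C := by field_simp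
  · refine mul_le_mul_of_nonneg_left ?_ (by norm_num)
    refine (nrm_sum_sq_le _ _).trans ?_
    calc (((univ : Finset (ZMod n)).erase 0).card : ℝ) *
          ∑ x ∈ univ.erase (0 : ZMod n), nrm (De (cl x) fun ω => B x ω * co (j * x)) ^ 2
        ≤ n * (C / n) := by
          refine mul_le_mul card_erase_le ?_ (Finset.sum_nonneg fun x _ => sq_nonneg _) hn.le
          refine le_trans (Finset.sum_le_sum fun x _ => ?_) h.delta
          rw [De_mul_const]
          exact nrm_sq_le_of_le (sq_nrm_le_one_mul (De (cl x) (B x)) (j * x))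
      _ = C := by field_simp

/-- (S1) -/
theorem S1 (d : ℕ) (C : ℝ) : ∃ C' : ℝ, ∀ (n : ℕ) [NeZero n] (B : ZMod n → Om n → ℝ),
    Inv n B d C → ∀ j, nrm (Yv B j) ^ 2 ≤ C' :=
  ⟨4 * (d + 1) * C + 2 * C, fun _ _ _ h j => S1_bound h j⟩

/-- (S2) -/
theorem S2 (d : ℕ) {n : ℕ} [NeZero n] (B : ZMod n → Om n → ℝ) (h : ∀ x, Deg d (B x)) (j : ZMod n) :
    Deg (d + 1) (Yv B j) := by
  unfold Yv
  refine Deg.sum _ fun x _ => ?_
  refine Deg.mul_const _ ?_
  have h1 : Deg (1 + d) (fun ω : Om n => sg (ω (cl x)) * B x ω) := (Deg_sg (cl x)).mul (h x)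
  exact h1.mono (Nat.le_of_eq (Nat.add_comm 1 d))

theorem Deg_pY (d : ℕ) (Q : Polynomial ℝ) {n : ℕ} [NeZero n] (B : ZMod n → Om n → ℝ)
    (h : ∀ x, Deg d (B x)) (j : ZMod n) : Deg (Q.natDegree * (d + 1)) (pY Q B j) := by
  have h1 : pY Q B j = fun ω => ∑ i ∈ Finset.range (Q.natDegree + 1),
      Q.coeff i * Yv B j ω ^ i := by
    funext ω
    unfold pY
    rw [Polynomial.eval_eq_sum_range]
  rw [h1]
  refine Deg.sum _ fun i hi => ?_
  refine Deg.const_mul _ ?_
  refine ((S2 d B h j).pow i).mono ?_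
  exact Nat.mul_le_mul_right _ (Nat.lt_succ_iff.1 (Finset.mem_range.1 hi))

theorem S1_nrm (d : ℕ) (C : ℝ) : ∃ C' : ℝ, 0 ≤ C' ∧ ∀ (n : ℕ) [NeZero n]
    (B : ZMod n → Om n → ℝ), Inv n B d C → ∀ j, nrm (Yv B j) ≤ C' := by
  obtain ⟨C1, h1⟩ := S1 d C
  exact ⟨Real.sqrt C1, Real.sqrt_nonneg _, fun n _ B h j => nrm_le_of_sq_le (h1 n B h j)⟩

theorem S3_nrm (d : ℕ) (C : ℝ) (Q : Polynomial ℝ) : ∃ C' : ℝ, 0 ≤ C' ∧ ∀ (n : ℕ) [NeZero n]
    (B : ZMod n → Om n → ℝ), Inv n B d C → ∀ j, nrm (pY Q B j) ≤ C' := by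
  obtain ⟨M, hM0, hM⟩ := S1_nrm d C
  induction Q using poly_ind with
  | hC a => exact ⟨|a|, abs_nonneg a, fun n _ B _ j => by rw [pY_C, nrm_const]⟩
  | hadd p q hp hq =>
    obtain ⟨C1, h10, h1⟩ := hp
    obtain ⟨C2, h20, h2⟩ := hq
    refine ⟨C1 + C2, add_nonneg h10 h20, fun n _ B h j => ?_⟩
    rw [pY_add]
    exact (nrm_add_le _ _).trans (add_le_add (h1 n B h j) (h2 n B h j))
  | hX p hp =>
    obtain ⟨C1, h10, h1⟩ := hp
    refine ⟨3 ^ (p.natDegree * (d + 1) + (d + 1)) * (C1 * M), by positivity,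
      fun n _ B h j => ?_⟩
    rw [pY_mul_X]
    refine (nrm_mul_le (Deg_pY d p B h.deg j) (S2 d B h.deg j)).trans ?_
    refine mul_le_mul_of_nonneg_left ?_ (by positivity)
    exact mul_le_mul (h1 n B h j) (hM n B h j) (nrm_nonneg _) h10

/-- (S3) -/
theorem S3 (d : ℕ) (C : ℝ) (Q : Polynomial ℝ) : ∃ C' : ℝ, ∀ (n : ℕ) [NeZero n]
    (B : ZMod n → Om n → ℝ), Inv n B d C → ∀ j, nrm (pY Q B j) ^ 2 ≤ C' := by
  obtain ⟨C1, _, h1⟩ := S3_nrm d C Q
  exact ⟨C1 ^ 2, fun n _ B h j => nrm_sq_le_of_le (h1 n B h j)⟩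

/-- (S3') -/
theorem S3' (d : ℕ) (C : ℝ) (Q : Polynomial ℝ) : ∃ C' : ℝ, ∀ (n : ℕ) [NeZero n]
    (B : ZMod n → Om n → ℝ), Inv n B d C → ∑ x : ZMod n, nrm (bt (pY Q B) x) ^ 2 ≤ C' := by
  obtain ⟨C1, h1⟩ := S3 d C Q
  refine ⟨C1, fun n _ B h => ?_⟩
  have hn := nn_pos (n := n)
  refine (sum_nrm_bt_sq_le (pY Q B)).trans ?_
  rw [div_le_iff₀ hn]
  calc ∑ j : ZMod n, nrm (pY Q B j) ^ 2 ≤ ∑ _j : ZMod n, C1 :=
        Finset.sum_le_sum fun j _ => h1 n B h j
    _ = C1 * n := by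
        rw [Finset.sum_const, Finset.card_univ, ZMod.card, nsmul_eq_mul, mul_comm]

/-- (S4) -/
theorem S4 (d : ℕ) (C : ℝ) : ∃ C' : ℝ, ∀ (n : ℕ) [NeZero n] (B : ZMod n → Om n → ℝ),
    Inv n B d C → ∀ e, ∑ j : ZMod n, nrm (De e (Yv B j)) ^ 2 ≤ C' := by
  refine ⟨74 * C, fun n _ B h e => ?_⟩
  have hn := nn_pos (n := n)
  have hC := h.C_nonneg
  set U : Finset (ZMod n) := (univ.erase (0 : ZMod n)).filter (fun x => cl x = e) with hU
  have hUc : (U.card : ℝ) ≤ 2 := by
    have h1 : U.card ≤ (univ.filter fun x : ZMod n => cl x = e).card := by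
      refine Finset.card_le_card ?_
      rw [hU]
      exact Finset.filter_subset_filter _ (Finset.erase_subset _ _)
    exact_mod_cast h1.trans (card_fiber_le e)
  have hfirst : ∀ j : ZMod n, nrm (fun ω => ∑ x ∈ U,
      (B x ω - 2 * sg (ω e) * De e (B x) ω) * co (j * x)) ^ 2 ≤ 36 * (C / n) := by
    intro j
    refine (nrm_sum_sq_le _ _).trans ?_
    have h2 : ∀ x ∈ U, nrm (fun ω => (B x ω - 2 * sg (ω e) * De e (B x) ω) * co (j * x)) ^ 2
        ≤ 9 * (C / n) := by
      intro x hx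
      have hx0 : x ≠ 0 := Finset.ne_of_mem_erase (Finset.mem_filter.1 hx).1
      have h3 : nrm (fun ω => (B x ω - 2 * sg (ω e) * De e (B x) ω) * co (j * x))
          ≤ 3 * nrm (B x) := by
        refine (sq_nrm_le_one_mul _ _).trans ?_
        refine (nrm_sub_le (B x) (fun ω => 2 * sg (ω e) * De e (B x) ω)).trans ?_
        have h4 : nrm (fun ω : Om n => 2 * sg (ω e) * De e (B x) ω) = 2 * nrm (De e (B x)) := by
          have : (fun ω : Om n => 2 * sg (ω e) * De e (B x) ω) =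
              fun ω => 2 * (sg (ω e) * De e (B x) ω) := by funext ω; ring
          rw [this, nrm_const_mul, nrm_sg_mul]
          norm_num
        rw [h4]
        have h5 := nrm_De_le e (B x)
        linarith
      calc _ ≤ (3 * nrm (B x)) ^ 2 := nrm_sq_le_of_le h3
        _ = 9 * nrm (B x) ^ 2 := by ring
        _ ≤ 9 * (C / n) := mul_le_mul_of_nonneg_left (h.b1 x hx0) (by norm_num)
    calc (U.card : ℝ) * ∑ x ∈ U,
          nrm (fun ω => (B x ω - 2 * sg (ω e) * De e (B x) ω) * co (j * x)) ^ 2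
        ≤ (U.card : ℝ) * (U.card * (9 * (C / n))) := by
          refine mul_le_mul_of_nonneg_left ?_ (Nat.cast_nonneg _)
          calc _ ≤ ∑ _x ∈ U, 9 * (C / n) := Finset.sum_le_sum h2
            _ = U.card * (9 * (C / n)) := by rw [Finset.sum_const, nsmul_eq_mul]
      _ ≤ 2 * (2 * (9 * (C / n))) := by
          have : 0 ≤ 9 * (C / n) := by positivity
          refine mul_le_mul hUc (mul_le_mul_of_nonneg_right hUc this) (by positivity) (by norm_num)
      _ = 36 * (C / n) := by ring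
  have hsecond : ∑ j : ZMod n, nrm (fun ω => ∑ x ∈ univ.erase (0 : ZMod n),
      sx x ω * De e (B x) ω * co (j * x)) ^ 2 ≤ C := by
    refine (bessel_nrm (univ.erase (0 : ZMod n)) (fun x ω => sx x ω * De e (B x) ω)).trans ?_
    have h2 : ∑ x ∈ univ.erase (0 : ZMod n), nrm (fun ω => sx x ω * De e (B x) ω) ^ 2 ≤ C / n := by
      simp only [nrm_sx_mul]
      refine le_trans ?_ (h.b3 e)
      exact Finset.sum_le_sum_of_subset_of_nonneg (Finset.erase_subset _ _)
        fun x _ _ => sq_nonneg _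
    calc _ ≤ n * (C / n) := mul_le_mul_of_nonneg_left h2 hn.le
      _ = C := by field_simp
  calc ∑ j : ZMod n, nrm (De e (Yv B j)) ^ 2
      ≤ ∑ j : ZMod n, (2 * (36 * (C / n)) + 2 * nrm (fun ω => ∑ x ∈ univ.erase (0 : ZMod n),
          sx x ω * De e (B x) ω * co (j * x)) ^ 2) := by
        refine Finset.sum_le_sum fun j _ => ?_
        rw [De_Yv]
        refine (nrm_add_sq_le _ _).trans ?_
        have := hfirst j
        linarith
    _ = n * (2 * (36 * (C / n))) + 2 * ∑ j : ZMod n, nrm (fun ω =>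
          ∑ x ∈ univ.erase (0 : ZMod n), sx x ω * De e (B x) ω * co (j * x)) ^ 2 := by
        rw [Finset.sum_add_distrib, Finset.sum_const, Finset.card_univ, ZMod.card, nsmul_eq_mul,
          ← Finset.mul_sum]
    _ ≤ n * (2 * (36 * (C / n))) + 2 * C := by linarith
    _ = 74 * C := by field_simp; ring

/-- (S5') pointwise bound for the derivative of a polynomial -/
theorem S5' (d : ℕ) (C : ℝ) (Q : Polynomial ℝ) : ∃ C' : ℝ, 0 ≤ C' ∧ ∀ (n : ℕ) [NeZero n]
    (B : ZMod n → Om n → ℝ), Inv n B d C → ∀ e j,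
      nrm (De e (pY Q B j)) ≤ C' * nrm (De e (Yv B j)) := by
  obtain ⟨M, hM0, hM⟩ := S1_nrm d C
  induction Q using poly_ind with
  | hC a =>
    refine ⟨0, le_rfl, fun n _ B _ e j => ?_⟩
    rw [pY_C, De_const, nrm_zero, zero_mul]
  | hadd p q hp hq =>
    obtain ⟨C1, h10, h1⟩ := hp
    obtain ⟨C2, h20, h2⟩ := hq
    refine ⟨C1 + C2, add_nonneg h10 h20, fun n _ B h e j => ?_⟩
    rw [pY_add, De_add]
    refine (nrm_add_le _ _).trans ?_
    have := h1 n B h e j
    have := h2 n B h e j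
    linarith
  | hX p hp =>
    obtain ⟨C1, h10, h1⟩ := hp
    obtain ⟨C3, h30, h3⟩ := S3_nrm d C p
    set K : ℝ := 3 ^ (p.natDegree * (d + 1) + (d + 1)) with hK
    have hK0 : 0 ≤ K := by rw [hK]; positivity
    refine ⟨K * (C3 + M * C1 + 2 * C3), by positivity, fun n _ B h e j => ?_⟩
    have hdp := Deg_pY d p B h.deg j
    have hdY := S2 d B h.deg j
    have a1 : nrm (fun ω => pY p B j ω * De e (Yv B j) ω) ≤
        K * (nrm (pY p B j) * nrm (De e (Yv B j))) := nrm_mul_le hdp (hdY.De e)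
    have a2 : nrm (fun ω => Yv B j ω * De e (pY p B j) ω) ≤
        K * (nrm (De e (pY p B j)) * nrm (Yv B j)) := by
      have e1 : (fun ω => Yv B j ω * De e (pY p B j) ω) =
          fun ω => De e (pY p B j) ω * Yv B j ω := by
        funext ω
        ring
      rw [e1]
      exact nrm_mul_le (hdp.De e) hdY
    have a3 : nrm (fun ω => De e (pY p B j) ω * De e (Yv B j) ω) ≤
        K * (nrm (De e (pY p B j)) * nrm (De e (Yv B j))) := nrm_mul_le (hdp.De e) (hdY.De e)
    have hm : De e (pY (p * Polynomial.X) B j) = fun ω => pY p B j ω * De e (Yv B j) ω +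
        Yv B j ω * De e (pY p B j) ω - 2 * sg (ω e) * (De e (pY p B j) ω * De e (Yv B j) ω) := by
      rw [pY_mul_X, De_mul]
    have a4 : nrm (fun ω => 2 * sg (ω e) * (De e (pY p B j) ω * De e (Yv B j) ω)) =
        2 * nrm (fun ω => De e (pY p B j) ω * De e (Yv B j) ω) := by
      have : (fun ω => 2 * sg (ω e) * (De e (pY p B j) ω * De e (Yv B j) ω)) =
          fun ω => 2 * (sg (ω e) * (De e (pY p B j) ω * De e (Yv B j) ω)) := by
        funext ω; ring
      rw [this, nrm_const_mul, nrm_sg_mul e (fun ω => De e (pY p B j) ω * De e (Yv B j) ω)]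
      norm_num
    rw [hm]
    refine (nrm_sub_le _ _).trans ?_
    rw [a4]
    have a5 := nrm_add_le (fun ω => pY p B j ω * De e (Yv B j) ω)
      (fun ω => Yv B j ω * De e (pY p B j) ω)
    have b1 := h1 n B h e j
    have b2 := h3 n B h j
    have b3 := hM n B h j
    have b4 : nrm (De e (pY p B j)) ≤ C3 := (nrm_De_le _ _).trans b2
    have n1 := nrm_nonneg (De e (Yv B j))
    have n2 := nrm_nonneg (De e (pY p B j))
    have n3 := nrm_nonneg (Yv B j)
    have c1 : K * (nrm (pY p B j) * nrm (De e (Yv B j))) ≤ K * (C3 * nrm (De e (Yv B j))) :=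
      mul_le_mul_of_nonneg_left (mul_le_mul_of_nonneg_right b2 n1) hK0
    have c2 : K * (nrm (De e (pY p B j)) * nrm (Yv B j)) ≤
        K * ((C1 * nrm (De e (Yv B j))) * M) :=
      mul_le_mul_of_nonneg_left (mul_le_mul b1 b3 n3 (by positivity)) hK0
    have c3 : K * (nrm (De e (pY p B j)) * nrm (De e (Yv B j))) ≤
        K * (C3 * nrm (De e (Yv B j))) :=
      mul_le_mul_of_nonneg_left (mul_le_mul_of_nonneg_right b4 n1) hK0
    nlinarith

/-- (S5) -/
theorem S5 (d : ℕ) (C : ℝ) (Q : Polynomial ℝ) : ∃ C' : ℝ, ∀ (n : ℕ) [NeZero n]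
    (B : ZMod n → Om n → ℝ), Inv n B d C → ∀ e, ∑ j : ZMod n, nrm (De e (pY Q B j)) ^ 2 ≤ C' := by
  obtain ⟨C1, h10, h1⟩ := S5' d C Q
  obtain ⟨C2, h2⟩ := S4 d C
  refine ⟨C1 ^ 2 * C2, fun n _ B h e => ?_⟩
  calc ∑ j : ZMod n, nrm (De e (pY Q B j)) ^ 2
      ≤ ∑ j : ZMod n, C1 ^ 2 * nrm (De e (Yv B j)) ^ 2 := by
        refine Finset.sum_le_sum fun j _ => ?_
        rw [← mul_pow]
        exact nrm_sq_le_of_le (h1 n B h e j)
    _ = C1 ^ 2 * ∑ j : ZMod n, nrm (De e (Yv B j)) ^ 2 := by rw [Finset.mul_sum]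
    _ ≤ C1 ^ 2 * C2 := mul_le_mul_of_nonneg_left (h2 n B h e) (sq_nonneg _)

theorem S6_nonneg (d : ℕ) (C : ℝ) (Q : Polynomial ℝ) : ∃ C' : ℝ, 0 ≤ C' ∧ ∀ (n : ℕ) [NeZero n]
    (B : ZMod n → Om n → ℝ), Inv n B d C → ∀ e j,
      nrm (fun ω => De e (pY Q B j) ω - pY (Polynomial.derivative Q) B j ω * De e (Yv B j) ω)
        ≤ C' * nrm (De e (Yv B j)) ^ 2 := by
  obtain ⟨M, hM0, hM⟩ := S1_nrm d C
  induction Q using poly_ind with
  | hC a =>
    refine ⟨0, le_rfl, fun n _ B _ e j => ?_⟩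
    have : (fun ω => De e (pY (Polynomial.C a) B j) ω -
        pY (Polynomial.derivative (Polynomial.C a)) B j ω * De e (Yv B j) ω) =
        (0 : Om n → ℝ) := by
      funext ω
      rw [pY_C, De_const, Polynomial.derivative_C]
      simp [pY]
    rw [this, nrm_zero, zero_mul]
  | hadd p q hp hq =>
    obtain ⟨C1, h10, h1⟩ := hp
    obtain ⟨C2, h20, h2⟩ := hq
    refine ⟨C1 + C2, add_nonneg h10 h20, fun n _ B h e j => ?_⟩
    have : (fun ω => De e (pY (p + q) B j) ω -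
        pY (Polynomial.derivative (p + q)) B j ω * De e (Yv B j) ω) =
        fun ω => (De e (pY p B j) ω - pY (Polynomial.derivative p) B j ω * De e (Yv B j) ω) +
          (De e (pY q B j) ω - pY (Polynomial.derivative q) B j ω * De e (Yv B j) ω) := by
      funext ω
      rw [pY_add, De_add, Polynomial.derivative_add, pY_add]
      ring
    rw [this]
    refine (nrm_add_le _ _).trans ?_
    have := h1 n B h e j
    have := h2 n B h e j
    linarith
  | hX p hp =>
    obtain ⟨C1, h10, h1⟩ := hp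
    obtain ⟨C5, h50, h5⟩ := S5' d C p
    set K1 : ℝ := 3 ^ ((max (p.natDegree * (d + 1))
      ((Polynomial.derivative p).natDegree * (d + 1) + (d + 1))) + (d + 1)) with hK1
    set K2 : ℝ := 3 ^ (p.natDegree * (d + 1) + (d + 1)) with hK2
    have hK10 : 0 ≤ K1 := by rw [hK1]; positivity
    have hK20 : 0 ≤ K2 := by rw [hK2]; positivity
    refine ⟨K1 * (C1 * M) + 2 * (K2 * C5), by positivity, fun n _ B h e j => ?_⟩
    have hdp := Deg_pY d p B h.deg j
    have hdp' := Deg_pY d (Polynomial.derivative p) B h.deg j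
    have hdY := S2 d B h.deg j
    set R : Om n → ℝ := fun ω =>
      De e (pY p B j) ω - pY (Polynomial.derivative p) B j ω * De e (Yv B j) ω with hR
    have hdR : Deg (max (p.natDegree * (d + 1))
        ((Polynomial.derivative p).natDegree * (d + 1) + (d + 1))) R := by
      rw [hR]
      refine Deg.sub ((hdp.De e).mono (le_max_left _ _)) ?_
      exact (hdp'.mul (hdY.De e)).mono (le_max_right _ _)
    have hm : (fun ω => De e (pY (p * Polynomial.X) B j) ω -
        pY (Polynomial.derivative (p * Polynomial.X)) B j ω * De e (Yv B j) ω) =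
        fun ω => R ω * Yv B j ω - 2 * (sg (ω e) * (De e (pY p B j) ω * De e (Yv B j) ω)) := by
      funext ω
      have e1 : Polynomial.derivative (p * Polynomial.X) =
          Polynomial.derivative p * Polynomial.X + p := by
        rw [Polynomial.derivative_mul, Polynomial.derivative_X, mul_one]
      rw [e1, pY_mul_X, De_mul, pY_add, pY_mul_X]
      simp only [hR]
      ring
    rw [hm]
    refine (nrm_sub_le _ _).trans ?_
    rw [nrm_const_mul, nrm_sg_mul e (fun ω => De e (pY p B j) ω * De e (Yv B j) ω)]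
    have a1 := nrm_mul_le hdR hdY
    have a3 := nrm_mul_le (hdp.De e) (hdY.De e)
    have b1 : nrm R ≤ C1 * nrm (De e (Yv B j)) ^ 2 := h1 n B h e j
    have b2 := h5 n B h e j
    have b3 := hM n B h j
    have n1 := nrm_nonneg (De e (Yv B j))
    have n3 := nrm_nonneg (Yv B j)
    have c1 : K1 * (nrm R * nrm (Yv B j)) ≤ K1 * ((C1 * nrm (De e (Yv B j)) ^ 2) * M) :=
      mul_le_mul_of_nonneg_left (mul_le_mul b1 b3 n3 (by positivity)) hK10
    have c2 : K2 * (nrm (De e (pY p B j)) * nrm (De e (Yv B j))) ≤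
        K2 * ((C5 * nrm (De e (Yv B j))) * nrm (De e (Yv B j))) :=
      mul_le_mul_of_nonneg_left (mul_le_mul_of_nonneg_right b2 n1) hK20
    have h2 : |(2 : ℝ)| = 2 := by norm_num
    rw [h2]
    calc nrm (fun ω => R ω * Yv B j ω) +
          2 * nrm (fun ω => De e (pY p B j) ω * De e (Yv B j) ω)
        ≤ K1 * ((C1 * nrm (De e (Yv B j)) ^ 2) * M) +
          2 * (K2 * ((C5 * nrm (De e (Yv B j))) * nrm (De e (Yv B j)))) := by
          refine add_le_add (a1.trans c1) (mul_le_mul_of_nonneg_left (a3.trans c2) (by norm_num))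
      _ = (K1 * (C1 * M) + 2 * (K2 * C5)) * nrm (De e (Yv B j)) ^ 2 := by ring

/-- (S6) chain rule -/
theorem S6 (d : ℕ) (C : ℝ) (Q : Polynomial ℝ) : ∃ C' : ℝ, ∀ (n : ℕ) [NeZero n]
    (B : ZMod n → Om n → ℝ), Inv n B d C → ∀ e j,
      nrm (fun ω => De e (pY Q B j) ω - pY (Polynomial.derivative Q) B j ω * De e (Yv B j) ω)
        ≤ C' * nrm (De e (Yv B j)) ^ 2 := by
  obtain ⟨C1, _, h1⟩ := S6_nonneg d C Q
  exact ⟨C1, h1⟩

end Pool.Agent.CTheta
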