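import Pool.Agent.Work.MP_2c2d16_pr.SE.Four2
import Pool.Agent.Work.MP_2c2d16_pr.SE.S16
import Pool.Agent.Work.MP_2c2d16_pr.SE.S10F

set_option autoImplicit false

/-! # The Stein identity for the field `Yv` (S10) -/

namespace Pool.Agent.CTheta

open Finset

namespace SteinS10

section gen
variable {n : ℕ} [NeZero n]

lemma sum_X0 (f : ZMod n → ℝ) :
    ∑ x ∈ univ.erase (0 : ZMod n), f x = ∑ x, if x = 0 then 0 else f x := by
  rw [← Finset.add_sum_erase univ _ (mem_univ (0 : ZMod n)), if_pos rfl, zero_add]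
  refine Finset.sum_congr rfl fun x hx => ?_
  rw [if_neg (ne_of_mem_erase hx)]

lemma sum_neg_X0 (f : ZMod n → ℝ) :
    ∑ x ∈ univ.erase (0 : ZMod n), f (-x) = ∑ x ∈ univ.erase (0 : ZMod n), f x := by
  rw [sum_X0, sum_X0, ← Equiv.sum_comp (Equiv.neg (ZMod n)) (fun x => if x = 0 then 0 else f x)]
  refine Finset.sum_congr rfl fun x _ => ?_
  simp only [Equiv.neg_apply, neg_eq_zero]

/-- Bessel in norm form -/
lemma bessel_nrm (a : ZMod n → Om n → ℝ) :
    ∑ j : ZMod n, nrm (fun ω => ∑ x : ZMod n, a x ω * co (j * x)) ^ 2 ≤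
      n * ∑ x : ZMod n, nrm (a x) ^ 2 := by
  simp only [nrm_sq]
  rw [← Ex_sum, ← Ex_sum, ← Ex_const_mul]
  exact Ex_mono fun ω => bessel (fun x => a x ω)

lemma bessel_nrm_X0 (a : ZMod n → Om n → ℝ) :
    ∑ j : ZMod n, nrm (fun ω => ∑ x ∈ univ.erase (0 : ZMod n), a x ω * co (j * x)) ^ 2 ≤
      n * ∑ x ∈ univ.erase (0 : ZMod n), nrm (a x) ^ 2 := by
  have h := bessel_nrm (fun x => if x = 0 then 0 else a x)
  have h1 : ∀ j : ZMod n, (fun ω => ∑ x ∈ univ.erase (0 : ZMod n), a x ω * co (j * x)) =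
      fun ω => ∑ x : ZMod n, (if x = 0 then 0 else a x : Om n → ℝ) ω * co (j * x) := by
    intro j
    ext ω
    rw [sum_X0]
    refine Finset.sum_congr rfl fun x _ => ?_
    split_ifs <;> simp
  have h2 : ∑ x ∈ univ.erase (0 : ZMod n), nrm (a x) ^ 2 =
      ∑ x : ZMod n, nrm (if x = 0 then 0 else a x : Om n → ℝ) ^ 2 := by
    rw [sum_X0]
    refine Finset.sum_congr rfl fun x _ => ?_
    split_ifs
    · rw [nrm_zero]; norm_num
    · rfl
  simp only [h1, h2]
  exact h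

lemma bessel_two_nrm_X0 (a : ZMod n → Om n → ℝ) :
    ∑ j : ZMod n, nrm (fun ω => ∑ x ∈ univ.erase (0 : ZMod n), a x ω * co (j * (2 * x))) ^ 2 ≤
      2 * n * ∑ x ∈ univ.erase (0 : ZMod n), nrm (a x) ^ 2 := by
  have h1 : ∀ j : ZMod n, (fun ω => ∑ x ∈ univ.erase (0 : ZMod n), a x ω * co (j * (2 * x))) =
      fun ω => ∑ x : ZMod n, (if x = 0 then 0 else a x : Om n → ℝ) ω * co (j * (2 * x)) := by
    intro j
    ext ω
    rw [sum_X0]
    refine Finset.sum_congr rfl fun x _ => ?_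
    split_ifs <;> simp
  have h2 : ∑ x ∈ univ.erase (0 : ZMod n), nrm (a x) ^ 2 =
      ∑ x : ZMod n, nrm (if x = 0 then 0 else a x : Om n → ℝ) ^ 2 := by
    rw [sum_X0]
    refine Finset.sum_congr rfl fun x _ => ?_
    split_ifs
    · rw [nrm_zero]; norm_num
    · rfl
  rw [h2]
  simp only [h1, nrm_sq]
  rw [← Ex_sum, ← Ex_sum, ← Ex_const_mul]
  exact Ex_mono fun ω => bessel_two (fun x => (if x = 0 then 0 else a x : Om n → ℝ) ω)

/-- Cauchy-Schwarz over `j` -/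
lemma sum_le_sqrt (a : ZMod n → ℝ) {K : ℝ} (hK : ∑ j, a j ^ 2 ≤ K) :
    ∑ j, a j ≤ Real.sqrt K * Real.sqrt n := by
  have h1 : (∑ j, a j) ^ 2 ≤ n * ∑ j, a j ^ 2 := by
    have := sq_sum_le_card_mul_sum_sq (s := (univ : Finset (ZMod n))) (f := a)
    rwa [card_univ, ZMod.card] at this
  have h0 : 0 ≤ K := (Finset.sum_nonneg fun j _ => sq_nonneg (a j)).trans hK
  rw [← Real.sqrt_mul h0]
  apply Real.le_sqrt_of_sq_le
  calc (∑ j, a j) ^ 2 ≤ n * ∑ j, a j ^ 2 := h1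
    _ ≤ n * K := by gcongr
    _ = K * n := mul_comm _ _

/-- Cauchy-Schwarz -/
lemma sum_mul_le_sqrt {ι : Type*} (s : Finset ι) (a b : ι → ℝ) {K L : ℝ}
    (hK : ∑ j ∈ s, a j ^ 2 ≤ K) (hL : ∑ j ∈ s, b j ^ 2 ≤ L) :
    ∑ j ∈ s, a j * b j ≤ Real.sqrt K * Real.sqrt L := by
  have h0 : 0 ≤ K := (Finset.sum_nonneg fun j _ => sq_nonneg (a j)).trans hK
  have h0' : 0 ≤ L := (Finset.sum_nonneg fun j _ => sq_nonneg (b j)).trans hL
  rw [← Real.sqrt_mul h0]
  apply Real.le_sqrt_of_sq_le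
  calc (∑ j ∈ s, a j * b j) ^ 2 ≤ (∑ j ∈ s, a j ^ 2) * ∑ j ∈ s, b j ^ 2 :=
        Finset.sum_mul_sq_le_sq_mul_sq _ _ _
    _ ≤ K * L := mul_le_mul hK hL (Finset.sum_nonneg fun j _ => sq_nonneg (b j)) h0

end gen

section alg
variable {n : ℕ} [NeZero n]

/-- the feedback kernel -/
noncomputable def Phi (B : ZMod n → Om n → ℝ) (w : ZMod n) : Om n → ℝ :=
  fun ω => ∑ v ∈ (univ.erase (0 : ZMod n)).filter (fun v => v ≠ w),
        sx v ω * (B (w - v) ω * De (cl (w - v)) (B v) ω)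

noncomputable def mx (x : ZMod n) : ℝ :=
  (((univ.erase (0 : ZMod n)).filter (fun y => cl y = cl x)).card : ℝ)

lemma mx_le (x : ZMod n) : mx x ≤ 2 := by
  unfold mx
  have h1 : ((univ.erase (0 : ZMod n)).filter (fun y => cl y = cl x)).card ≤
      (univ.filter fun y : ZMod n => cl y = cl x).card :=
    Finset.card_le_card (Finset.filter_subset_filter _ (Finset.erase_subset _ _))
  exact_mod_cast h1.trans (card_fiber_le (cl x))

lemma mx_nonneg (x : ZMod n) : 0 ≤ mx x := by unfold mx; positivity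

lemma mx_eq {x : ZMod n} (hx : x ≠ 0) : mx x = if 2 * x = 0 then 1 else 2 := by
  have h : (univ.erase (0 : ZMod n)).filter (fun y => cl y = cl x) = {x, -x} := by
    ext y
    simp only [mem_filter, mem_erase, mem_univ, and_true, mem_insert, mem_singleton, cl_eq_iff]
    constructor
    · exact fun h => h.2
    · intro h
      refine ⟨?_, h⟩
      rcases h with h | h
      · rw [h]; exact hx
      · rw [h]; exact neg_ne_zero.mpr hx
  unfold mx
  rw [h]
  have h2 : (x = -x) ↔ 2 * x = 0 := by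
    rw [eq_neg_iff_add_eq_zero, two_mul]
  split_ifs with h3
  · rw [← h2.mpr h3]; simp
  · rw [Finset.card_pair (fun h4 => h3 (h2.mp h4))]; norm_num

lemma mx_co {x : ZMod n} (hx : x ≠ 0) (j : ZMod n) :
    mx x * (co (j * x) * co (j * x)) = 1 + co (j * (2 * x)) - if 2 * x = 0 then 1 else 0 := by
  rw [mx_eq hx, co_mul_co, sub_self, co_zero]
  have h1 : j * x + j * x = j * (2 * x) := by ring
  rw [h1]
  split_ifs with h
  · rw [h, mul_zero, co_zero]; ring
  · ring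

lemma direct (B : ZMod n → Om n → ℝ) (hB : ∀ x, B (-x) = B x) (x : ZMod n) (j : ZMod n)
    (ω : Om n) :
    (∑ y ∈ (univ.erase (0 : ZMod n)).filter (fun y => cl y = cl x),
        (B y ω - 2 * sg (ω (cl x)) * De (cl x) (B y) ω) * co (j * y)) =
      mx x * ((B x ω - 2 * sx x ω * De (cl x) (B x) ω) * co (j * x)) := by
  have h1 : ∀ y ∈ (univ.erase (0 : ZMod n)).filter (fun y => cl y = cl x),
      (B y ω - 2 * sg (ω (cl x)) * De (cl x) (B y) ω) * co (j * y) =
      (B x ω - 2 * sx x ω * De (cl x) (B x) ω) * co (j * x) := by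
    intro y hy
    rw [mem_filter, cl_eq_iff] at hy
    rcases hy.2 with h | h
    · rw [h]; rfl
    · rw [h, hB, mul_neg, co_neg]; rfl
  rw [Finset.sum_congr rfl h1, Finset.sum_const, nsmul_eq_mul]
  rfl

lemma feedback (B : ZMod n → Om n → ℝ) (hB : ∀ x, B (-x) = B x) (j : ZMod n) (ω : Om n) :
    ∑ x ∈ univ.erase (0 : ZMod n), co (j * x) * (B x ω *
      ∑ v ∈ univ.erase (0 : ZMod n), sx v ω * De (cl x) (B v) ω * co (j * v)) =
    ∑ w : ZMod n, Phi B w ω * co (j * w) := by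
  have h1 : ∀ x : ZMod n, co (j * x) * (B x ω *
      ∑ v ∈ univ.erase (0 : ZMod n), sx v ω * De (cl x) (B v) ω * co (j * v)) =
      ∑ v ∈ univ.erase (0 : ZMod n), sx v ω * (B x ω * De (cl x) (B v) ω) * co (j * (x + v)) := by
    intro x
    rw [← mul_assoc, Finset.mul_sum]
    have h2 : ∀ v, co (j * x) * B x ω * (sx v ω * De (cl x) (B v) ω * co (j * v)) =
        (sx v ω * (B x ω * De (cl x) (B v) ω) * co (j * (x + v))) / 2 +
        (sx v ω * (B x ω * De (cl x) (B v) ω) * co (j * (x - v))) / 2 := by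
      intro v
      have h3 := co_mul_co (j * x) (j * v)
      rw [← mul_add, ← mul_sub] at h3
      linear_combination (sx v ω * (B x ω * De (cl x) (B v) ω)) * h3
    rw [Finset.sum_congr rfl fun v _ => h2 v, Finset.sum_add_distrib]
    have h4 : ∑ v ∈ univ.erase (0 : ZMod n),
        (sx v ω * (B x ω * De (cl x) (B v) ω) * co (j * (x - v))) / 2 =
        ∑ v ∈ univ.erase (0 : ZMod n),
        (sx v ω * (B x ω * De (cl x) (B v) ω) * co (j * (x + v))) / 2 := by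
      rw [← sum_neg_X0]
      refine Finset.sum_congr rfl fun v _ => ?_
      have h5 : sx (-v) ω = sx v ω := by unfold sx; rw [cl_neg]
      rw [h5, hB, sub_neg_eq_add]
    rw [h4, ← Finset.sum_add_distrib]
    refine Finset.sum_congr rfl fun v _ => ?_
    ring
  rw [Finset.sum_congr rfl fun x _ => h1 x, Finset.sum_comm]
  have h6 : ∀ v : ZMod n, ∑ x ∈ univ.erase (0 : ZMod n),
      sx v ω * (B x ω * De (cl x) (B v) ω) * co (j * (x + v)) =
      ∑ w : ZMod n, if v ≠ w then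
        sx v ω * (B (w - v) ω * De (cl (w - v)) (B v) ω) * co (j * w) else 0 := by
    intro v
    rw [sum_X0, ← Equiv.sum_comp (Equiv.subRight v)]
    refine Finset.sum_congr rfl fun w _ => ?_
    simp only [Equiv.subRight_apply, sub_add_cancel]
    by_cases h : v = w
    · rw [h]; simp
    · have : w - v ≠ 0 := sub_ne_zero.mpr (Ne.symm h)
      rw [if_neg this, if_pos h]
  rw [Finset.sum_congr rfl fun v _ => h6 v, Finset.sum_comm]
  refine Finset.sum_congr rfl fun w _ => ?_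
  unfold Phi
  rw [Finset.sum_filter, Finset.sum_mul]
  refine Finset.sum_congr rfl fun v _ => ?_
  by_cases h : v ≠ w
  · rw [if_pos h, if_pos h]
  · rw [if_neg h, if_neg h, zero_mul]

/-- the main pointwise identity -/
lemma G_identity (B : ZMod n → Om n → ℝ) (hB : ∀ x, B (-x) = B x) (j : ZMod n) (ω : Om n) :
    ∑ x ∈ univ.erase (0 : ZMod n), co (j * x) * (B x ω * De (cl x) (Yv B j) ω) =
      (∑ x ∈ univ.erase (0 : ZMod n), B x ω ^ 2) +
      (∑ x ∈ univ.erase (0 : ZMod n), B x ω ^ 2 * co (j * (2 * x))) -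
      (∑ x ∈ (univ.erase (0 : ZMod n)).filter (fun x => 2 * x = 0), B x ω ^ 2) -
      2 * (∑ x ∈ univ.erase (0 : ZMod n), mx x * (co (j * x) * co (j * x)) *
        (sx x ω * (B x ω * De (cl x) (B x) ω))) +
      ∑ w : ZMod n, Phi B w ω * co (j * w) := by
  rw [← feedback B hB j ω, Finset.sum_filter, Finset.mul_sum, ← Finset.sum_add_distrib,
    ← Finset.sum_sub_distrib, ← Finset.sum_sub_distrib, ← Finset.sum_add_distrib]
  refine Finset.sum_congr rfl fun x hx => ?_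
  rw [De_Yv]
  beta_reduce
  rw [direct B hB x j ω]
  have h := mx_co (ne_of_mem_erase hx) j
  have h2 : (if 2 * x = 0 then B x ω ^ 2 else 0) = B x ω ^ 2 * (if 2 * x = 0 then 1 else 0) := by
    split_ifs <;> simp
  rw [h2]
  linear_combination (B x ω ^ 2) * h

end alg

section stein
variable {n : ℕ} [NeZero n]

lemma stein (B : ZMod n → Om n → ℝ) (j : ZMod n) (G : Om n → ℝ) :
    Ex (fun ω => Yv B j ω * G ω) =
      ∑ x ∈ univ.erase (0 : ZMod n), co (j * x) * Ex (De (cl x) (fun ω => B x ω * G ω)) := by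
  have h1 : (fun ω => Yv B j ω * G ω) = fun ω => ∑ x ∈ univ.erase (0 : ZMod n),
      co (j * x) * (sg (ω (cl x)) * (B x ω * G ω)) := by
    ext ω
    unfold Yv
    rw [Finset.sum_mul]
    refine Finset.sum_congr rfl fun x _ => ?_
    unfold sx
    ring
  rw [h1, Ex_sum]
  refine Finset.sum_congr rfl fun x _ => ?_
  rw [Ex_const_mul, Ex_sg_mul]

/-- the remainder in the chain rule -/
noncomputable def rem (Q : Polynomial ℝ) (B : ZMod n → Om n → ℝ) (e : Fin (n / 2 + 1)) (j : ZMod n) :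
    Om n → ℝ :=
  fun ω => De e (pY Q B j) ω - pY (Polynomial.derivative Q) B j ω * De e (Yv B j) ω

lemma stein_term (Q : Polynomial ℝ) (B : ZMod n → Om n → ℝ) (j x : ZMod n) :
    Ex (De (cl x) (fun ω => B x ω * pY Q B j ω)) =
      Ex (fun ω => pY (Polynomial.derivative Q) B j ω * (B x ω * De (cl x) (Yv B j) ω)) +
      Ex (fun ω => B x ω * rem Q B (cl x) j ω) + Ex (fun ω => pY Q B j ω * De (cl x) (B x) ω) -
      2 * Ex (fun ω => sg (ω (cl x)) * De (cl x) (B x) ω * De (cl x) (pY Q B j) ω) := by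
  rw [De_mul, ← Ex_add, ← Ex_add, ← Ex_const_mul, ← Ex_sub]
  congr 1
  ext ω
  unfold rem
  ring

lemma decomposition (Q : Polynomial ℝ) (B : ZMod n → Om n → ℝ) (j : ZMod n) (S : ℝ) :
    Ex (fun ω => Yv B j ω * pY Q B j ω) - S * Ex (pY (Polynomial.derivative Q) B j) =
      Ex (fun ω => pY (Polynomial.derivative Q) B j ω *
        ((∑ x ∈ univ.erase (0 : ZMod n), co (j * x) * (B x ω * De (cl x) (Yv B j) ω)) - S)) +
      (∑ x ∈ univ.erase (0 : ZMod n), co (j * x) * Ex (fun ω => B x ω * rem Q B (cl x) j ω)) +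
      Ex (fun ω => pY Q B j ω * ∑ x ∈ univ.erase (0 : ZMod n), De (cl x) (B x) ω * co (j * x)) -
      2 * ∑ x ∈ univ.erase (0 : ZMod n), co (j * x) *
        Ex (fun ω => sg (ω (cl x)) * De (cl x) (B x) ω * De (cl x) (pY Q B j) ω) := by
  rw [stein]
  simp only [stein_term]
  have e1 : Ex (fun ω => pY (Polynomial.derivative Q) B j ω *
        ((∑ x ∈ univ.erase (0 : ZMod n), co (j * x) * (B x ω * De (cl x) (Yv B j) ω)) - S)) =
      (∑ x ∈ univ.erase (0 : ZMod n), co (j * x) *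
        Ex (fun ω => pY (Polynomial.derivative Q) B j ω * (B x ω * De (cl x) (Yv B j) ω))) -
      S * Ex (pY (Polynomial.derivative Q) B j) := by
    simp only [← Ex_const_mul]
    rw [← Ex_sum, ← Ex_sub]
    congr 1
    ext ω
    rw [mul_sub, Finset.mul_sum]
    congr 1
    · refine Finset.sum_congr rfl fun x _ => ?_
      ring
    · ring
  have e2 : Ex (fun ω => pY Q B j ω *
      ∑ x ∈ univ.erase (0 : ZMod n), De (cl x) (B x) ω * co (j * x)) =
      ∑ x ∈ univ.erase (0 : ZMod n), co (j * x) *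
        Ex (fun ω => pY Q B j ω * De (cl x) (B x) ω) := by
    simp only [← Ex_const_mul]
    rw [← Ex_sum]
    congr 1
    ext ω
    rw [Finset.mul_sum]
    refine Finset.sum_congr rfl fun x _ => ?_
    ring
  rw [e1, e2, Finset.mul_sum]
  have e3 : ∀ a b : ℝ, a - b = (a - b) := fun _ _ => rfl
  simp only [mul_add, mul_sub, Finset.sum_add_distrib, Finset.sum_sub_distrib]
  have e4 : ∑ x ∈ univ.erase (0 : ZMod n), co (j * x) *
      (2 * Ex (fun ω => sg (ω (cl x)) * De (cl x) (B x) ω * De (cl x) (pY Q B j) ω)) =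
      ∑ x ∈ univ.erase (0 : ZMod n), 2 * (co (j * x) *
        Ex (fun ω => sg (ω (cl x)) * De (cl x) (B x) ω * De (cl x) (pY Q B j) ω)) :=
    Finset.sum_congr rfl fun x _ => by ring
  rw [e4]
  ring

end stein

section bounds
variable {n : ℕ} [NeZero n] {B : ZMod n → Om n → ℝ} {d : ℕ} {C : ℝ} (hI : Inv n B d C)

lemma n_pos : (0 : ℝ) < n := by exact_mod_cast Nat.pos_of_ne_zero (NeZero.ne n)

lemma one_le_sqrt : 1 ≤ Real.sqrt n := by
  rw [Real.one_le_sqrt]
  exact_mod_cast Nat.one_le_iff_ne_zero.mpr (NeZero.ne n)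

include hI in
lemma C_nonneg : 0 ≤ C := by
  have h := hI.b3 0
  have hn : (0 : ℝ) < n := n_pos
  have h0 : 0 ≤ C / n := (Finset.sum_nonneg fun x _ => sq_nonneg _).trans h
  have h1 : C = C / n * n := by field_simp
  rw [h1]
  positivity

include hI in
lemma nrm_B_le {x : ZMod n} (hx : x ≠ 0) : nrm (B x) ≤ Real.sqrt C / Real.sqrt n := by
  rw [← Real.sqrt_div (C_nonneg hI)]
  exact Real.le_sqrt_of_sq_le (hI.b1 x hx)

include hI in
lemma sum_B_le : ∑ x ∈ univ.erase (0 : ZMod n), nrm (B x) ^ 2 ≤ C := by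
  have hn : (0 : ℝ) < n := n_pos
  have hC := C_nonneg hI
  have h1 : ∑ x ∈ univ.erase (0 : ZMod n), nrm (B x) ^ 2 ≤
      ((univ.erase (0 : ZMod n)).card : ℝ) * (C / n) := by
    rw [← nsmul_eq_mul]
    exact Finset.sum_le_card_nsmul _ _ _ fun x hx => hI.b1 x (ne_of_mem_erase hx)
  have h2 : ((univ.erase (0 : ZMod n)).card : ℝ) ≤ n := by
    have := Finset.card_le_card (Finset.erase_subset (0 : ZMod n) univ)
    rw [card_univ, ZMod.card] at this
    exact_mod_cast this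
  calc _ ≤ ((univ.erase (0 : ZMod n)).card : ℝ) * (C / n) := h1
    _ ≤ n * (C / n) := by gcongr
    _ = C := by field_simp

include hI in
lemma sum_dl_le : ∑ x ∈ univ.erase (0 : ZMod n), nrm (De (cl x) (B x)) ^ 2 ≤ C / n := by
  have := hI.b4 0
  simpa only [zero_add] using this

include hI in
lemma sum_s : ∑ j : ZMod n, nrm (fun ω => ∑ x ∈ univ.erase (0 : ZMod n),
    De (cl x) (B x) ω * co (j * x)) ^ 2 ≤ C := by
  have hn : (0 : ℝ) < n := n_pos
  refine (bessel_nrm_X0 (fun x => De (cl x) (B x))).trans ?_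
  calc (n : ℝ) * ∑ x ∈ univ.erase (0 : ZMod n), nrm (De (cl x) (B x)) ^ 2 ≤ n * (C / n) := by
        have := sum_dl_le hI
        gcongr
    _ = C := by field_simp

include hI in
lemma nrm_Bsq {x : ZMod n} (hx : x ≠ 0) : nrm (fun ω => B x ω ^ 2) ^ 2 ≤ 9 ^ d * (C / n) ^ 2 := by
  have hn : (0 : ℝ) < n := n_pos
  rw [nrm_sq]
  have h1 : (fun ω => (B x ω ^ 2) ^ 2) = fun ω => B x ω ^ 4 := by ext ω; ring
  rw [h1]
  refine (Ex_pow_four_le (hI.deg x)).trans ?_
  have h2 := hI.b1 x hx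
  gcongr

include hI in
lemma sum_r : ∑ j : ZMod n, nrm (fun ω => ∑ x ∈ univ.erase (0 : ZMod n),
    B x ω ^ 2 * co (j * (2 * x))) ^ 2 ≤ 2 * 9 ^ d * C ^ 2 := by
  have hn : (0 : ℝ) < n := n_pos
  refine (bessel_two_nrm_X0 (fun x ω => B x ω ^ 2)).trans ?_
  have h1 : ∑ x ∈ univ.erase (0 : ZMod n), nrm (fun ω => B x ω ^ 2) ^ 2 ≤
      ((univ.erase (0 : ZMod n)).card : ℝ) * (9 ^ d * (C / n) ^ 2) := by
    rw [← nsmul_eq_mul]
    exact Finset.sum_le_card_nsmul _ _ _ fun x hx => nrm_Bsq hI (ne_of_mem_erase hx)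
  have h2 : ((univ.erase (0 : ZMod n)).card : ℝ) ≤ n := by
    have := Finset.card_le_card (Finset.erase_subset (0 : ZMod n) univ)
    rw [card_univ, ZMod.card] at this
    exact_mod_cast this
  calc 2 * (n : ℝ) * ∑ x ∈ univ.erase (0 : ZMod n), nrm (fun ω => B x ω ^ 2) ^ 2
      ≤ 2 * n * (n * (9 ^ d * (C / n) ^ 2)) := by
        have h3 := h1.trans (mul_le_mul_of_nonneg_right h2 (by positivity))
        gcongr
    _ = 2 * 9 ^ d * C ^ 2 := by field_simp

include hI in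
lemma q_le : nrm (fun ω => ∑ x ∈ (univ.erase (0 : ZMod n)).filter (fun x => 2 * x = 0),
    B x ω ^ 2) ≤ 2 * (3 ^ d * (C / n)) := by
  have hn : (0 : ℝ) < n := n_pos
  have hC := C_nonneg hI
  refine (nrm_sum_le _ (fun x ω => B x ω ^ 2)).trans ?_
  have h1 : ∀ x ∈ (univ.erase (0 : ZMod n)).filter (fun x => 2 * x = 0),
      nrm (fun ω => B x ω ^ 2) ≤ 3 ^ d * (C / n) := by
    intro x hx
    rw [mem_filter] at hx
    have h2 := nrm_Bsq hI (ne_of_mem_erase hx.1)
    have h3 : (9 : ℝ) ^ d * (C / n) ^ 2 = (3 ^ d * (C / n)) ^ 2 := by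
      rw [mul_pow, ← pow_mul, mul_comm d 2, pow_mul]; norm_num
    rw [h3] at h2
    exact (sq_le_sq₀ (nrm_nonneg _) (by positivity)).mp h2
  refine (Finset.sum_le_card_nsmul _ _ _ h1).trans ?_
  rw [nsmul_eq_mul]
  have h4 := sum_two_mul_le (n := n) (fun y => if y = 0 then 1 else 0)
    (fun y => by split_ifs <;> norm_num) 0
  have h5 : (((univ.erase (0 : ZMod n)).filter (fun x => 2 * x = 0)).card : ℝ) ≤
      ∑ x : ZMod n, (if 0 + 2 * x = 0 then (1 : ℝ) else 0) := by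
    simp only [zero_add]
    rw [Finset.sum_boole]
    have := Finset.card_le_card (Finset.filter_subset_filter (fun x : ZMod n => 2 * x = 0)
      (Finset.erase_subset (0 : ZMod n) univ))
    exact_mod_cast this
  have h6 : ∑ x : ZMod n, (if x = 0 then (1 : ℝ) else 0) = 1 := by simp
  rw [h6] at h4
  gcongr
  linarith

include hI in
lemma p_le (j : ZMod n) : nrm (fun ω => ∑ x ∈ univ.erase (0 : ZMod n),
    mx x * (co (j * x) * co (j * x)) * (sx x ω * (B x ω * De (cl x) (B x) ω))) ≤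
      2 * 3 ^ (d + d) * (Real.sqrt C * Real.sqrt (C / n)) := by
  have hn : (0 : ℝ) < n := n_pos
  have hC := C_nonneg hI
  refine (nrm_sum_le _ (fun x ω => mx x * (co (j * x) * co (j * x)) *
    (sx x ω * (B x ω * De (cl x) (B x) ω)))).trans ?_
  have h1 : ∀ x ∈ univ.erase (0 : ZMod n), nrm (fun ω => mx x * (co (j * x) * co (j * x)) *
      (sx x ω * (B x ω * De (cl x) (B x) ω))) ≤
      2 * 3 ^ (d + d) * (nrm (B x) * nrm (De (cl x) (B x))) := by
    intro x _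
    rw [nrm_const_mul]
    unfold sx
    rw [nrm_sg_mul]
    have h2 := nrm_mul_le (hI.deg x) ((hI.deg x).De (cl x))
    have h3 : |mx x * (co (j * x) * co (j * x))| ≤ 2 := by
      rw [abs_mul, abs_mul, abs_of_nonneg (mx_nonneg x)]
      have h4 := abs_co_le (j * x)
      calc mx x * (|co (j * x)| * |co (j * x)|) ≤ 2 * (1 * 1) := by
            have := mx_le x
            gcongr
        _ = 2 := by norm_num
    calc _ ≤ 2 * (3 ^ (d + d) * (nrm (B x) * nrm (De (cl x) (B x)))) :=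
          mul_le_mul h3 h2 (nrm_nonneg _) (by norm_num)
      _ = _ := by ring
  refine (Finset.sum_le_sum h1).trans ?_
  rw [← Finset.mul_sum]
  have h5 := sum_mul_le_sqrt (univ.erase (0 : ZMod n)) (fun x => nrm (B x))
    (fun x => nrm (De (cl x) (B x))) (sum_B_le hI) (sum_dl_le hI)
  gcongr

include hI in
/-- the terms (b) -/
lemma b_le {Q : Polynomial ℝ} {K : ℝ} (j : ZMod n) (hK : nrm (pY Q B j) ^ 2 ≤ K) :
    |2 * ∑ x ∈ univ.erase (0 : ZMod n), co (j * x) *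
        Ex (fun ω => sg (ω (cl x)) * De (cl x) (B x) ω * De (cl x) (pY Q B j) ω)| ≤
      2 * (Real.sqrt (C / n) * Real.sqrt (2 * ((Q.natDegree * (d + 1) : ℕ) * K))) := by
  rw [abs_mul, abs_two]
  have h1 : ∀ x ∈ univ.erase (0 : ZMod n), |co (j * x) *
        Ex (fun ω => sg (ω (cl x)) * De (cl x) (B x) ω * De (cl x) (pY Q B j) ω)| ≤
      nrm (De (cl x) (B x)) * nrm (De (cl x) (pY Q B j)) := by
    intro x _
    rw [abs_mul]
    have h2 := abs_Ex_mul_le (fun ω => sg (ω (cl x)) * De (cl x) (B x) ω) (De (cl x) (pY Q B j))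
    rw [nrm_sg_mul] at h2
    calc _ ≤ 1 * (nrm (De (cl x) (B x)) * nrm (De (cl x) (pY Q B j))) :=
          mul_le_mul (abs_co_le _) h2 (abs_nonneg _) (by norm_num)
      _ = _ := one_mul _
  have h3 : ∑ x ∈ univ.erase (0 : ZMod n), nrm (De (cl x) (pY Q B j)) ^ 2 ≤
      2 * ((Q.natDegree * (d + 1) : ℕ) * K) := by
    refine (sum_cl_le (fun e => nrm (De e (pY Q B j)) ^ 2) fun e => sq_nonneg _).trans ?_
    have h4 := sum_nrm_De_sq_le (Deg_pY d Q B hI.deg j)
    have h5 : ((Q.natDegree * (d + 1) : ℕ) : ℝ) * nrm (pY Q B j) ^ 2 ≤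
      ((Q.natDegree * (d + 1) : ℕ) : ℝ) * K := by gcongr
    linarith
  have h6 := sum_mul_le_sqrt (univ.erase (0 : ZMod n)) (fun x => nrm (De (cl x) (B x)))
    (fun x => nrm (De (cl x) (pY Q B j))) (sum_dl_le hI) h3
  have h7 := (Finset.abs_sum_le_sum_abs _ _).trans (Finset.sum_le_sum h1)
  have h8 := h7.trans h6
  linarith

include hI in
/-- the terms (c) -/
lemma c_le {Q : Polynomial ℝ} {K K6 : ℝ} (hK6 : 0 ≤ K6) (j : ZMod n) (hK : nrm (Yv B j) ^ 2 ≤ K)
    (h6 : ∀ e, nrm (rem Q B e j) ≤ K6 * nrm (De e (Yv B j)) ^ 2) :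
    |∑ x ∈ univ.erase (0 : ZMod n), co (j * x) * Ex (fun ω => B x ω * rem Q B (cl x) j ω)| ≤
      Real.sqrt C / Real.sqrt n * K6 * (2 * (((d + 1 : ℕ) : ℝ) * K)) := by
  have hC := C_nonneg hI
  have h1 : ∀ x ∈ univ.erase (0 : ZMod n),
      |co (j * x) * Ex (fun ω => B x ω * rem Q B (cl x) j ω)| ≤
      Real.sqrt C / Real.sqrt n * K6 * nrm (De (cl x) (Yv B j)) ^ 2 := by
    intro x hx
    rw [abs_mul]
    have h2 := abs_Ex_mul_le (B x) (rem Q B (cl x) j)
    have h3 := nrm_B_le hI (ne_of_mem_erase hx)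
    have h4 := h6 (cl x)
    have h5 := nrm_nonneg (rem Q B (cl x) j)
    calc |co (j * x)| * |Ex (fun ω => B x ω * rem Q B (cl x) j ω)|
        ≤ 1 * (nrm (B x) * nrm (rem Q B (cl x) j)) :=
          mul_le_mul (abs_co_le _) h2 (abs_nonneg _) (by norm_num)
      _ ≤ 1 * (Real.sqrt C / Real.sqrt n * (K6 * nrm (De (cl x) (Yv B j)) ^ 2)) := by gcongr
      _ = _ := by ring
  refine (Finset.abs_sum_le_sum_abs _ _).trans ((Finset.sum_le_sum h1).trans ?_)
  rw [← Finset.mul_sum]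
  have h3 : ∑ x ∈ univ.erase (0 : ZMod n), nrm (De (cl x) (Yv B j)) ^ 2 ≤
      2 * (((d + 1 : ℕ) : ℝ) * K) := by
    refine (sum_cl_le (fun e => nrm (De e (Yv B j)) ^ 2) fun e => sq_nonneg _).trans ?_
    have h4 := sum_nrm_De_sq_le (S2 d B hI.deg j)
    have h5 : ((d + 1 : ℕ) : ℝ) * nrm (Yv B j) ^ 2 ≤ ((d + 1 : ℕ) : ℝ) * K := by gcongr
    linarith
  gcongr

include hI in
/-- the terms (e) -/
lemma e_le {Q : Polynomial ℝ} {K KV : ℝ} (j : ZMod n)
    (hK : nrm (pY (Polynomial.derivative Q) B j) ^ 2 ≤ K)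
    (hV : nrm (fun ω => (∑ x ∈ univ.erase (0 : ZMod n), B x ω ^ 2)
        - ∑ x ∈ univ.erase (0 : ZMod n), nrm (B x) ^ 2) ^ 2 ≤ KV / n) :
    |Ex (fun ω => pY (Polynomial.derivative Q) B j ω *
        ((∑ x ∈ univ.erase (0 : ZMod n), co (j * x) * (B x ω * De (cl x) (Yv B j) ω)) -
          ∑ x ∈ univ.erase (0 : ZMod n), nrm (B x) ^ 2))| ≤
      Real.sqrt K * (Real.sqrt (KV / n) +
        nrm (fun ω => ∑ x ∈ univ.erase (0 : ZMod n), B x ω ^ 2 * co (j * (2 * x))) +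
        2 * (3 ^ d * (C / n)) + 2 * (2 * 3 ^ (d + d) * (Real.sqrt C * Real.sqrt (C / n))) +
        nrm (fun ω => ∑ w : ZMod n, Phi B w ω * co (j * w))) := by
  refine (abs_Ex_mul_le _ _).trans ?_
  have hK' := Real.le_sqrt_of_sq_le hK
  refine mul_le_mul hK' ?_ (nrm_nonneg _) (Real.sqrt_nonneg _)
  have h1 : (fun ω => (∑ x ∈ univ.erase (0 : ZMod n), co (j * x) * (B x ω * De (cl x) (Yv B j) ω)) -
          ∑ x ∈ univ.erase (0 : ZMod n), nrm (B x) ^ 2) = fun ω =>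
      ((((∑ x ∈ univ.erase (0 : ZMod n), B x ω ^ 2) -
        ∑ x ∈ univ.erase (0 : ZMod n), nrm (B x) ^ 2) +
      (∑ x ∈ univ.erase (0 : ZMod n), B x ω ^ 2 * co (j * (2 * x)))) -
      (∑ x ∈ (univ.erase (0 : ZMod n)).filter (fun x => 2 * x = 0), B x ω ^ 2)) -
      2 * (∑ x ∈ univ.erase (0 : ZMod n), mx x * (co (j * x) * co (j * x)) *
        (sx x ω * (B x ω * De (cl x) (B x) ω))) +
      ∑ w : ZMod n, Phi B w ω * co (j * w) := by
    ext ω
    rw [G_identity B hI.even j ω]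
    ring
  rw [h1]
  refine (nrm_add_le _ _).trans ?_
  refine add_le_add ?_ le_rfl
  refine (nrm_sub_le _ _).trans ?_
  refine add_le_add ?_ ?_
  · refine (nrm_sub_le _ _).trans ?_
    refine add_le_add ?_ (q_le hI)
    refine (nrm_add_le _ _).trans ?_
    exact add_le_add (Real.le_sqrt_of_sq_le hV) le_rfl
  · rw [nrm_const_mul, abs_two]
    have := p_le hI j
    gcongr

end bounds

end SteinS10

open SteinS10 in
/-- (S10) Stein -/
theorem S10 (d : ℕ) (C : ℝ) (Q : Polynomial ℝ) : ∃ C' : ℝ, ∀ (n : ℕ) [NeZero n]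
    (B : ZMod n → Om n → ℝ), Inv n B d C →
      ∑ j : ZMod n, |Ex (fun ω => Yv B j ω * pY Q B j ω)
        - (∑ x ∈ univ.erase (0 : ZMod n), nrm (B x) ^ 2) * Ex (pY (Polynomial.derivative Q) B j)|
        ≤ C' * Real.sqrt n := by
  obtain ⟨K1, h1⟩ := S1 d C
  obtain ⟨K3, h3⟩ := S3 d C Q
  obtain ⟨K3', h3'⟩ := S3 d C (Polynomial.derivative Q)
  obtain ⟨K6, h6⟩ := S6 d C Q
  obtain ⟨KF, hF⟩ := S10F d C
  obtain ⟨KV, hV⟩ := S10V d C
  set κ : ℝ := 2 * (Real.sqrt C * Real.sqrt (2 * ((Q.natDegree * (d + 1) : ℕ) * K3))) +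
    Real.sqrt C * |K6| * (2 * (((d + 1 : ℕ) : ℝ) * K1)) +
    Real.sqrt K3' * (Real.sqrt KV + 2 * (3 ^ d * C) +
      2 * (2 * 3 ^ (d + d) * (Real.sqrt C * Real.sqrt C))) with hκ
  refine ⟨κ + Real.sqrt K3 * Real.sqrt C + Real.sqrt K3' * Real.sqrt (2 * 9 ^ d * C ^ 2) +
    Real.sqrt K3' * Real.sqrt KF, ?_⟩
  intro n _ B hI
  have hn : (0 : ℝ) < n := n_pos
  have hC := C_nonneg hI
  have hs1 : 1 ≤ Real.sqrt n := one_le_sqrt
  have hs0 : 0 < Real.sqrt n := by linarith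
  have hss : Real.sqrt n * Real.sqrt n = n := Real.mul_self_sqrt hn.le
  have hCn : Real.sqrt (C / n) = Real.sqrt C / Real.sqrt n := Real.sqrt_div hC _
  have hKV0 : 0 ≤ KV := by
    have h0 : 0 ≤ KV / n := (sq_nonneg _).trans (hV n B hI)
    have h1 : KV = KV / n * n := by field_simp
    rw [h1]; positivity
  have hKVn : Real.sqrt (KV / n) = Real.sqrt KV / Real.sqrt n := Real.sqrt_div hKV0 _
  have hCn' : C / n ≤ C / Real.sqrt n := by
    have : Real.sqrt n ≤ n := by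
      calc Real.sqrt n = Real.sqrt n * 1 := (mul_one _).symm
        _ ≤ Real.sqrt n * Real.sqrt n := by gcongr
        _ = n := hss
    gcongr
  have hj : ∀ j : ZMod n, |Ex (fun ω => Yv B j ω * pY Q B j ω)
        - (∑ x ∈ univ.erase (0 : ZMod n), nrm (B x) ^ 2) * Ex (pY (Polynomial.derivative Q) B j)| ≤
      κ / Real.sqrt n +
      Real.sqrt K3 * nrm (fun ω => ∑ x ∈ univ.erase (0 : ZMod n),
        De (cl x) (B x) ω * co (j * x)) +
      Real.sqrt K3' * nrm (fun ω => ∑ x ∈ univ.erase (0 : ZMod n),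
        B x ω ^ 2 * co (j * (2 * x))) +
      Real.sqrt K3' * nrm (fun ω => ∑ w : ZMod n, Phi B w ω * co (j * w)) := by
    intro j
    rw [decomposition]
    have e1 := e_le hI (Q := Q) j (h3' n B hI j) (hV n B hI)
    have e2 := c_le hI (Q := Q) (abs_nonneg K6) j (h1 n B hI j) (fun e =>
      (h6 n B hI e j).trans (mul_le_mul_of_nonneg_right (le_abs_self _) (sq_nonneg _)))
    have e3 := (abs_Ex_mul_le (pY Q B j) (fun ω => ∑ x ∈ univ.erase (0 : ZMod n),
      De (cl x) (B x) ω * co (j * x))).trans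
      (mul_le_mul_of_nonneg_right (Real.le_sqrt_of_sq_le (h3 n B hI j)) (nrm_nonneg _))
    have e4 := b_le hI (Q := Q) j (h3 n B hI j)
    rw [hCn] at e1 e4
    rw [hKVn] at e1
    have e5 : Real.sqrt K3' * (Real.sqrt KV / Real.sqrt n +
        nrm (fun ω => ∑ x ∈ univ.erase (0 : ZMod n), B x ω ^ 2 * co (j * (2 * x))) +
        2 * (3 ^ d * (C / n)) + 2 * (2 * 3 ^ (d + d) * (Real.sqrt C * (Real.sqrt C / Real.sqrt n))) +
        nrm (fun ω => ∑ w : ZMod n, Phi B w ω * co (j * w))) ≤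
        Real.sqrt K3' * (Real.sqrt KV / Real.sqrt n +
        nrm (fun ω => ∑ x ∈ univ.erase (0 : ZMod n), B x ω ^ 2 * co (j * (2 * x))) +
        2 * (3 ^ d * (C / Real.sqrt n)) +
        2 * (2 * 3 ^ (d + d) * (Real.sqrt C * (Real.sqrt C / Real.sqrt n))) +
        nrm (fun ω => ∑ w : ZMod n, Phi B w ω * co (j * w))) := by
      have := Real.sqrt_nonneg K3'
      gcongr
    have e6 : κ / Real.sqrt n = 2 * (Real.sqrt C / Real.sqrt n *
        Real.sqrt (2 * ((Q.natDegree * (d + 1) : ℕ) * K3))) +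
        Real.sqrt C / Real.sqrt n * |K6| * (2 * (((d + 1 : ℕ) : ℝ) * K1)) +
        Real.sqrt K3' * (Real.sqrt KV / Real.sqrt n + 2 * (3 ^ d * (C / Real.sqrt n)) +
        2 * (2 * 3 ^ (d + d) * (Real.sqrt C * (Real.sqrt C / Real.sqrt n)))) := by
      rw [hκ]; ring
    rw [e6]
    refine (abs_sub _ _).trans ?_
    refine (add_le_add ((abs_add_three _ _ _).trans
      (add_le_add (add_le_add (e1.trans e5) e2) e3)) e4).trans (le_of_eq ?_)
    ring
  refine (Finset.sum_le_sum fun j _ => hj j).trans ?_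
  rw [Finset.sum_add_distrib, Finset.sum_add_distrib, Finset.sum_add_distrib, Finset.sum_const,
    card_univ, ZMod.card, nsmul_eq_mul, ← Finset.mul_sum, ← Finset.mul_sum, ← Finset.mul_sum]
  have g1 := sum_le_sqrt _ (sum_s hI)
  have g2 := sum_le_sqrt _ (sum_r hI)
  have g3 : ∑ j : ZMod n, nrm (fun ω => ∑ w : ZMod n, Phi B w ω * co (j * w)) ≤
      Real.sqrt KF * Real.sqrt n := by
    refine sum_le_sqrt _ ((SteinS10.bessel_nrm (SteinS10.Phi B)).trans ?_)
    have h0 : ∑ w : ZMod n, nrm (Phi B w) ^ 2 ≤ KF / n := hF n B hI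
    calc (n : ℝ) * ∑ w : ZMod n, nrm (Phi B w) ^ 2 ≤ n * (KF / n) := by gcongr
      _ = KF := by field_simp
  have g0 : (n : ℝ) * (κ / Real.sqrt n) = κ * Real.sqrt n := by
    rw [mul_div_assoc', div_eq_iff hs0.ne']
    rw [mul_assoc, hss]; ring
  rw [g0]
  have k3 := Real.sqrt_nonneg K3
  have k3' := Real.sqrt_nonneg K3'
  calc _ ≤ κ * Real.sqrt n + Real.sqrt K3 * (Real.sqrt C * Real.sqrt n) +
        Real.sqrt K3' * (Real.sqrt (2 * 9 ^ d * C ^ 2) * Real.sqrt n) +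
        Real.sqrt K3' * (Real.sqrt KF * Real.sqrt n) := by gcongr
    _ = _ := by ring

end Pool.Agent.CTheta
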