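import Pool.Agent.Work.MP_2c2d16_pr.SE.S9
import Pool.Agent.Work.MP_2c2d16_pr.SE.S10
import Pool.Agent.Work.MP_2c2d16_pr.SE.GaussPoly

set_option autoImplicit false

/-!
# Means of the polynomial fields (S16), back transforms (S17), energy of the next layer (S13)
-/

namespace Pool.Agent.CTheta

open Finset

section S16

/-- the statement of (S16) for one polynomial -/
def P16 (d : ℕ) (C : ℝ) (Q : Polynomial ℝ) : Prop := ∃ C' : ℝ, ∀ (n : ℕ) [NeZero n]
    (B : ZMod n → Om n → ℝ), Inv n B d C →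
      ∑ j : ZMod n, |Ex (pY Q B j) - gE Q| ≤ C' * Real.sqrt n

theorem pY_C_mul (c : ℝ) (Q : Polynomial ℝ) {n : ℕ} [NeZero n] (B : ZMod n → Om n → ℝ)
    (j : ZMod n) : pY (Polynomial.C c * Q) B j = fun ω => c * pY Q B j ω := by
  funext ω; simp [pY]

theorem pY_X_mul (Q : Polynomial ℝ) {n : ℕ} [NeZero n] (B : ZMod n → Om n → ℝ)
    (j : ZMod n) : pY (Polynomial.X * Q) B j = fun ω => Yv B j ω * pY Q B j ω := by
  funext ω; simp [pY]

theorem pY_one {n : ℕ} [NeZero n] (B : ZMod n → Om n → ℝ)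
    (j : ZMod n) : pY 1 B j = fun _ => 1 := by
  funext ω; simp [pY]

theorem P16_add {d : ℕ} {C : ℝ} {P Q : Polynomial ℝ} (hP : P16 d C P) (hQ : P16 d C Q) :
    P16 d C (P + Q) := by
  obtain ⟨a, ha⟩ := hP
  obtain ⟨b, hb⟩ := hQ
  refine ⟨a + b, ?_⟩
  intro n _ B hB
  calc ∑ j : ZMod n, |Ex (pY (P + Q) B j) - gE (P + Q)|
      ≤ ∑ j : ZMod n, (|Ex (pY P B j) - gE P| + |Ex (pY Q B j) - gE Q|) := by
        refine Finset.sum_le_sum fun j _ => ?_
        rw [pY_add, Ex_add, gE_add]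
        have : Ex (pY P B j) + Ex (pY Q B j) - (gE P + gE Q)
            = (Ex (pY P B j) - gE P) + (Ex (pY Q B j) - gE Q) := by ring
        rw [show (Ex fun ω => pY P B j ω) = Ex (pY P B j) from rfl,
          show (Ex fun ω => pY Q B j ω) = Ex (pY Q B j) from rfl, this]
        exact abs_add_le _ _
    _ ≤ a * Real.sqrt n + b * Real.sqrt n := by
        rw [Finset.sum_add_distrib]; exact add_le_add (ha n B hB) (hb n B hB)
    _ = (a + b) * Real.sqrt n := by ring

theorem P16_C_mul {d : ℕ} {C : ℝ} {Q : Polynomial ℝ} (c : ℝ) (hQ : P16 d C Q) :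
    P16 d C (Polynomial.C c * Q) := by
  obtain ⟨b, hb⟩ := hQ
  refine ⟨|c| * b, ?_⟩
  intro n _ B hB
  calc ∑ j : ZMod n, |Ex (pY (Polynomial.C c * Q) B j) - gE (Polynomial.C c * Q)|
      = |c| * ∑ j : ZMod n, |Ex (pY Q B j) - gE Q| := by
        rw [Finset.mul_sum]
        refine Finset.sum_congr rfl fun j _ => ?_
        rw [pY_C_mul, Ex_const_mul, gE_smul, ← mul_sub, abs_mul]
    _ ≤ |c| * (b * Real.sqrt n) := mul_le_mul_of_nonneg_left (hb n B hB) (abs_nonneg c)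
    _ = |c| * b * Real.sqrt n := by ring

theorem P16_one (d : ℕ) (C : ℝ) : P16 d C 1 := by
  refine ⟨0, ?_⟩
  intro n _ B _
  have : ∀ j : ZMod n, |Ex (pY 1 B j) - gE 1| = 0 := by
    intro j; rw [pY_one, Ex_const, gE_one]; simp
  rw [Finset.sum_congr rfl fun j _ => this j]
  simp

theorem P16_X_mul {d : ℕ} {C : ℝ} {Q : Polynomial ℝ} (hQ : P16 d C (Polynomial.derivative Q)) :
    P16 d C (Polynomial.X * Q) := by
  obtain ⟨a, ha⟩ := hQ
  obtain ⟨b, hb⟩ := S10 d C Q
  obtain ⟨c, hc⟩ := S3 d C (Polynomial.derivative Q)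
  refine ⟨b + C * Real.sqrt c + a, ?_⟩
  intro n _ B hB
  have hn : (0 : ℝ) < n := by
    have := NeZero.pos n
    exact_mod_cast this
  have hsn : 0 < Real.sqrt n := Real.sqrt_pos.2 hn
  set s := ∑ x ∈ univ.erase (0 : ZMod n), nrm (B x) ^ 2 with hs
  have hb0 : |s - 1| ≤ C / Real.sqrt n := hB.b0
  have hM : ∀ j, |Ex (pY (Polynomial.derivative Q) B j)| ≤ Real.sqrt c := fun j => by
    refine (abs_Ex_le _).trans ?_
    rw [← Real.sqrt_sq (nrm_nonneg (pY (Polynomial.derivative Q) B j))]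
    exact Real.sqrt_le_sqrt (hc n B hB j)
  calc ∑ j : ZMod n, |Ex (pY (Polynomial.X * Q) B j) - gE (Polynomial.X * Q)|
      ≤ ∑ j : ZMod n, (|Ex (fun ω => Yv B j ω * pY Q B j ω)
          - s * Ex (pY (Polynomial.derivative Q) B j)|
          + (C / Real.sqrt n) * Real.sqrt c
          + |Ex (pY (Polynomial.derivative Q) B j) - gE (Polynomial.derivative Q)|) := by
        refine Finset.sum_le_sum fun j _ => ?_
        rw [pY_X_mul, gE_X_mul]
        set x := Ex (fun ω => Yv B j ω * pY Q B j ω)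
        set y := Ex (pY (Polynomial.derivative Q) B j) with hy
        set g := gE (Polynomial.derivative Q)
        have e1 : x - g = (x - s * y) + ((s - 1) * y + (y - g)) := by ring
        rw [e1]
        have e2 : |(s - 1) * y| ≤ (C / Real.sqrt n) * Real.sqrt c := by
          rw [abs_mul]
          exact mul_le_mul hb0 (hM j) (abs_nonneg _) ((abs_nonneg _).trans hb0)
        calc |(x - s * y) + ((s - 1) * y + (y - g))|
            ≤ |x - s * y| + |(s - 1) * y + (y - g)| := abs_add_le _ _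
          _ ≤ |x - s * y| + (|(s - 1) * y| + |y - g|) := by gcongr; exact abs_add_le _ _
          _ ≤ _ := by linarith
    _ = (∑ j : ZMod n, |Ex (fun ω => Yv B j ω * pY Q B j ω)
          - s * Ex (pY (Polynomial.derivative Q) B j)|)
          + n * ((C / Real.sqrt n) * Real.sqrt c)
          + ∑ j : ZMod n, |Ex (pY (Polynomial.derivative Q) B j) - gE (Polynomial.derivative Q)| := by
        rw [Finset.sum_add_distrib, Finset.sum_add_distrib, Finset.sum_const, Finset.card_univ,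
          ZMod.card, nsmul_eq_mul]
    _ ≤ b * Real.sqrt n + C * Real.sqrt c * Real.sqrt n + a * Real.sqrt n := by
        have h1 := hb n B hB
        have h2 := ha n B hB
        have h3 : (n : ℝ) * ((C / Real.sqrt n) * Real.sqrt c) = C * Real.sqrt c * Real.sqrt n := by
          have : (n : ℝ) = Real.sqrt n * Real.sqrt n := (Real.mul_self_sqrt hn.le).symm
          calc (n : ℝ) * ((C / Real.sqrt n) * Real.sqrt c)
              = (Real.sqrt n * Real.sqrt n) * ((C / Real.sqrt n) * Real.sqrt c) := by rw [← this]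
            _ = _ := by field_simp
        rw [h3]
        gcongr
    _ = (b + C * Real.sqrt c + a) * Real.sqrt n := by ring

theorem P16_X_pow (d : ℕ) (C : ℝ) (k : ℕ) : P16 d C (Polynomial.X ^ k) := by
  induction k using Nat.strong_induction_on with
  | _ k ih =>
    rcases k with _ | k
    · simpa using P16_one d C
    · rw [pow_succ']
      apply P16_X_mul
      rcases k with _ | k
      · simp only [pow_zero, Polynomial.derivative_one]
        have := P16_C_mul (d := d) (C := C) 0 (P16_one d C)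
        simpa using this
      · rw [Polynomial.derivative_X_pow]
        exact P16_C_mul _ (ih k (by omega))

/-- (S16) Theorem A, means -/
theorem S16 (d : ℕ) (C : ℝ) (Q : Polynomial ℝ) : ∃ C' : ℝ, ∀ (n : ℕ) [NeZero n]
    (B : ZMod n → Om n → ℝ), Inv n B d C →
      ∑ j : ZMod n, |Ex (pY Q B j) - gE Q| ≤ C' * Real.sqrt n := by
  change P16 d C Q
  induction Q using Polynomial.induction_on' with
  | add p q hp hq => exact P16_add hp hq
  | monomial k a =>
    rw [← Polynomial.C_mul_X_pow_eq_monomial]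
    exact P16_C_mul a (P16_X_pow d C k)

end S16

section S17

theorem nrm_sub_const_sq {E : Type} [Fintype E] [DecidableEq E] (F : (E → Bool) → ℝ) (c : ℝ) :
    nrm (fun ω => F ω - c) ^ 2 = nrm (fun ω => F ω - Ex F) ^ 2 + (Ex F - c) ^ 2 := by
  have h := nrm_sq_eq_var_add (fun ω => F ω - c)
  have h1 : Ex (fun ω => F ω - c) = Ex F - c := by rw [Ex_sub, Ex_const]
  rw [h1] at h
  rw [h]
  congr 3
  funext ω; ring

/-- (S17) -/
theorem S17 (d : ℕ) (C : ℝ) (Q : Polynomial ℝ) : ∃ C' : ℝ, ∀ (n : ℕ) [NeZero n]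
    (B : ZMod n → Om n → ℝ), Inv n B d C →
      (∀ w : ZMod n, w ≠ 0 → nrm (bt (pY Q B) w) ^ 2 ≤ C' / n) ∧
      nrm (fun ω => bt (pY Q B) 0 ω - gE Q) ^ 2 ≤ C' / n := by
  obtain ⟨a, ha⟩ := S16 d C Q
  obtain ⟨b, hb⟩ := S9 d C Q
  refine ⟨b + a ^ 2, ?_⟩
  intro n _ B hB
  have hn : (0 : ℝ) < n := by
    have := NeZero.pos n
    exact_mod_cast this
  have key : ∀ w : ZMod n,
      nrm (fun ω => bt (pY Q B) w ω - (if w = 0 then gE Q else 0)) ^ 2 ≤ (b + a ^ 2) / n := by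
    intro w
    rw [nrm_sub_const_sq]
    have h1 := (var_le (bt (pY Q B) w)).trans (hb n B hB w)
    have h2 : Ex (bt (pY Q B) w) - (if w = 0 then gE Q else 0)
        = (∑ j : ZMod n, (Ex (pY Q B j) - gE Q) * co (j * w)) / n := by
      have e1 : Ex (bt (pY Q B) w) = (∑ j : ZMod n, Ex (pY Q B j) * co (j * w)) / n := by
        have : bt (pY Q B) w = fun ω => (1 / (n : ℝ)) * ∑ j : ZMod n, co (j * w) * pY Q B j ω := by
          funext ω
          simp only [bt]
          rw [div_eq_mul_inv, one_div, mul_comm]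
          congr 1
          exact Finset.sum_congr rfl fun j _ => mul_comm _ _
        rw [this, Ex_const_mul, Ex_sum]
        simp_rw [Ex_const_mul]
        rw [one_div, div_eq_mul_inv, mul_comm]
        congr 1
        exact Finset.sum_congr rfl fun j _ => mul_comm _ _
      have e2 : (if w = 0 then gE Q else 0) = (∑ j : ZMod n, gE Q * co (j * w)) / n := by
        rw [← Finset.mul_sum, sum_co_mul]
        split_ifs with h
        · field_simp
        · simp
      rw [e1, e2, ← sub_div, ← Finset.sum_sub_distrib]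
      congr 1
      exact Finset.sum_congr rfl fun j _ => by ring
    have h3 : |∑ j : ZMod n, (Ex (pY Q B j) - gE Q) * co (j * w)| ≤ a * Real.sqrt n := by
      refine (Finset.abs_sum_le_sum_abs _ _).trans (le_trans ?_ (ha n B hB))
      refine Finset.sum_le_sum fun j _ => ?_
      rw [abs_mul]
      exact mul_le_of_le_one_right (abs_nonneg _) (abs_co_le _)
    have h4 : (Ex (bt (pY Q B) w) - (if w = 0 then gE Q else 0)) ^ 2 ≤ a ^ 2 / n := by
      rw [h2, div_pow, ← sq_abs]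
      calc |∑ j : ZMod n, (Ex (pY Q B j) - gE Q) * co (j * w)| ^ 2 / (n : ℝ) ^ 2
          ≤ (a * Real.sqrt n) ^ 2 / (n : ℝ) ^ 2 := by
            gcongr
        _ = a ^ 2 / n := by
            rw [mul_pow, Real.sq_sqrt hn.le]; field_simp
    calc _ ≤ b / n + a ^ 2 / n := add_le_add h1 h4
      _ = (b + a ^ 2) / n := by ring
  constructor
  · intro w hw
    have := key w
    rw [if_neg hw] at this
    simpa using this
  · simpa using key 0

end S17

section S13

/-- (S13) -/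
theorem S13 (d : ℕ) (C κ : ℝ) (ψ : Polynomial ℝ) (h0 : gE ψ = 0) (h2 : κ ^ 2 + gE (ψ ^ 2) = 1) :
    ∃ C' : ℝ, ∀ (n : ℕ) [NeZero n] (B : ZMod n → Om n → ℝ), Inv n B d C →
      |(∑ x ∈ univ.erase (0 : ZMod n), nrm (nextB κ ψ B x) ^ 2) - 1| ≤ C' / Real.sqrt n := by
  obtain ⟨a, ha⟩ := S16 d C (ψ ^ 2)
  obtain ⟨b, hb⟩ := S17 d C ψ
  obtain ⟨c, hc⟩ := S3 d C ψ
  refine ⟨2 * |κ| * Real.sqrt c + a + (2 * κ ^ 2 + 2 * b), ?_⟩
  intro n _ B hB
  have hn : (0 : ℝ) < n := by
    have := NeZero.pos n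
    exact_mod_cast this
  have hn1 : (1 : ℝ) ≤ n := by
    have := NeZero.pos n
    exact_mod_cast this
  have hsn : 0 < Real.sqrt n := Real.sqrt_pos.2 hn
  have hss : Real.sqrt n * Real.sqrt n = n := Real.mul_self_sqrt hn.le
  have hs1 : 1 ≤ Real.sqrt n := by rw [← Real.sqrt_one]; exact Real.sqrt_le_sqrt hn1
  -- pointwise identity
  have hpt : ∀ ω, ∑ x : ZMod n, (nextB κ ψ B x ω) ^ 2
      = κ ^ 2 + 2 * (κ / Real.sqrt n) * pY ψ B 0 ω + (∑ j : ZMod n, pY (ψ ^ 2) B j ω) / n := by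
    intro ω
    have e1 : ∑ x : ZMod n, bt (pY ψ B) x ω = pY ψ B 0 ω := by
      simp only [bt]
      rw [← Finset.sum_div, Finset.sum_comm]
      simp_rw [← Finset.mul_sum, sum_co_mul']
      simp only [mul_ite, mul_zero, Finset.sum_ite_eq', Finset.mem_univ, if_true]
      field_simp
    have e2 : ∑ x : ZMod n, (bt (pY ψ B) x ω) ^ 2 = (∑ j : ZMod n, pY (ψ ^ 2) B j ω) / n := by
      have hpar := parseval (fun j => pY ψ B j ω) (fun j => pY ψ B j ω)
        (fun j => by rw [pY_neg])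
      have : ∀ x : ZMod n, (bt (pY ψ B) x ω) ^ 2
          = ((∑ j : ZMod n, pY ψ B j ω * co (j * x)) * (∑ j : ZMod n, pY ψ B j ω * co (j * x)))
            / (n : ℝ) ^ 2 := by
        intro x; simp only [bt]; rw [div_pow, sq (∑ j : ZMod n, pY ψ B j ω * co (j * x))]
      simp_rw [this]
      rw [← Finset.sum_div, hpar]
      have e3 : ∀ j : ZMod n, pY (ψ ^ 2) B j ω = pY ψ B j ω * pY ψ B j ω := by
        intro j; simp [pY, sq]
      simp_rw [e3]
      field_simp
    calc ∑ x : ZMod n, (nextB κ ψ B x ω) ^ 2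
        = ∑ x : ZMod n, ((κ / Real.sqrt n) ^ 2 + 2 * (κ / Real.sqrt n) * bt (pY ψ B) x ω
          + (bt (pY ψ B) x ω) ^ 2) := by
          refine Finset.sum_congr rfl fun x _ => ?_
          simp only [nextB]; ring
      _ = n * (κ / Real.sqrt n) ^ 2 + 2 * (κ / Real.sqrt n) * pY ψ B 0 ω
          + (∑ j : ZMod n, pY (ψ ^ 2) B j ω) / n := by
          rw [Finset.sum_add_distrib, Finset.sum_add_distrib, ← Finset.mul_sum, e1, e2,
            Finset.sum_const, Finset.card_univ, ZMod.card, nsmul_eq_mul]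
      _ = _ := by
          rw [div_pow, Real.sq_sqrt hn.le]; field_simp
  -- expectation
  have hEx : ∑ x : ZMod n, nrm (nextB κ ψ B x) ^ 2
      = κ ^ 2 + 2 * (κ / Real.sqrt n) * Ex (pY ψ B 0) + (∑ j : ZMod n, Ex (pY (ψ ^ 2) B j)) / n := by
    simp_rw [nrm_sq]
    rw [← Ex_sum]
    have : (fun ω => ∑ x : ZMod n, (nextB κ ψ B x ω) ^ 2)
        = fun ω => (κ ^ 2 + 2 * (κ / Real.sqrt n) * pY ψ B 0 ω)
          + (1 / (n : ℝ)) * ∑ j : ZMod n, pY (ψ ^ 2) B j ω := by
      funext ω; rw [hpt ω]; ring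
    rw [this, Ex_add, Ex_add, Ex_const, Ex_const_mul, Ex_const_mul, Ex_sum]
    ring
  have hsplit : ∑ x ∈ univ.erase (0 : ZMod n), nrm (nextB κ ψ B x) ^ 2
      = ∑ x : ZMod n, nrm (nextB κ ψ B x) ^ 2 - nrm (nextB κ ψ B 0) ^ 2 := by
    rw [← Finset.add_sum_erase univ _ (Finset.mem_univ (0 : ZMod n))]; ring
  -- the zero term
  have hz : nrm (nextB κ ψ B 0) ^ 2 ≤ (2 * κ ^ 2 + 2 * b) / n := by
    have h3 := (hb n B hB).2
    rw [h0] at h3
    simp only [sub_zero] at h3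
    have h4 : nrm (nextB κ ψ B 0) ^ 2 ≤ 2 * nrm (fun _ : Om n => κ / Real.sqrt n) ^ 2
        + 2 * nrm (bt (pY ψ B) 0) ^ 2 := nrm_add_sq_le _ _
    rw [nrm_const, sq_abs, div_pow, Real.sq_sqrt hn.le] at h4
    have h5 : nrm (bt (pY ψ B) 0) ^ 2 ≤ b / n := h3
    calc _ ≤ _ := h4
      _ ≤ 2 * (κ ^ 2 / n) + 2 * (b / n) := by linarith
      _ = (2 * κ ^ 2 + 2 * b) / n := by ring
  have hz' : nrm (nextB κ ψ B 0) ^ 2 ≤ (2 * κ ^ 2 + 2 * b) / Real.sqrt n := by
    refine hz.trans ?_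
    have hnum : 0 ≤ (2 * κ ^ 2 + 2 * b) := by
      have := (sq_nonneg (nrm (nextB κ ψ B 0))).trans hz
      rcases le_or_gt 0 (2 * κ ^ 2 + 2 * b) with h | h
      · exact h
      · exact absurd this (not_le.2 (div_neg_of_neg_of_pos h hn))
    apply div_le_div_of_nonneg_left hnum hsn
    nlinarith
  -- main terms
  have hm1 : |2 * (κ / Real.sqrt n) * Ex (pY ψ B 0)| ≤ 2 * |κ| * Real.sqrt c / Real.sqrt n := by
    have h3 : |Ex (pY ψ B 0)| ≤ Real.sqrt c := by
      refine (abs_Ex_le _).trans ?_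
      rw [← Real.sqrt_sq (nrm_nonneg (pY ψ B 0))]
      exact Real.sqrt_le_sqrt (hc n B hB 0)
    rw [abs_mul, abs_mul, abs_div, abs_of_pos hsn, abs_two]
    calc 2 * (|κ| / Real.sqrt n) * |Ex (pY ψ B 0)| ≤ 2 * (|κ| / Real.sqrt n) * Real.sqrt c := by
          gcongr
      _ = _ := by ring
  have hm2 : |(∑ j : ZMod n, Ex (pY (ψ ^ 2) B j)) / n - gE (ψ ^ 2)| ≤ a / Real.sqrt n := by
    have h3 : (∑ j : ZMod n, Ex (pY (ψ ^ 2) B j)) / n - gE (ψ ^ 2)
        = (∑ j : ZMod n, (Ex (pY (ψ ^ 2) B j) - gE (ψ ^ 2))) / n := by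
      rw [Finset.sum_sub_distrib, Finset.sum_const, Finset.card_univ, ZMod.card, nsmul_eq_mul]
      field_simp
    rw [h3, abs_div, abs_of_pos hn]
    have h4 : |∑ j : ZMod n, (Ex (pY (ψ ^ 2) B j) - gE (ψ ^ 2))| ≤ a * Real.sqrt n :=
      (Finset.abs_sum_le_sum_abs _ _).trans (ha n B hB)
    calc _ ≤ a * Real.sqrt n / n := by gcongr
      _ = a * Real.sqrt n / (Real.sqrt n * Real.sqrt n) := by rw [hss]
      _ = a / Real.sqrt n := by field_simp
  have hz0 : 0 ≤ nrm (nextB κ ψ B 0) ^ 2 := sq_nonneg _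
  rw [hsplit, hEx]
  have hfin : κ ^ 2 + 2 * (κ / Real.sqrt n) * Ex (pY ψ B 0)
      + (∑ j : ZMod n, Ex (pY (ψ ^ 2) B j)) / n - nrm (nextB κ ψ B 0) ^ 2 - 1
      = 2 * (κ / Real.sqrt n) * Ex (pY ψ B 0)
        + (((∑ j : ZMod n, Ex (pY (ψ ^ 2) B j)) / n - gE (ψ ^ 2))
          - nrm (nextB κ ψ B 0) ^ 2) := by
    rw [← h2]; ring
  rw [hfin]
  have hA : |((∑ j : ZMod n, Ex (pY (ψ ^ 2) B j)) / n - gE (ψ ^ 2)) - nrm (nextB κ ψ B 0) ^ 2|
      ≤ a / Real.sqrt n + (2 * κ ^ 2 + 2 * b) / Real.sqrt n := by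
    refine (abs_sub _ _).trans ?_
    rw [abs_of_nonneg hz0]
    exact add_le_add hm2 hz'
  calc _ ≤ |2 * (κ / Real.sqrt n) * Ex (pY ψ B 0)| + _ := abs_add_le _ _
    _ ≤ 2 * |κ| * Real.sqrt c / Real.sqrt n
        + (a / Real.sqrt n + (2 * κ ^ 2 + 2 * b) / Real.sqrt n) := add_le_add hm1 hA
    _ = _ := by ring

end S13

end Pool.Agent.CTheta
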