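import Pool.Agent.Work.MP_2c2d16_pr.SE.ToolsS

set_option autoImplicit false

namespace Pool.Agent.CTheta

open Finset

/-- (S7) -/
theorem S7 (d : ℕ) (C : ℝ) (R : Polynomial ℝ) : ∃ C' : ℝ, ∀ (n : ℕ) [NeZero n]
    (B : ZMod n → Om n → ℝ), Inv n B d C → ∀ w : ZMod n,
      ∑ u ∈ univ.erase (0 : ZMod n), nrm (fun ω => ∑ v ∈ univ.erase (0 : ZMod n),
        sx v ω * (bt (pY R B) (w + u + v) ω * De (cl u) (B v) ω)) ^ 2 ≤ C' / n := by
  obtain ⟨C3, hC3, h3⟩ := S3b d C R
  obtain ⟨C5, hC5, h5⟩ := S5b d C R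
  set D1 : ℕ := R.natDegree * (d + 1) with hD1
  refine ⟨4 * ((D1 + d : ℕ) + 1) * (3 ^ (D1 + d) * (C3 * C))
    + 2 * (3 * (9 ^ (D1 + d) * (C3 * (2 * (d * C))) + 9 ^ (d + D1) * (C * C5)
      + 2 ^ 2 * 9 ^ (D1 + d) * (C3 * (2 * (d * C))))), ?_⟩
  intro n _ B hB w
  have hC := hB.C_nonneg
  have hn : (0 : ℝ) < n := by exact_mod_cast Nat.pos_of_ne_zero (NeZero.ne n)
  set β : ZMod n → Om n → ℝ := bt (pY R B) with hβ
  have hβd : ∀ x, Deg D1 (β x) := fun x => Deg_bt _ (fun j => Deg_pY d R B hB.deg j) x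
  -- the delta function
  set δ : ZMod n → Om n → ℝ := fun v => De (cl v) (B v) with hδ
  have hδd : ∀ v, Deg d (δ v) := fun v => (hB.deg v).De _
  have hδs : ∑ v ∈ univ.erase (0 : ZMod n), nrm (δ v) ^ 2 ≤ C / n := by
    have := hB.b4 0
    simpa using this
  -- step 1: Lemma A for each u
  have stepA : ∀ u : ZMod n, nrm (fun ω => ∑ v ∈ univ.erase (0 : ZMod n),
        sx v ω * (β (w + u + v) ω * De (cl u) (B v) ω)) ^ 2
      ≤ 4 * ((D1 + d : ℕ) + 1) * ∑ v ∈ univ.erase (0 : ZMod n),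
          nrm (fun ω => β (w + u + v) ω * De (cl u) (B v) ω) ^ 2
        + 2 * nrm (fun ω => ∑ v ∈ univ.erase (0 : ZMod n),
          De (cl v) (fun ω => β (w + u + v) ω * De (cl u) (B v) ω) ω) ^ 2 := by
    intro u
    exact lemmaA' (T := fun v ω => β (w + u + v) ω * De (cl u) (B v) ω)
      (fun v => (hβd _).mul ((hB.deg v).De _))
  -- Hilbert-Schmidt part
  have HS : ∑ u ∈ univ.erase (0 : ZMod n), ∑ v ∈ univ.erase (0 : ZMod n),
      nrm (fun ω => β (w + u + v) ω * De (cl u) (B v) ω) ^ 2 ≤ 3 ^ (D1 + d) * (C3 * C) / n := by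
    calc ∑ u ∈ univ.erase (0 : ZMod n), ∑ v ∈ univ.erase (0 : ZMod n),
          nrm (fun ω => β (w + u + v) ω * De (cl u) (B v) ω) ^ 2
        ≤ ∑ u ∈ univ.erase (0 : ZMod n), ∑ v : ZMod n,
          3 ^ (D1 + d) * (nrm (β (w + u + v)) ^ 2 * nrm (De (cl u) (B v)) ^ 2) := by
          refine Finset.sum_le_sum fun u _ => ?_
          refine le_trans (Finset.sum_le_sum fun v _ =>
            nrm_mul_sq_le (hβd (w + u + v)) ((hB.deg v).De (cl u))) ?_
          exact sum_erase_le _ (fun v => by positivity) _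
      _ = 3 ^ (D1 + d) * ∑ z : ZMod n, nrm (β z) ^ 2 *
            ∑ u ∈ univ.erase (0 : ZMod n), nrm (De (cl u) (B (z - w - u))) ^ 2 := by
          rw [← sum_shift (fun z => nrm (β z) ^ 2) (fun u v => nrm (De (cl u) (B v)) ^ 2) w,
            Finset.mul_sum]
          refine Finset.sum_congr rfl fun u _ => ?_
          rw [Finset.mul_sum]
      _ ≤ 3 ^ (D1 + d) * ∑ z : ZMod n, nrm (β z) ^ 2 * (C / n) := by
          gcongr with z _
          exact hB.b4' (z - w)
      _ = 3 ^ (D1 + d) * ((∑ z : ZMod n, nrm (β z) ^ 2) * (C / n)) := by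
          rw [Finset.sum_mul]
      _ ≤ 3 ^ (D1 + d) * (C3 * (C / n)) := by
          gcongr
          exact h3 n B hB
      _ = 3 ^ (D1 + d) * (C3 * C) / n := by ring
  -- self-response part for each u
  have hDu : ∀ u : ZMod n, ∑ v ∈ univ.erase (0 : ZMod n), nrm (De (cl v) (De (cl u) (B v))) ^ 2
      = ∑ v ∈ univ.erase (0 : ZMod n), nrm (De (cl u) (δ v)) ^ 2 := by
    intro u
    refine Finset.sum_congr rfl fun v _ => ?_
    rw [hδ, De_comm]
  have hβs : ∀ u : ZMod n, ∑ v ∈ univ.erase (0 : ZMod n), nrm (β (w + u + v)) ^ 2 ≤ C3 := by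
    intro u
    refine (sum_erase_le _ (fun v => by positivity) _).trans ?_
    rw [sum_add_left (fun v => nrm (β v) ^ 2) (w + u)]
    exact h3 n B hB
  have SR : ∀ u : ZMod n, nrm (fun ω => ∑ v ∈ univ.erase (0 : ZMod n),
          De (cl v) (fun ω => β (w + u + v) ω * De (cl u) (B v) ω) ω) ^ 2
      ≤ 3 * (9 ^ (D1 + d) * (C3 * ∑ v ∈ univ.erase (0 : ZMod n), nrm (De (cl u) (δ v)) ^ 2)
        + 9 ^ (d + D1) * ((C / n) * ∑ v ∈ univ.erase (0 : ZMod n),
            nrm (De (cl v) (β (w + u + v))) ^ 2)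
        + 2 ^ 2 * 9 ^ (D1 + d) * (C3 * ∑ v ∈ univ.erase (0 : ZMod n), nrm (De (cl u) (δ v)) ^ 2)) := by
    intro u
    have e1 : (fun ω => ∑ v ∈ univ.erase (0 : ZMod n),
          De (cl v) (fun ω => β (w + u + v) ω * De (cl u) (B v) ω) ω)
        = fun ω => (∑ v ∈ univ.erase (0 : ZMod n), β (w + u + v) ω * De (cl v) (De (cl u) (B v)) ω)
          + (∑ v ∈ univ.erase (0 : ZMod n), De (cl u) (B v) ω * De (cl v) (β (w + u + v)) ω)
          + (∑ v ∈ univ.erase (0 : ZMod n), (-2 * sx v ω) *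
              (De (cl v) (β (w + u + v)) ω * De (cl v) (De (cl u) (B v)) ω)) := by
      funext ω
      rw [← Finset.sum_add_distrib, ← Finset.sum_add_distrib]
      refine Finset.sum_congr rfl fun v _ => ?_
      rw [De_mul]
      simp only [sx]
      ring
    rw [e1]
    refine (nrm_add3_sq_le _ _ _).trans ?_
    gcongr
    · refine (nrm_sum_mul_sq_le _ (fun v => β (w + u + v))
        (fun v => De (cl v) (De (cl u) (B v))) (fun v _ => hβd _)
        (fun v _ => ((hB.deg v).De _).De _)).trans ?_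
      rw [hDu]
      gcongr
      exact hβs u
    · refine (nrm_sum_mul_sq_le _ (fun v => De (cl u) (B v))
        (fun v => De (cl v) (β (w + u + v))) (fun v _ => (hB.deg v).De _)
        (fun v _ => (hβd _).De _)).trans ?_
      gcongr
      refine (sum_erase_le _ (fun v => by positivity) _).trans ?_
      exact hB.b3 (cl u)
    · refine (nrm_sum_wmul_sq_le _ (fun v ω => -2 * sx v ω)
        (fun v => De (cl v) (β (w + u + v))) (fun v => De (cl v) (De (cl u) (B v))) 2 (by norm_num)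
        (fun v _ ω => by rw [abs_mul, abs_sx]; norm_num) (fun v _ => (hβd _).De _)
        (fun v _ => ((hB.deg v).De _).De _)).trans ?_
      rw [hDu]
      gcongr
      refine le_trans (Finset.sum_le_sum fun v _ => ?_) (hβs u)
      have := nrm_De_le (cl v) (β (w + u + v))
      have h0 := nrm_nonneg (De (cl v) (β (w + u + v)))
      gcongr
  -- sums over u
  have sumδ : ∑ u ∈ univ.erase (0 : ZMod n), ∑ v ∈ univ.erase (0 : ZMod n),
      nrm (De (cl u) (δ v)) ^ 2 ≤ 2 * (d * C) / n := by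
    rw [Finset.sum_comm]
    calc ∑ v ∈ univ.erase (0 : ZMod n), ∑ u ∈ univ.erase (0 : ZMod n), nrm (De (cl u) (δ v)) ^ 2
        ≤ ∑ v ∈ univ.erase (0 : ZMod n), 2 * (d * nrm (δ v) ^ 2) :=
          Finset.sum_le_sum fun v _ => sum_nrm_De_cl_le (hδd v)
      _ = 2 * (d * ∑ v ∈ univ.erase (0 : ZMod n), nrm (δ v) ^ 2) := by
          rw [Finset.mul_sum, Finset.mul_sum]
      _ ≤ 2 * (d * (C / n)) := by gcongr
      _ = 2 * (d * C) / n := by ring
  have sumβ : ∑ u ∈ univ.erase (0 : ZMod n), ∑ v ∈ univ.erase (0 : ZMod n),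
      nrm (De (cl v) (β (w + u + v))) ^ 2 ≤ C5 := by
    rw [Finset.sum_comm]
    calc ∑ v ∈ univ.erase (0 : ZMod n), ∑ u ∈ univ.erase (0 : ZMod n),
          nrm (De (cl v) (β (w + u + v))) ^ 2
        ≤ ∑ v ∈ univ.erase (0 : ZMod n), C5 / n := by
          refine Finset.sum_le_sum fun v _ => ?_
          refine (sum_erase_le _ (fun u => by positivity) _).trans ?_
          have : ∑ u : ZMod n, nrm (De (cl v) (β (w + u + v))) ^ 2
              = ∑ u : ZMod n, nrm (De (cl v) (β u)) ^ 2 := by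
            rw [← sum_add_left (fun u => nrm (De (cl v) (β u)) ^ 2) (w + v)]
            refine Finset.sum_congr rfl fun u _ => ?_
            congr 4
            ring
          rw [this]
          exact h5 n B hB (cl v)
      _ ≤ ∑ v : ZMod n, C5 / n := sum_erase_le _ (fun v => by positivity) _
      _ = C5 := by
          rw [Finset.sum_const, Finset.card_univ, ZMod.card, nsmul_eq_mul]
          field_simp
  -- conclusion
  calc ∑ u ∈ univ.erase (0 : ZMod n), nrm (fun ω => ∑ v ∈ univ.erase (0 : ZMod n),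
        sx v ω * (β (w + u + v) ω * De (cl u) (B v) ω)) ^ 2
      ≤ ∑ u ∈ univ.erase (0 : ZMod n), (4 * ((D1 + d : ℕ) + 1) * ∑ v ∈ univ.erase (0 : ZMod n),
          nrm (fun ω => β (w + u + v) ω * De (cl u) (B v) ω) ^ 2
        + 2 * (3 * (9 ^ (D1 + d) * (C3 * ∑ v ∈ univ.erase (0 : ZMod n), nrm (De (cl u) (δ v)) ^ 2)
        + 9 ^ (d + D1) * ((C / n) * ∑ v ∈ univ.erase (0 : ZMod n),
            nrm (De (cl v) (β (w + u + v))) ^ 2)
        + 2 ^ 2 * 9 ^ (D1 + d) * (C3 * ∑ v ∈ univ.erase (0 : ZMod n),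
            nrm (De (cl u) (δ v)) ^ 2)))) := by
        refine Finset.sum_le_sum fun u _ => ?_
        refine (stepA u).trans ?_
        gcongr
        exact SR u
    _ = 4 * ((D1 + d : ℕ) + 1) * (∑ u ∈ univ.erase (0 : ZMod n), ∑ v ∈ univ.erase (0 : ZMod n),
          nrm (fun ω => β (w + u + v) ω * De (cl u) (B v) ω) ^ 2)
        + 2 * (3 * (9 ^ (D1 + d) * (C3 * ∑ u ∈ univ.erase (0 : ZMod n),
            ∑ v ∈ univ.erase (0 : ZMod n), nrm (De (cl u) (δ v)) ^ 2)
        + 9 ^ (d + D1) * ((C / n) * ∑ u ∈ univ.erase (0 : ZMod n), ∑ v ∈ univ.erase (0 : ZMod n),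
            nrm (De (cl v) (β (w + u + v))) ^ 2)
        + 2 ^ 2 * 9 ^ (D1 + d) * (C3 * ∑ u ∈ univ.erase (0 : ZMod n),
            ∑ v ∈ univ.erase (0 : ZMod n), nrm (De (cl u) (δ v)) ^ 2))) := by
        simp only [Finset.sum_add_distrib, ← Finset.mul_sum]
    _ ≤ 4 * ((D1 + d : ℕ) + 1) * (3 ^ (D1 + d) * (C3 * C) / n)
        + 2 * (3 * (9 ^ (D1 + d) * (C3 * (2 * (d * C) / n))
        + 9 ^ (d + D1) * ((C / n) * C5)
        + 2 ^ 2 * 9 ^ (D1 + d) * (C3 * (2 * (d * C) / n)))) := by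
        gcongr
    _ = _ := by
        field_simp

end Pool.Agent.CTheta
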