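import Pool.Agent.Work.MP_2c2d16_pr.SE.S7

set_option autoImplicit false

/-!
# S8: variance of the weighted derivative (helper60)

The key intermediate fact is `Z8`: the derivative of `bt (pY R B) (w+u)` in the class of `u`
equals `bt (pY R' B) w * B u` up to errors with square sum `O(1/n)` over `u`.
-/

namespace Pool.Agent.CTheta

open Finset

namespace S8aux

section cube

variable {E : Type} [Fintype E] [DecidableEq E]

theorem cs_sum {ι : Type*} (s : Finset ι) {a b : ℕ} (F G : ι → (E → Bool) → ℝ)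
    (hF : ∀ i ∈ s, Deg a (F i)) (hG : ∀ i ∈ s, Deg b (G i)) :
    nrm (fun ω => ∑ i ∈ s, F i ω * G i ω) ^ 2 ≤
      (3 ^ (a + b)) ^ 2 * ((∑ i ∈ s, nrm (F i) ^ 2) * ∑ i ∈ s, nrm (G i) ^ 2) := by
  have h1 : nrm (fun ω => ∑ i ∈ s, F i ω * G i ω)
      ≤ 3 ^ (a + b) * ∑ i ∈ s, nrm (F i) * nrm (G i) := by
    refine (nrm_sum_le s (fun i ω => F i ω * G i ω)).trans ?_
    rw [mul_sum]
    exact sum_le_sum fun i hi => nrm_mul_le (hF i hi) (hG i hi)
  have h2 := sum_mul_sq_le_sq_mul_sq s (fun i => nrm (F i)) (fun i => nrm (G i))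
  calc _ ≤ (3 ^ (a + b) * ∑ i ∈ s, nrm (F i) * nrm (G i)) ^ 2 :=
        pow_le_pow_left₀ (nrm_nonneg _) h1 2
    _ = (3 ^ (a + b)) ^ 2 * (∑ i ∈ s, nrm (F i) * nrm (G i)) ^ 2 := by ring
    _ ≤ _ := by gcongr

/-- `F` with the sign `e` flipped -/
noncomputable def tw (e : E) (F : (E → Bool) → ℝ) : (E → Bool) → ℝ :=
  fun ω => F ω - 2 * sg (ω e) * De e F ω

theorem nrm_tw_le (e : E) (F : (E → Bool) → ℝ) : nrm (tw e F) ≤ 3 * nrm F := by
  have h := nrm_sub_le F (fun ω => 2 * (sg (ω e) * De e F ω))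
  rw [nrm_const_mul, nrm_sg_mul] at h
  have h2 := nrm_De_le e F
  have h3 : tw e F = fun ω => F ω - 2 * (sg (ω e) * De e F ω) := by
    funext ω; simp only [tw]; ring
  rw [h3]
  have : |(2:ℝ)| = 2 := by norm_num
  rw [this] at h
  linarith

theorem nrm_tw_sq_le (e : E) (F : (E → Bool) → ℝ) : nrm (tw e F) ^ 2 ≤ 9 * nrm F ^ 2 := by
  have h := nrm_tw_le e F
  have h0 := nrm_nonneg (tw e F)
  calc _ ≤ (3 * nrm F) ^ 2 := pow_le_pow_left₀ h0 h 2
    _ = _ := by ring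

theorem Deg_tw (e : E) {d : ℕ} {F : (E → Bool) → ℝ} (h : Deg d F) : Deg (1 + d) (tw e F) := by
  have h1 : Deg (1 + d) (fun ω => 2 * (sg (ω e) * De e F ω)) :=
    ((Deg_sg e).mul (h.De e)).const_mul 2
  have h2 := (h.mono (show d ≤ 1 + d by omega)).sub h1
  have h3 : tw e F = fun ω => F ω - 2 * (sg (ω e) * De e F ω) := by
    funext ω; simp only [tw]; ring
  rw [h3]; exact h2

theorem comb {ι : Type*} (s : Finset ι) {X Y Z : ι → (E → Bool) → ℝ} {a b : ℝ}
    (h : ∀ e ∈ s, Z e = fun ω => X e ω + Y e ω)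
    (hX : ∑ e ∈ s, nrm (X e) ^ 2 ≤ a) (hY : ∑ e ∈ s, nrm (Y e) ^ 2 ≤ b) :
    ∑ e ∈ s, nrm (Z e) ^ 2 ≤ 2 * a + 2 * b := by
  calc ∑ e ∈ s, nrm (Z e) ^ 2 ≤ ∑ e ∈ s, (2 * nrm (X e) ^ 2 + 2 * nrm (Y e) ^ 2) := by
        refine sum_le_sum fun e he => ?_
        rw [h e he]
        exact nrm_add_sq_le _ _
    _ = 2 * (∑ e ∈ s, nrm (X e) ^ 2) + 2 * ∑ e ∈ s, nrm (Y e) ^ 2 := by
        rw [sum_add_distrib, mul_sum, mul_sum]
    _ ≤ _ := by linarith

end cube

section circ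

variable {n : ℕ} [NeZero n]

theorem bt_expand (H : ZMod n → Om n → ℝ) (s : Finset (ZMod n)) (a : ZMod n → Om n → ℝ)
    (w : ZMod n) (ω : Om n) :
    bt (fun j ω => H j ω * ∑ x ∈ s, a x ω * co (j * x)) w ω
      = ∑ x ∈ s, a x ω * ((bt H (w + x) ω + bt H (w - x) ω) / 2) := by
  simp only [bt]
  have h1 : ∀ j : ZMod n, (H j ω * ∑ x ∈ s, a x ω * co (j * x)) * co (j * w)
      = ∑ x ∈ s, a x ω * (H j ω * co (j * (w + x)) + H j ω * co (j * (w - x))) / 2 := by
    intro j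
    rw [mul_sum, sum_mul]
    refine sum_congr rfl fun x _ => ?_
    have := co_mul_co (j * w) (j * x)
    have e1 : j * (w + x) = j * w + j * x := mul_add _ _ _
    have e2 : j * (w - x) = j * w - j * x := mul_sub _ _ _
    rw [e1, e2]
    linear_combination (H j ω * a x ω) * this
  rw [sum_congr rfl fun j _ => h1 j, sum_comm, sum_div]
  refine sum_congr rfl fun x _ => ?_
  rw [← sum_div, ← mul_sum, sum_add_distrib]
  ring

theorem bt_add (H H' : ZMod n → Om n → ℝ) (x : ZMod n) (ω : Om n) :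
    bt (fun j ω => H j ω + H' j ω) x ω = bt H x ω + bt H' x ω := by
  simp only [bt]
  rw [← add_div, ← sum_add_distrib]
  congr 1
  exact sum_congr rfl fun j _ => by ring

theorem sx_neg (x : ZMod n) : sx (-x) = sx x := by
  funext ω; simp only [sx, cl_neg]

theorem sum_erase_neg (f : ZMod n → ℝ) :
    ∑ x ∈ univ.erase (0 : ZMod n), f (-x) = ∑ x ∈ univ.erase (0 : ZMod n), f x := by
  refine sum_equiv (Equiv.neg (ZMod n)) ?_ ?_
  · intro x; simp
  · intro x _; simp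

/-- the direct part of the derivative, after the back transform -/
noncomputable def Dir (H : ZMod n → Om n → ℝ) (B : ZMod n → Om n → ℝ) (w : ZMod n)
    (e : Fin (n / 2 + 1)) : Om n → ℝ := fun ω =>
  ∑ x ∈ (univ.erase (0 : ZMod n)).filter (fun x => cl x = e),
    tw e (B x) ω * ((bt H (w + x) ω + bt H (w - x) ω) / 2)

theorem V_eq (H : ZMod n → Om n → ℝ) (B : ZMod n → Om n → ℝ) (hev : ∀ x, B (-x) = B x)
    (w : ZMod n) (e : Fin (n / 2 + 1)) :
    bt (fun j ω => H j ω * De e (Yv B j) ω) w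
      = fun ω => Dir H B w e ω + ∑ u ∈ univ.erase (0 : ZMod n),
          sx u ω * (bt H (w + u) ω * De e (B u) ω) := by
  funext ω
  have h1 : (fun (j : ZMod n) (ω : Om n) => H j ω * De e (Yv B j) ω)
      = fun j ω => (H j ω * ∑ x ∈ (univ.erase (0 : ZMod n)).filter (fun x => cl x = e),
          tw e (B x) ω * co (j * x))
        + H j ω * ∑ x ∈ univ.erase (0 : ZMod n), (sx x ω * De e (B x) ω) * co (j * x) := by
    funext j ω
    rw [De_Yv]
    simp only [tw]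
    ring
  rw [h1, bt_add, bt_expand, bt_expand H _ (fun x ω => sx x ω * De e (B x) ω)]
  simp only [Dir]
  congr 1
  have h2 : ∑ x ∈ univ.erase (0 : ZMod n), sx x ω * De e (B x) ω * bt H (w - x) ω
      = ∑ x ∈ univ.erase (0 : ZMod n), sx x ω * De e (B x) ω * bt H (w + x) ω := by
    rw [← sum_erase_neg]
    refine sum_congr rfl fun x _ => ?_
    rw [sx_neg, hev, sub_neg_eq_add]
  have h3 : ∀ x ∈ univ.erase (0 : ZMod n),
      sx x ω * De e (B x) ω * ((bt H (w + x) ω + bt H (w - x) ω) / 2)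
      = (sx x ω * De e (B x) ω * bt H (w + x) ω) / 2
        + (sx x ω * De e (B x) ω * bt H (w - x) ω) / 2 := fun x _ => by ring
  rw [sum_congr rfl h3, sum_add_distrib, ← sum_div, ← sum_div, h2, ← add_div]
  rw [← two_mul, mul_div_assoc, mul_comm, div_mul_cancel₀ _ (by norm_num : (2:ℝ) ≠ 0)]
  exact sum_congr rfl fun x _ => by ring


/-! ### basic sums -/

theorem C_nonneg {B : ZMod n → Om n → ℝ} {d : ℕ} {C : ℝ} (h : Inv n B d C) : 0 ≤ C := by
  have hn : (0:ℝ) < n := Nat.cast_pos.2 (NeZero.pos n)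
  have h1 := h.b3 0
  have h2 : 0 ≤ ∑ x : ZMod n, nrm (De 0 (B x)) ^ 2 := sum_nonneg fun _ _ => by positivity
  have h3 : 0 ≤ C / (n : ℝ) := h2.trans h1
  have := mul_nonneg h3 hn.le
  rwa [div_mul_cancel₀ _ hn.ne'] at this

theorem sum_bt_le {H : ZMod n → Om n → ℝ} {K : ℝ} (hK : ∀ j, nrm (H j) ^ 2 ≤ K) :
    ∑ x : ZMod n, nrm (bt H x) ^ 2 ≤ K := by
  have hn : (0:ℝ) < n := Nat.cast_pos.2 (NeZero.pos n)
  refine (sum_nrm_bt_sq_le H).trans ?_
  rw [div_le_iff₀ hn]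
  calc ∑ j : ZMod n, nrm (H j) ^ 2 ≤ ∑ _j : ZMod n, K := sum_le_sum fun j _ => hK j
    _ = K * n := by simp [ZMod.card, mul_comm]

theorem sum_bt_shift_le {H : ZMod n → Om n → ℝ} {K : ℝ} (hK : ∀ j, nrm (H j) ^ 2 ≤ K)
    (w : ZMod n) : ∑ u ∈ univ.erase (0 : ZMod n), nrm (bt H (w + u)) ^ 2 ≤ K := by
  refine (sum_le_sum_of_subset_of_nonneg (erase_subset _ _) fun _ _ _ => by positivity).trans ?_
  rw [Fintype.sum_equiv (Equiv.addLeft w) (fun u => nrm (bt H (w + u)) ^ 2)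
    (fun u => nrm (bt H u) ^ 2) (fun u => rfl)]
  exact sum_bt_le hK

theorem sum_bt_shift_le' {H : ZMod n → Om n → ℝ} {K : ℝ} (hK : ∀ j, nrm (H j) ^ 2 ≤ K)
    (w : ZMod n) : ∑ u ∈ univ.erase (0 : ZMod n), nrm (bt H (w - u)) ^ 2 ≤ K := by
  refine (sum_le_sum_of_subset_of_nonneg (erase_subset _ _) fun _ _ _ => by positivity).trans ?_
  rw [Fintype.sum_equiv (Equiv.subLeft w) (fun u => nrm (bt H (w - u)) ^ 2)
    (fun u => nrm (bt H u) ^ 2) (fun u => rfl)]
  exact sum_bt_le hK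

theorem nrm_bt_sq_le {H : ZMod n → Om n → ℝ} {K : ℝ} (hK : ∀ j, nrm (H j) ^ 2 ≤ K)
    (w : ZMod n) : nrm (bt H w) ^ 2 ≤ K :=
  (single_le_sum (f := fun x => nrm (bt H x) ^ 2) (fun _ _ => by positivity)
    (mem_univ w)).trans (sum_bt_le hK)

theorem Deg_bt {D : ℕ} {H : ZMod n → Om n → ℝ} (h : ∀ j, Deg D (H j)) (w : ZMod n) :
    Deg D (bt H w) := by
  have h1 : bt H w = fun ω => (∑ j : ZMod n, H j ω * co (j * w)) * (n : ℝ)⁻¹ := by
    funext ω; simp only [bt]; rw [div_eq_mul_inv]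
  rw [h1]
  exact (Deg.sum univ fun j _ => (h j).mul_const _).mul_const _

theorem sum_energy_le {B : ZMod n → Om n → ℝ} {d : ℕ} {C : ℝ} (h : Inv n B d C) :
    ∑ u ∈ univ.erase (0 : ZMod n), nrm (B u) ^ 2 ≤ C := by
  have hn : (0:ℝ) < n := Nat.cast_pos.2 (NeZero.pos n)
  have hC := C_nonneg h
  calc ∑ u ∈ univ.erase (0 : ZMod n), nrm (B u) ^ 2
      ≤ ∑ _u ∈ univ.erase (0 : ZMod n), C / (n : ℝ) :=
        sum_le_sum fun u hu => h.b1 u (ne_of_mem_erase hu)
    _ ≤ ∑ _u : ZMod n, C / (n : ℝ) :=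
        sum_le_sum_of_subset_of_nonneg (erase_subset _ _) fun _ _ _ => by positivity
    _ = C := by
        rw [sum_const, card_univ, ZMod.card, nsmul_eq_mul]
        field_simp

theorem sum_delta_le {B : ZMod n → Om n → ℝ} {d : ℕ} {C : ℝ} (h : Inv n B d C) :
    ∑ u ∈ univ.erase (0 : ZMod n), nrm (De (cl u) (B u)) ^ 2 ≤ C / n := by
  simpa using h.b4 0

theorem sum_sum_De_le {B : ZMod n → Om n → ℝ} {d : ℕ} {C : ℝ} (h : Inv n B d C) :
    ∑ e, ∑ u ∈ univ.erase (0 : ZMod n), nrm (De e (B u)) ^ 2 ≤ d * C := by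
  rw [sum_comm]
  calc ∑ u ∈ univ.erase (0 : ZMod n), ∑ e, nrm (De e (B u)) ^ 2
      ≤ ∑ u ∈ univ.erase (0 : ZMod n), d * nrm (B u) ^ 2 :=
        sum_le_sum fun u _ => sum_nrm_De_sq_le (h.deg u)
    _ = d * ∑ u ∈ univ.erase (0 : ZMod n), nrm (B u) ^ 2 := by rw [mul_sum]
    _ ≤ _ := by gcongr; exact sum_energy_le h

theorem sum_sum_De_delta_le {B : ZMod n → Om n → ℝ} {d : ℕ} {C : ℝ} (h : Inv n B d C) :
    ∑ e, ∑ u ∈ univ.erase (0 : ZMod n), nrm (De e (De (cl u) (B u))) ^ 2 ≤ d * (C / n) := by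
  rw [sum_comm]
  calc ∑ u ∈ univ.erase (0 : ZMod n), ∑ e, nrm (De e (De (cl u) (B u))) ^ 2
      ≤ ∑ u ∈ univ.erase (0 : ZMod n), d * nrm (De (cl u) (B u)) ^ 2 :=
        sum_le_sum fun u _ => sum_nrm_De_sq_le ((h.deg u).De (cl u))
    _ = d * ∑ u ∈ univ.erase (0 : ZMod n), nrm (De (cl u) (B u)) ^ 2 := by rw [mul_sum]
    _ ≤ _ := by gcongr; exact sum_delta_le h

/-- The generic estimate for `∑_u D_e B(u) Z(u)` -/
theorem sum_DeB_le {B : ZMod n → Om n → ℝ} {d : ℕ} {C : ℝ} (h : Inv n B d C)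
    {a : ℕ} {Z : ZMod n → Om n → ℝ} (hZ : ∀ u, Deg a (Z u)) {K : ℝ}
    (hK : ∑ u ∈ univ.erase (0 : ZMod n), nrm (Z u) ^ 2 ≤ K / n) :
    ∑ e, nrm (fun ω => ∑ u ∈ univ.erase (0 : ZMod n), De e (B u) ω * Z u ω) ^ 2
      ≤ (3 ^ (d + a)) ^ 2 * (d * C) * K / n := by
  have hC := C_nonneg h
  calc _ ≤ ∑ e, (3 ^ (d + a)) ^ 2 * ((∑ u ∈ univ.erase (0 : ZMod n), nrm (De e (B u)) ^ 2)
          * ∑ u ∈ univ.erase (0 : ZMod n), nrm (Z u) ^ 2) :=
        sum_le_sum fun e _ => cs_sum _ _ _ (fun u _ => (h.deg u).De e) (fun u _ => hZ u)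
    _ = (3 ^ (d + a)) ^ 2 * ((∑ e, ∑ u ∈ univ.erase (0 : ZMod n), nrm (De e (B u)) ^ 2)
          * ∑ u ∈ univ.erase (0 : ZMod n), nrm (Z u) ^ 2) := by
        rw [sum_mul, mul_sum]
    _ ≤ (3 ^ (d + a)) ^ 2 * ((d * C) * (K / n)) := by
        have h1 := sum_sum_De_le h
        have h2 : 0 ≤ ∑ u ∈ univ.erase (0 : ZMod n), nrm (Z u) ^ 2 :=
          sum_nonneg fun _ _ => by positivity
        have h3 : (0:ℝ) ≤ d * C := by positivity
        gcongr
    _ = _ := by ring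

/-- The generic estimate for `∑_u D_e δ(u) Y(u)` -/
theorem sum_Dedelta_le {B : ZMod n → Om n → ℝ} {d : ℕ} {C : ℝ} (h : Inv n B d C)
    {a : ℕ} {Y : ZMod n → Om n → ℝ} (hY : ∀ u, Deg a (Y u)) {K : ℝ}
    (hK : ∑ u ∈ univ.erase (0 : ZMod n), nrm (Y u) ^ 2 ≤ K) :
    ∑ e, nrm (fun ω => ∑ u ∈ univ.erase (0 : ZMod n), De e (De (cl u) (B u)) ω * Y u ω) ^ 2
      ≤ (3 ^ (d + a)) ^ 2 * (d * C) * K / n := by
  have hC := C_nonneg h
  have hn : (0:ℝ) < n := Nat.cast_pos.2 (NeZero.pos n)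
  calc _ ≤ ∑ e, (3 ^ (d + a)) ^ 2
          * ((∑ u ∈ univ.erase (0 : ZMod n), nrm (De e (De (cl u) (B u))) ^ 2)
          * ∑ u ∈ univ.erase (0 : ZMod n), nrm (Y u) ^ 2) :=
        sum_le_sum fun e _ => cs_sum _ _ _ (fun u _ => ((h.deg u).De _).De e) (fun u _ => hY u)
    _ = (3 ^ (d + a)) ^ 2 * ((∑ e, ∑ u ∈ univ.erase (0 : ZMod n),
          nrm (De e (De (cl u) (B u))) ^ 2)
          * ∑ u ∈ univ.erase (0 : ZMod n), nrm (Y u) ^ 2) := by
        rw [sum_mul, mul_sum]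
    _ ≤ (3 ^ (d + a)) ^ 2 * ((d * (C / n)) * K) := by
        have h1 := sum_sum_De_delta_le h
        have h2 : 0 ≤ ∑ u ∈ univ.erase (0 : ZMod n), nrm (Y u) ^ 2 :=
          sum_nonneg fun _ _ => by positivity
        have h3 : (0:ℝ) ≤ d * (C / n) := by positivity
        gcongr
    _ = _ := by ring

/-- the direct part of `S8` -/
theorem sum_Dir_le {B : ZMod n → Om n → ℝ} {d : ℕ} {C : ℝ} (h : Inv n B d C)
    {a : ℕ} {H : ZMod n → Om n → ℝ} (hH : ∀ j, Deg a (H j)) {K : ℝ}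
    (hK : ∀ j, nrm (H j) ^ 2 ≤ K) (w : ZMod n) :
    ∑ e, nrm (Dir H B w e) ^ 2 ≤ 18 * 3 ^ (1 + d + a) * C * K / n := by
  have hC := C_nonneg h
  have hn : (0:ℝ) < n := Nat.cast_pos.2 (NeZero.pos n)
  have hK0 : 0 ≤ K := le_trans (by positivity) (hK 0)
  have hterm : ∀ x ∈ univ.erase (0 : ZMod n),
      nrm (fun ω => tw (cl x) (B x) ω * ((bt H (w + x) ω + bt H (w - x) ω) / 2)) ^ 2
      ≤ (9 * 3 ^ (1 + d + a) * (C / n) / 2) * (nrm (bt H (w + x)) ^ 2
        + nrm (bt H (w - x)) ^ 2) := by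
    intro x hx
    have hD : Deg a (fun ω => (bt H (w + x) ω + bt H (w - x) ω) / 2) := by
      have := ((Deg_bt hH (w + x)).add (Deg_bt hH (w - x))).mul_const (2:ℝ)⁻¹
      simpa only [div_eq_mul_inv] using this
    have h1 := nrm_mul_sq_le (Deg_tw (cl x) (h.deg x)) hD
    have h2 := nrm_tw_sq_le (cl x) (B x)
    have h3 := h.b1 x (ne_of_mem_erase hx)
    have h4 : nrm (fun ω => (bt H (w + x) ω + bt H (w - x) ω) / 2) ^ 2
        ≤ (nrm (bt H (w + x)) ^ 2 + nrm (bt H (w - x)) ^ 2) / 2 := by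
      have h5 := nrm_add_sq_le (bt H (w + x)) (bt H (w - x))
      have h6 : (fun ω => (bt H (w + x) ω + bt H (w - x) ω) / 2)
          = fun ω => (bt H (w + x) ω + bt H (w - x) ω) * (1/2) := by
        funext ω; ring
      rw [h6, nrm_mul_const, mul_pow]
      have h7 : |(1/2 : ℝ)| ^ 2 = 1/4 := by rw [sq_abs]; norm_num
      rw [h7]
      linarith
    refine h1.trans ?_
    have h8 : nrm (tw (cl x) (B x)) ^ 2 ≤ 9 * (C / n) := by linarith
    calc 3 ^ (1 + d + a) * (nrm (tw (cl x) (B x)) ^ 2 *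
          nrm (fun ω => (bt H (w + x) ω + bt H (w - x) ω) / 2) ^ 2)
        ≤ 3 ^ (1 + d + a) * ((9 * (C / n)) *
          ((nrm (bt H (w + x)) ^ 2 + nrm (bt H (w - x)) ^ 2) / 2)) := by gcongr
      _ = _ := by ring
  have hcard : ∀ e : Fin (n/2+1), ((((univ.erase (0 : ZMod n)).filter
      (fun x => cl x = e)).card : ℕ) : ℝ) ≤ 2 := by
    intro e
    have h1 : ((univ.erase (0 : ZMod n)).filter (fun x => cl x = e)).card
        ≤ (univ.filter fun x : ZMod n => cl x = e).card :=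
      card_le_card (filter_subset_filter _ (erase_subset _ _))
    exact_mod_cast h1.trans (card_fiber_le e)
  calc ∑ e, nrm (Dir H B w e) ^ 2
      ≤ ∑ e, 2 * ∑ x ∈ (univ.erase (0 : ZMod n)).filter (fun x => cl x = e),
          nrm (fun ω => tw (cl x) (B x) ω * ((bt H (w + x) ω + bt H (w - x) ω) / 2)) ^ 2 := by
        refine sum_le_sum fun e _ => ?_
        have h1 := nrm_sum_sq_le ((univ.erase (0 : ZMod n)).filter (fun x => cl x = e))
          (fun x ω => tw e (B x) ω * ((bt H (w + x) ω + bt H (w - x) ω) / 2))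
        have h2 : ∑ x ∈ (univ.erase (0 : ZMod n)).filter (fun x => cl x = e),
            nrm (fun ω => tw e (B x) ω * ((bt H (w + x) ω + bt H (w - x) ω) / 2)) ^ 2
            = ∑ x ∈ (univ.erase (0 : ZMod n)).filter (fun x => cl x = e),
            nrm (fun ω => tw (cl x) (B x) ω * ((bt H (w + x) ω + bt H (w - x) ω) / 2)) ^ 2 :=
          sum_congr rfl fun x hx => by rw [(mem_filter.1 hx).2]
        rw [h2] at h1
        refine h1.trans ?_
        have h3 : 0 ≤ ∑ x ∈ (univ.erase (0 : ZMod n)).filter (fun x => cl x = e),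
            nrm (fun ω => tw (cl x) (B x) ω * ((bt H (w + x) ω + bt H (w - x) ω) / 2)) ^ 2 :=
          sum_nonneg fun _ _ => by positivity
        exact mul_le_mul_of_nonneg_right (hcard e) h3
    _ = 2 * ∑ x ∈ univ.erase (0 : ZMod n),
          nrm (fun ω => tw (cl x) (B x) ω * ((bt H (w + x) ω + bt H (w - x) ω) / 2)) ^ 2 := by
        rw [← mul_sum, sum_fiberwise]
    _ ≤ 2 * ∑ x ∈ univ.erase (0 : ZMod n), (9 * 3 ^ (1 + d + a) * (C / n) / 2)
          * (nrm (bt H (w + x)) ^ 2 + nrm (bt H (w - x)) ^ 2) := by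
        gcongr with x hx; exact hterm x hx
    _ = (9 * 3 ^ (1 + d + a) * (C / n)) * (∑ x ∈ univ.erase (0 : ZMod n),
          nrm (bt H (w + x)) ^ 2 + ∑ x ∈ univ.erase (0 : ZMod n), nrm (bt H (w - x)) ^ 2) := by
        rw [← mul_sum, sum_add_distrib]; ring
    _ ≤ (9 * 3 ^ (1 + d + a) * (C / n)) * (K + K) := by
        have h1 := sum_bt_shift_le hK w
        have h2 := sum_bt_shift_le' hK w
        gcongr
    _ = _ := by ring


theorem filter_cl_eq (u : ZMod n) (hu : u ≠ 0) :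
    (univ.erase (0 : ZMod n)).filter (fun x => cl x = cl u) = {u, -u} := by
  ext x
  simp only [mem_filter, mem_erase, mem_univ, and_true, mem_insert, mem_singleton, cl_eq_iff]
  constructor
  · exact fun h => h.2
  · intro h
    refine ⟨?_, h⟩
    rcases h with h | h
    · rw [h]; exact hu
    · rw [h]; exact neg_ne_zero.2 hu

/-- half the size of the class of `u` -/
noncomputable def kap (u : ZMod n) : ℝ := if u = -u then 1 / 2 else 1

theorem Dir_cl (H : ZMod n → Om n → ℝ) (B : ZMod n → Om n → ℝ) (hev : ∀ x, B (-x) = B x)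
    (w u : ZMod n) (hu : u ≠ 0) (ω : Om n) :
    Dir H B (w + u) (cl u) ω
      = kap u * (tw (cl u) (B u) ω * (bt H (w + 2 * u) ω + bt H w ω)) := by
  simp only [Dir]
  rw [filter_cl_eq u hu]
  have e1 : w + u + u = w + 2 * u := by ring
  have e2 : w + u - u = w := by ring
  have e3 : w + u + -u = w := by ring
  have e4 : w + u - -u = w + 2 * u := by ring
  by_cases h : u = -u
  · rw [← h, pair_eq_singleton, sum_singleton, e1, e2]
    simp only [kap, ← h, if_true]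
    ring
  · rw [sum_pair h, e1, e2, e3, e4, hev]
    simp only [kap, h, if_false]
    ring

theorem card_self_neg_le : (((univ.erase (0 : ZMod n)).filter (fun u => u = -u)).card : ℝ) ≤ 2 := by
  classical
  have h1 := sum_two_mul_le (fun z : ZMod n => if z = 0 then (1:ℝ) else 0)
    (fun x => by split_ifs <;> norm_num) 0
  have h2 : ∑ x : ZMod n, (if x = 0 then (1:ℝ) else 0) = 1 := by simp
  rw [h2] at h1
  have h3 : ∑ x : ZMod n, (if (0 + 2 * x : ZMod n) = 0 then (1:ℝ) else 0)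
      = ((univ.filter fun x : ZMod n => (0 + 2 * x : ZMod n) = 0).card : ℝ) := by
    rw [sum_boole]
  rw [h3] at h1
  have h4 : (univ.erase (0 : ZMod n)).filter (fun u => u = -u)
      ⊆ univ.filter fun x : ZMod n => (0 + 2 * x : ZMod n) = 0 := by
    intro x hx
    rw [mem_filter] at hx ⊢
    refine ⟨mem_univ _, ?_⟩
    have := hx.2
    have h5 : x + x = 0 := by nth_rewrite 2 [this]; ring
    rw [zero_add, two_mul, h5]
  have h5 := card_le_card h4
  have h6 : (((univ.erase (0 : ZMod n)).filter (fun u => u = -u)).card : ℝ)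
    ≤ ((univ.filter fun x : ZMod n => (0 + 2 * x : ZMod n) = 0).card : ℝ) := by exact_mod_cast h5
  linarith

end circ

/-- **Key lemma** (also gives S11 at once): up to errors with square sum `O(1/n)`,
`D_u β_R(w+u) = β_{R'}(w) B(u)`. -/
theorem Z8 (d : ℕ) (C : ℝ) (R : Polynomial ℝ) : ∃ C' : ℝ, ∀ (n : ℕ) [NeZero n]
    (B : ZMod n → Om n → ℝ), Inv n B d C → ∀ w : ZMod n,
      ∑ u ∈ univ.erase (0 : ZMod n), nrm (fun ω => De (cl u) (bt (pY R B) (w + u)) ω
        - bt (pY (Polynomial.derivative R) B) w ω * B u ω) ^ 2 ≤ C' / n := by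
  obtain ⟨K', hK'⟩ := S3 d C (Polynomial.derivative R)
  obtain ⟨K4, hK4⟩ := S4 d C
  obtain ⟨K6', hK6'⟩ := S6 d C R
  obtain ⟨K7, hK7⟩ := S7 d C (Polynomial.derivative R)
  obtain ⟨K6, hK60, hK6⟩ : ∃ K6 : ℝ, 0 ≤ K6 ∧ K6' ≤ K6 := ⟨max K6' 0, le_max_right _ _, le_max_left _ _⟩
  set a' : ℕ := (Polynomial.derivative R).natDegree * (d + 1) with ha'
  refine ⟨2 * (2 * ((K6 * K4) ^ 2) + 2 * K7)
    + 2 * (2 * (3 ^ (1 + d + a') * (9 * C) * (2 * K')) + 2 * (3 ^ (1 + d + a') * (9 * C) * K')),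
    ?_⟩
  intro n _ B h w
  have hn : (0:ℝ) < n := Nat.cast_pos.2 (NeZero.pos n)
  have hC := C_nonneg h
  have h3' := hK' n B h
  have h4 := hK4 n B h
  have h6 := hK6' n B h
  have h7 := hK7 n B h w
  have hK'0 : 0 ≤ K' := le_trans (by positivity) (h3' 0)
  have hK40 : 0 ≤ K4 := le_trans (sum_nonneg fun _ _ => by positivity) (h4 0)
  have hdeg' : ∀ j, Deg a' (pY (Polynomial.derivative R) B j) := Deg_pY d _ B h.deg
  have hdb' : ∀ z, Deg a' (bt (pY (Polynomial.derivative R) B) z) := Deg_bt hdeg'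
  -- the remainder of the chain rule
  set ρ : ZMod n → Om n → ℝ := fun u => bt (fun j ω => De (cl u) (pY R B j) ω
    - pY (Polynomial.derivative R) B j ω * De (cl u) (Yv B j) ω) (w + u) with hρ
  set φ : ZMod n → Om n → ℝ := fun u ω => ∑ v ∈ univ.erase (0 : ZMod n),
        sx v ω * (bt (pY (Polynomial.derivative R) B) (w + u + v) ω * De (cl u) (B v) ω) with hφ
  set P : ZMod n → Om n → ℝ := fun u ω => kap u * (tw (cl u) (B u) ω *
    bt (pY (Polynomial.derivative R) B) (w + 2 * u) ω) with hP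
  set A : ZMod n → Om n → ℝ := fun u ω => (kap u - 1) * B u ω
    + (- 2 * kap u) * (sg (ω (cl u)) * De (cl u) (B u) ω) with hA
  set Q : ZMod n → Om n → ℝ := fun u ω => A u ω *
    bt (pY (Polynomial.derivative R) B) w ω with hQ
  have hkap : ∀ u : ZMod n, 0 ≤ kap u ∧ kap u ≤ 1 := by
    intro u; simp only [kap]; split_ifs <;> norm_num
  have hkap2 : ∀ u : ZMod n, (kap u - 1) ^ 2 = if u = -u then 1 / 4 else 0 := by
    intro u; simp only [kap]; split_ifs <;> norm_num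
  have key : ∀ u ∈ univ.erase (0 : ZMod n), (fun ω => De (cl u) (bt (pY R B) (w + u)) ω
        - bt (pY (Polynomial.derivative R) B) w ω * B u ω)
      = fun ω => (ρ u ω + φ u ω) + (P u ω + Q u ω) := by
    intro u hu
    funext ω
    have e1 : De (cl u) (bt (pY R B) (w + u)) ω
        = ρ u ω + bt (fun j ω => pY (Polynomial.derivative R) B j ω
            * De (cl u) (Yv B j) ω) (w + u) ω := by
      rw [De_bt]
      simp only [hρ]
      rw [← bt_add]
      simp only [bt]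
      congr 1
      exact sum_congr rfl fun j _ => by ring
    have e2 := congrFun (V_eq (pY (Polynomial.derivative R) B) B h.even (w + u) (cl u)) ω
    rw [e1, e2, Dir_cl _ B h.even w u (ne_of_mem_erase hu)]
    simp only [hφ, hP, hQ, hA, tw]
    ring
  -- bounds
  have bρ : ∑ u ∈ univ.erase (0 : ZMod n), nrm (ρ u) ^ 2 ≤ (K6 * K4) ^ 2 / n := by
    have h1 : ∀ u, nrm (ρ u) ≤ K6 * K4 / n := by
      intro u
      refine (nrm_bt_le _ _).trans ?_
      have h2 : ∑ j : ZMod n, nrm (fun ω => De (cl u) (pY R B j) ω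
          - pY (Polynomial.derivative R) B j ω * De (cl u) (Yv B j) ω)
          ≤ ∑ j : ZMod n, K6 * nrm (De (cl u) (Yv B j)) ^ 2 :=
        sum_le_sum fun j _ => (h6 (cl u) j).trans (by gcongr)
      have h3 : ∑ j : ZMod n, K6 * nrm (De (cl u) (Yv B j)) ^ 2 ≤ K6 * K4 := by
        rw [← mul_sum]
        exact mul_le_mul_of_nonneg_left (h4 _) hK60
      gcongr
      exact h2.trans h3
    calc ∑ u ∈ univ.erase (0 : ZMod n), nrm (ρ u) ^ 2
        ≤ ∑ _u ∈ univ.erase (0 : ZMod n), (K6 * K4 / n) ^ 2 :=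
          sum_le_sum fun u _ => pow_le_pow_left₀ (nrm_nonneg _) (h1 u) 2
      _ ≤ ∑ _u : ZMod n, (K6 * K4 / n) ^ 2 :=
          sum_le_sum_of_subset_of_nonneg (erase_subset _ _) fun _ _ _ => by positivity
      _ = _ := by
          rw [sum_const, card_univ, ZMod.card, nsmul_eq_mul]
          field_simp
  have bP : ∑ u ∈ univ.erase (0 : ZMod n), nrm (P u) ^ 2
      ≤ 3 ^ (1 + d + a') * (9 * C) * (2 * K') / n := by
    have h1 : ∀ u ∈ univ.erase (0 : ZMod n), nrm (P u) ^ 2 ≤ 3 ^ (1 + d + a') * (9 * (C / n))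
        * nrm (bt (pY (Polynomial.derivative R) B) (w + 2 * u)) ^ 2 := by
      intro u hu
      have e1 := nrm_mul_sq_le (Deg_tw (cl u) (h.deg u)) (hdb' (w + 2 * u))
      have e2 := nrm_tw_sq_le (cl u) (B u)
      have e3 := h.b1 u (ne_of_mem_erase hu)
      have e4 : nrm (P u) ^ 2 ≤ nrm (fun ω => tw (cl u) (B u) ω *
          bt (pY (Polynomial.derivative R) B) (w + 2 * u) ω) ^ 2 := by
        simp only [hP]
        rw [nrm_const_mul, mul_pow, sq_abs]
        have : kap u ^ 2 ≤ 1 := by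
          have := hkap u
          nlinarith
        have h0 : 0 ≤ nrm (fun ω => tw (cl u) (B u) ω *
          bt (pY (Polynomial.derivative R) B) (w + 2 * u) ω) ^ 2 := by positivity
        nlinarith
      have e5 : nrm (tw (cl u) (B u)) ^ 2 ≤ 9 * (C / n) := by linarith
      refine e4.trans (e1.trans ?_)
      rw [mul_assoc (3 ^ (1 + d + a')) (9 * (C / (n:ℝ)))]
      gcongr
    calc ∑ u ∈ univ.erase (0 : ZMod n), nrm (P u) ^ 2
        ≤ ∑ u ∈ univ.erase (0 : ZMod n), 3 ^ (1 + d + a') * (9 * (C / n))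
          * nrm (bt (pY (Polynomial.derivative R) B) (w + 2 * u)) ^ 2 := sum_le_sum h1
      _ ≤ ∑ u : ZMod n, 3 ^ (1 + d + a') * (9 * (C / n))
          * nrm (bt (pY (Polynomial.derivative R) B) (w + 2 * u)) ^ 2 :=
          sum_le_sum_of_subset_of_nonneg (erase_subset _ _) fun _ _ _ => by positivity
      _ = 3 ^ (1 + d + a') * (9 * (C / n)) * ∑ u : ZMod n,
          nrm (bt (pY (Polynomial.derivative R) B) (w + 2 * u)) ^ 2 := by rw [mul_sum]
      _ ≤ 3 ^ (1 + d + a') * (9 * (C / n)) * (2 * K') := by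
          have e1 := sum_two_mul_le
            (fun z => nrm (bt (pY (Polynomial.derivative R) B) z) ^ 2)
            (fun _ => by positivity) w
          have e2 := sum_bt_le h3'
          gcongr
          linarith
      _ = _ := by ring
  have bA : ∑ u ∈ univ.erase (0 : ZMod n), nrm (A u) ^ 2 ≤ 9 * C / n := by
    have h1 : ∀ u ∈ univ.erase (0 : ZMod n), nrm (A u) ^ 2 ≤
        2 * ((if u = -u then 1 / 4 else 0) * (C / n)) + 8 * nrm (De (cl u) (B u)) ^ 2 := by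
      intro u hu
      have e1 := nrm_add_sq_le (fun ω => (kap u - 1) * B u ω)
        (fun ω => (- 2 * kap u) * (sg (ω (cl u)) * De (cl u) (B u) ω))
      rw [nrm_const_mul, nrm_const_mul, mul_pow, mul_pow, sq_abs, sq_abs, hkap2, nrm_sg_mul] at e1
      have e3 := h.b1 u (ne_of_mem_erase hu)
      have e4 : (- 2 * kap u) ^ 2 ≤ 4 := by
        have := hkap u
        nlinarith
      have e5 : (if u = -u then 1 / 4 else 0 : ℝ) * nrm (B u) ^ 2
          ≤ (if u = -u then 1 / 4 else 0 : ℝ) * (C / n) := by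
        split_ifs
        · gcongr
        · simp
      have e6 : (- 2 * kap u) ^ 2 * nrm (De (cl u) (B u)) ^ 2
          ≤ 4 * nrm (De (cl u) (B u)) ^ 2 := by gcongr
      linarith
    have h2 : ∑ u ∈ univ.erase (0 : ZMod n), (if u = -u then (1:ℝ) / 4 else 0) * (C / n)
        ≤ (C / n) / 2 := by
      rw [← sum_mul]
      have h3 : ∑ u ∈ univ.erase (0 : ZMod n), (if u = -u then (1:ℝ) / 4 else 0) ≤ 1 / 2 := by
        rw [← sum_filter, sum_const, nsmul_eq_mul]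
        have := card_self_neg_le (n := n)
        linarith
      have h4 : 0 ≤ C / (n:ℝ) := by positivity
      nlinarith
    have h3 := sum_delta_le h
    calc ∑ u ∈ univ.erase (0 : ZMod n), nrm (A u) ^ 2
        ≤ ∑ u ∈ univ.erase (0 : ZMod n), (2 * ((if u = -u then 1 / 4 else 0) * (C / n))
          + 8 * nrm (De (cl u) (B u)) ^ 2) := sum_le_sum h1
      _ = 2 * (∑ u ∈ univ.erase (0 : ZMod n), (if u = -u then (1:ℝ) / 4 else 0) * (C / n))
          + 8 * ∑ u ∈ univ.erase (0 : ZMod n), nrm (De (cl u) (B u)) ^ 2 := by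
          rw [sum_add_distrib, mul_sum, mul_sum]
      _ ≤ 2 * ((C / n) / 2) + 8 * (C / n) := by gcongr
      _ = _ := by ring
  have bQ : ∑ u ∈ univ.erase (0 : ZMod n), nrm (Q u) ^ 2
      ≤ 3 ^ (1 + d + a') * (9 * C) * K' / n := by
    have hdA : ∀ u, Deg (1 + d) (A u) := by
      intro u
      have e1 : Deg (1 + d) (fun ω => (kap u - 1) * B u ω) :=
        ((h.deg u).const_mul _).mono (by omega)
      have e2 : Deg (1 + d) (fun ω => (- 2 * kap u) * (sg (ω (cl u)) * De (cl u) (B u) ω)) :=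
        ((Deg_sg (cl u)).mul ((h.deg u).De _)).const_mul _
      exact e1.add e2
    have h1 : ∀ u ∈ univ.erase (0 : ZMod n), nrm (Q u) ^ 2
        ≤ 3 ^ (1 + d + a') * K' * nrm (A u) ^ 2 := by
      intro u _
      have e1 := nrm_mul_sq_le (hdA u) (hdb' w)
      have e2 := nrm_bt_sq_le h3' w
      refine e1.trans ?_
      rw [mul_assoc, mul_comm K']
      gcongr
    calc ∑ u ∈ univ.erase (0 : ZMod n), nrm (Q u) ^ 2
        ≤ ∑ u ∈ univ.erase (0 : ZMod n), 3 ^ (1 + d + a') * K' * nrm (A u) ^ 2 := sum_le_sum h1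
      _ = 3 ^ (1 + d + a') * K' * ∑ u ∈ univ.erase (0 : ZMod n), nrm (A u) ^ 2 := by rw [mul_sum]
      _ ≤ 3 ^ (1 + d + a') * K' * (9 * C / n) := by gcongr
      _ = _ := by ring
  have c1 := comb (univ.erase (0 : ZMod n)) (Z := fun u ω => ρ u ω + φ u ω)
    (fun _ _ => rfl) bρ h7
  have c2 := comb (univ.erase (0 : ZMod n)) (Z := fun u ω => P u ω + Q u ω)
    (fun _ _ => rfl) bP bQ
  refine (comb (univ.erase (0 : ZMod n)) key c1 c2).trans (le_of_eq ?_)
  ring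

theorem Deg_Z8 (d : ℕ) (R : Polynomial ℝ) {n : ℕ} [NeZero n] {B : ZMod n → Om n → ℝ}
    (h : ∀ x, Deg d (B x)) (w u : ZMod n) :
    Deg (R.natDegree * (d + 1) + ((Polynomial.derivative R).natDegree * (d + 1) + d))
      (fun ω => De (cl u) (bt (pY R B) (w + u)) ω
        - bt (pY (Polynomial.derivative R) B) w ω * B u ω) := by
  have h1 := (Deg_bt (Deg_pY d R B h) (w + u)).De (cl u)
  have h2 := (Deg_bt (Deg_pY d (Polynomial.derivative R) B h) w).mul (h u)
  exact (h1.mono (by omega)).sub (h2.mono (by omega))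

end S8aux

open S8aux

/-- (S8) -/
theorem S8 (d : ℕ) (C : ℝ) (R : Polynomial ℝ) : ∃ C' : ℝ, ∀ (n : ℕ) [NeZero n]
    (B : ZMod n → Om n → ℝ), Inv n B d C → ∀ w : ZMod n,
      ∑ e, nrm (bt (fun j ω => pY R B j ω * De e (Yv B j) ω) w) ^ 2 ≤ C' / n := by
  obtain ⟨K, hK⟩ := S3 d C R
  obtain ⟨K', hK'⟩ := S3 d C (Polynomial.derivative R)
  obtain ⟨KZ, hKZ⟩ := Z8 d C R
  set a : ℕ := R.natDegree * (d + 1) with ha
  set a' : ℕ := (Polynomial.derivative R).natDegree * (d + 1) with ha'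
  set c1 : ℝ := 18 * 3 ^ (1 + d + a) * C * K with hc1
  set c2 : ℝ := 3 ^ (a + d) * K * (d * C) with hc2
  set c3 : ℝ := (3 ^ (d + (1 + a))) ^ 2 * (d * C) * (9 * K) with hc3
  set c4 : ℝ := (3 ^ (d + (a + (a' + d)))) ^ 2 * (d * C) * KZ with hc4
  set c5 : ℝ := 3 ^ (a' + (d + d)) * (K' * C) with hc5
  refine ⟨2 * c1 + 2 * (4 * ((a + d : ℕ) + 1) * c2 + 2 * (2 * c3 + 2 * (2 * c4 + 2 * c5))), ?_⟩
  intro n _ B h w
  have hn : (0:ℝ) < n := Nat.cast_pos.2 (NeZero.pos n)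
  have hC := C_nonneg h
  have h3 := hK n B h
  have h3' := hK' n B h
  have hZ := hKZ n B h w
  have hK0 : 0 ≤ K := le_trans (by positivity) (h3 0)
  have hK'0 : 0 ≤ K' := le_trans (by positivity) (h3' 0)
  have hdb : ∀ z, Deg a (bt (pY R B) z) := S8aux.Deg_bt (Deg_pY d _ B h.deg)
  have hdb' : ∀ z, Deg a' (bt (pY (Polynomial.derivative R) B) z) :=
    S8aux.Deg_bt (Deg_pY d _ B h.deg)
  -- direct part
  have b1 := sum_Dir_le h (Deg_pY d R B h.deg) h3 w
  -- feedback part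
  set T : Fin (n / 2 + 1) → ZMod n → Om n → ℝ := fun e u ω =>
    bt (pY R B) (w + u) ω * De e (B u) ω with hT
  have hdT : ∀ e u, Deg (a + d) (T e u) := fun e u => (hdb _).mul ((h.deg u).De e)
  have b2 : ∑ e, ∑ u ∈ univ.erase (0 : ZMod n), nrm (T e u) ^ 2 ≤ c2 / n := by
    rw [sum_comm]
    calc ∑ u ∈ univ.erase (0 : ZMod n), ∑ e, nrm (T e u) ^ 2
        ≤ ∑ u ∈ univ.erase (0 : ZMod n), ∑ e, 3 ^ (a + d) *
          (nrm (bt (pY R B) (w + u)) ^ 2 * nrm (De e (B u)) ^ 2) :=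
          sum_le_sum fun u _ => sum_le_sum fun e _ => nrm_mul_sq_le (hdb _) ((h.deg u).De e)
      _ = ∑ u ∈ univ.erase (0 : ZMod n), 3 ^ (a + d) *
          (nrm (bt (pY R B) (w + u)) ^ 2 * ∑ e, nrm (De e (B u)) ^ 2) :=
          sum_congr rfl fun u _ => by rw [← mul_sum, ← mul_sum]
      _ ≤ ∑ u ∈ univ.erase (0 : ZMod n), 3 ^ (a + d) *
          (nrm (bt (pY R B) (w + u)) ^ 2 * (d * (C / n))) := by
          refine sum_le_sum fun u hu => ?_
          have e1 := sum_nrm_De_sq_le (h.deg u)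
          have e2 := h.b1 u (ne_of_mem_erase hu)
          have e3 : ∑ e, nrm (De e (B u)) ^ 2 ≤ d * (C / n) := e1.trans (by gcongr)
          gcongr
      _ = 3 ^ (a + d) * (d * (C / n)) * ∑ u ∈ univ.erase (0 : ZMod n),
            nrm (bt (pY R B) (w + u)) ^ 2 := by
          rw [mul_sum]
          exact sum_congr rfl fun u _ => by ring
      _ ≤ 3 ^ (a + d) * (d * (C / n)) * K := by
          gcongr
          exact sum_bt_shift_le h3 w
      _ = _ := by rw [hc2]; ring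
  -- self part
  have b3 : ∑ e, nrm (fun ω => ∑ u ∈ univ.erase (0 : ZMod n), De e (De (cl u) (B u)) ω
      * tw (cl u) (bt (pY R B) (w + u)) ω) ^ 2 ≤ c3 / n := by
    refine sum_Dedelta_le h (fun u => Deg_tw (cl u) (hdb (w + u))) ?_
    calc ∑ u ∈ univ.erase (0 : ZMod n), nrm (tw (cl u) (bt (pY R B) (w + u))) ^ 2
        ≤ ∑ u ∈ univ.erase (0 : ZMod n), 9 * nrm (bt (pY R B) (w + u)) ^ 2 :=
          sum_le_sum fun u _ => nrm_tw_sq_le _ _
      _ = 9 * ∑ u ∈ univ.erase (0 : ZMod n), nrm (bt (pY R B) (w + u)) ^ 2 := by rw [mul_sum]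
      _ ≤ 9 * K := by gcongr; exact sum_bt_shift_le h3 w
  have b4 : ∑ e, nrm (fun ω => ∑ u ∈ univ.erase (0 : ZMod n), De e (B u) ω
      * (De (cl u) (bt (pY R B) (w + u)) ω
        - bt (pY (Polynomial.derivative R) B) w ω * B u ω)) ^ 2 ≤ c4 / n :=
    sum_DeB_le h (fun u => Deg_Z8 d R h.deg w u) hZ
  have b5 : ∑ e, nrm (fun ω => bt (pY (Polynomial.derivative R) B) w ω
      * ∑ u ∈ univ.erase (0 : ZMod n), B u ω * De e (B u) ω) ^ 2 ≤ c5 / n := by
    calc _ ≤ ∑ e, 3 ^ (a' + (d + d)) * (nrm (bt (pY (Polynomial.derivative R) B) w) ^ 2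
          * nrm (fun ω => ∑ u ∈ univ.erase (0 : ZMod n), B u ω * De e (B u) ω) ^ 2) :=
          sum_le_sum fun e _ => nrm_mul_sq_le (hdb' w)
            (Deg.sum _ fun u _ => (h.deg u).mul ((h.deg u).De e))
      _ = 3 ^ (a' + (d + d)) * (nrm (bt (pY (Polynomial.derivative R) B) w) ^ 2
          * ∑ e, nrm (fun ω => ∑ u ∈ univ.erase (0 : ZMod n), B u ω * De e (B u) ω) ^ 2) := by
          rw [← mul_sum, ← mul_sum]
      _ ≤ 3 ^ (a' + (d + d)) * (K' * (C / n)) := by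
          have e1 := nrm_bt_sq_le h3' w
          have e2 := h.b5
          have e3 : 0 ≤ ∑ e, nrm (fun ω => ∑ u ∈ univ.erase (0 : ZMod n),
            B u ω * De e (B u) ω) ^ 2 := sum_nonneg fun _ _ => by positivity
          gcongr
      _ = _ := by rw [hc5]; ring
  have b45 := comb univ (Z := fun e ω => (∑ u ∈ univ.erase (0 : ZMod n), De e (B u) ω
      * (De (cl u) (bt (pY R B) (w + u)) ω
        - bt (pY (Polynomial.derivative R) B) w ω * B u ω))
      + bt (pY (Polynomial.derivative R) B) w ω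
      * ∑ u ∈ univ.erase (0 : ZMod n), B u ω * De e (B u) ω) (fun _ _ => rfl) b4 b5
  have bself : ∑ e, nrm (fun ω => ∑ u ∈ univ.erase (0 : ZMod n), De (cl u) (T e u) ω) ^ 2
      ≤ 2 * (c3 / n) + 2 * (2 * (c4 / n) + 2 * (c5 / n)) := by
    refine comb univ (fun e _ => ?_) b3 b45
    funext ω
    rw [mul_sum, ← sum_add_distrib, ← sum_add_distrib]
    refine sum_congr rfl fun u _ => ?_
    simp only [hT]
    have e1 := congrFun (De_mul (cl u) (bt (pY R B) (w + u)) (De e (B u))) ω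
    rw [e1, De_comm (cl u) e (B u)]
    simp only [tw]
    ring
  have bF : ∑ e, nrm (fun ω => ∑ u ∈ univ.erase (0 : ZMod n), sx u ω * T e u ω) ^ 2
      ≤ 4 * ((a + d : ℕ) + 1) * (c2 / n)
        + 2 * (2 * (c3 / n) + 2 * (2 * (c4 / n) + 2 * (c5 / n))) := by
    calc _ ≤ ∑ e, (4 * ((a + d : ℕ) + 1) * ∑ x ∈ univ.erase (0 : ZMod n), nrm (T e x) ^ 2
        + 2 * nrm (fun ω => ∑ x ∈ univ.erase (0 : ZMod n), De (cl x) (T e x) ω) ^ 2) :=
          sum_le_sum fun e _ => lemmaA' (hdT e)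
      _ = 4 * ((a + d : ℕ) + 1) * (∑ e, ∑ x ∈ univ.erase (0 : ZMod n), nrm (T e x) ^ 2)
        + 2 * ∑ e, nrm (fun ω => ∑ x ∈ univ.erase (0 : ZMod n), De (cl x) (T e x) ω) ^ 2 := by
          rw [sum_add_distrib, mul_sum, mul_sum]
      _ ≤ _ := by gcongr
  refine (comb univ (fun e _ => V_eq (pY R B) B h.even w e) b1 bF).trans (le_of_eq ?_)
  rw [hc1]
  ring

end Pool.Agent.CTheta
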