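import Pool.Agent.Work.MP_2c2d16_pr.SE.S7
import Pool.Agent.Work.MP_2c2d16_pr.SE.S8

set_option autoImplicit false

/-! Layer lemmas S9, S11, S12. -/

namespace Pool.Agent.CTheta

open Finset

section S9File

namespace S9aux

/-! ### generalities on the back transform -/

section gen

variable {n : ℕ} [NeZero n]

theorem bt_add (F G : ZMod n → Om n → ℝ) (w : ZMod n) :
    bt (fun j ω => F j ω + G j ω) w = fun ω => bt F w ω + bt G w ω := by
  funext ω
  rw [bt, bt, bt, ← add_div, ← Finset.sum_add_distrib]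
  congr 1
  exact Finset.sum_congr rfl fun j _ => by ring

theorem Deg_bt1 {D : ℕ} {H : ZMod n → Om n → ℝ} (h : ∀ j, Deg D (H j)) (w : ZMod n) :
    Deg D (bt H w) := by
  have h1 : bt H w = fun ω => (n : ℝ)⁻¹ * ∑ j : ZMod n, H j ω * co (j * w) := by
    funext ω
    rw [bt, div_eq_inv_mul]
  rw [h1]
  exact Deg.const_mul _ (Deg.sum _ fun j _ => Deg.mul_const _ (h j))

theorem bt_zero_eq (H : ZMod n → Om n → ℝ) (ω : Om n) :
    bt H 0 ω = (∑ j : ZMod n, H j ω) / n := by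
  rw [bt]
  congr 1
  exact Finset.sum_congr rfl fun j _ => by rw [mul_zero, co_zero, mul_one]

/-- the sum over all sites of a back transform -/
theorem sum_bt (H : ZMod n → Om n → ℝ) (ω : Om n) : ∑ u : ZMod n, bt H u ω = H 0 ω := by
  have hn : (n : ℝ) ≠ 0 := by exact_mod_cast (NeZero.ne n)
  unfold bt
  rw [← Finset.sum_div, Finset.sum_comm]
  have h1 : ∀ j : ZMod n, ∑ u : ZMod n, H j ω * co (j * u) =
      if j = 0 then (n : ℝ) * H 0 ω else 0 := by
    intro j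
    rw [← Finset.mul_sum, sum_co_mul']
    split_ifs with h
    · rw [h]; ring
    · ring
  simp_rw [h1]
  rw [Finset.sum_ite_eq', if_pos (Finset.mem_univ _)]
  field_simp

/-- Parseval for two back transforms, the first one even -/
theorem sum_bt_mul_bt (H G : ZMod n → Om n → ℝ) (he : ∀ j, H (-j) = H j) (ω : Om n) :
    ∑ u : ZMod n, bt H u ω * bt G u ω = (∑ j : ZMod n, H j ω * G j ω) / n := by
  have hn : (n : ℝ) ≠ 0 := by exact_mod_cast (NeZero.ne n)
  have h1 := parseval (fun j => H j ω) (fun j => G j ω) (fun j => by rw [he])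
  have h2 : ∑ u : ZMod n, bt H u ω * bt G u ω =
      ((n : ℝ)⁻¹ * (n : ℝ)⁻¹) * ∑ u : ZMod n,
        (∑ j : ZMod n, H j ω * co (j * u)) * (∑ j : ZMod n, G j ω * co (j * u)) := by
    rw [Finset.mul_sum]
    refine Finset.sum_congr rfl fun u _ => ?_
    rw [bt, bt, div_eq_inv_mul, div_eq_inv_mul]
    ring
  rw [h2, h1]
  field_simp

theorem card_E_le : ((n / 2 + 1 : ℕ) : ℝ) ≤ 2 * n := by
  have hn : 0 < n := Nat.pos_of_ne_zero (NeZero.ne n)
  have : n / 2 + 1 ≤ 2 * n := by omega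
  exact_mod_cast this

end gen

/-- the remainder in the chain rule -/
noncomputable def remv {n : ℕ} [NeZero n] (Q : Polynomial ℝ) (B : ZMod n → Om n → ℝ)
    (e : Fin (n / 2 + 1)) (j : ZMod n) : Om n → ℝ :=
  fun ω => De e (pY Q B j) ω - pY (Polynomial.derivative Q) B j ω * De e (Yv B j) ω

theorem De_bt_split {n : ℕ} [NeZero n] (Q : Polynomial ℝ) (B : ZMod n → Om n → ℝ)
    (e : Fin (n / 2 + 1)) (w : ZMod n) :
    De e (bt (pY Q B) w) = fun ω =>
      bt (fun j ω => pY (Polynomial.derivative Q) B j ω * De e (Yv B j) ω) w ω +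
      bt (remv Q B e) w ω := by
  rw [De_bt, ← bt_add]
  congr 1
  funext j ω
  rw [remv]; ring

/-- the remainder is `O(1/n)` after the back transform, also against a bounded factor -/
theorem rem_bound (d : ℕ) (C : ℝ) (Q : Polynomial ℝ) : ∃ K : ℝ, 0 ≤ K ∧ ∀ (n : ℕ) [NeZero n]
    (B : ZMod n → Om n → ℝ), Inv n B d C → ∀ e,
      ∑ j : ZMod n, nrm (remv Q B e j) ≤ K := by
  obtain ⟨K6, h6⟩ := S6 d C Q
  obtain ⟨K4, h4⟩ := S4 d C
  refine ⟨|K6| * |K4|, by positivity, ?_⟩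
  intro n _ B hB e
  calc ∑ j : ZMod n, nrm (remv Q B e j) ≤ ∑ j : ZMod n, |K6| * nrm (De e (Yv B j)) ^ 2 := by
        refine Finset.sum_le_sum fun j _ => ?_
        refine (h6 n B hB e j).trans ?_
        exact mul_le_mul_of_nonneg_right (le_abs_self _) (sq_nonneg _)
    _ = |K6| * ∑ j : ZMod n, nrm (De e (Yv B j)) ^ 2 := by rw [Finset.mul_sum]
    _ ≤ |K6| * |K4| :=
        mul_le_mul_of_nonneg_left ((h4 n B hB e).trans (le_abs_self _)) (abs_nonneg _)

theorem bt_rem_bound (d : ℕ) (C : ℝ) (Q : Polynomial ℝ) : ∃ K : ℝ, 0 ≤ K ∧ ∀ (n : ℕ) [NeZero n]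
    (B : ZMod n → Om n → ℝ), Inv n B d C → ∀ e w,
      nrm (bt (remv Q B e) w) ^ 2 ≤ K / (n : ℝ) ^ 2 := by
  obtain ⟨K, hK, h⟩ := rem_bound d C Q
  refine ⟨K ^ 2, by positivity, ?_⟩
  intro n _ B hB e w
  have hn : (0 : ℝ) < n := by exact_mod_cast Nat.pos_of_ne_zero (NeZero.ne n)
  have h1 : nrm (bt (remv Q B e) w) ≤ K / n :=
    (nrm_bt_le _ _).trans (div_le_div_of_nonneg_right (h n B hB e) hn.le)
  rw [← div_pow]
  exact pow_le_pow_left₀ (nrm_nonneg _) h1 2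

end S9aux

open S9aux in
/-- (S9) -/
theorem S9 (d : ℕ) (C : ℝ) (Q : Polynomial ℝ) : ∃ C' : ℝ, ∀ (n : ℕ) [NeZero n]
    (B : ZMod n → Om n → ℝ), Inv n B d C → ∀ w : ZMod n,
      ∑ e, nrm (De e (bt (pY Q B) w)) ^ 2 ≤ C' / n := by
  obtain ⟨K, hK, hrem⟩ := bt_rem_bound d C Q
  obtain ⟨K8, h8⟩ := S8 d C (Polynomial.derivative Q)
  refine ⟨2 * K8 + 4 * K, ?_⟩
  intro n _ B hB w
  have hn : (0 : ℝ) < n := by exact_mod_cast Nat.pos_of_ne_zero (NeZero.ne n)
  have h1 : ∀ e, nrm (De e (bt (pY Q B) w)) ^ 2 ≤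
      2 * nrm (bt (fun j ω => pY (Polynomial.derivative Q) B j ω * De e (Yv B j) ω) w) ^ 2 +
      2 * (K / (n : ℝ) ^ 2) := by
    intro e
    rw [De_bt_split]
    refine (nrm_add_sq_le _ _).trans ?_
    have := hrem n B hB e w
    linarith
  calc ∑ e, nrm (De e (bt (pY Q B) w)) ^ 2 ≤
      ∑ e, (2 * nrm (bt (fun j ω => pY (Polynomial.derivative Q) B j ω * De e (Yv B j) ω) w) ^ 2 +
      2 * (K / (n : ℝ) ^ 2)) := Finset.sum_le_sum fun e _ => h1 e
    _ = 2 * ∑ e, nrm (bt (fun j ω => pY (Polynomial.derivative Q) B j ω * De e (Yv B j) ω) w) ^ 2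
        + ((n / 2 + 1 : ℕ) : ℝ) * (2 * (K / (n : ℝ) ^ 2)) := by
        rw [Finset.sum_add_distrib, ← Finset.mul_sum, Finset.sum_const, Finset.card_univ,
          Fintype.card_fin, nsmul_eq_mul]
    _ ≤ 2 * (K8 / n) + (2 * n) * (2 * (K / (n : ℝ) ^ 2)) := by
        have e1 := h8 n B hB w
        have e2 : ((n / 2 + 1 : ℕ) : ℝ) * (2 * (K / (n : ℝ) ^ 2)) ≤
            (2 * n) * (2 * (K / (n : ℝ) ^ 2)) :=
          mul_le_mul_of_nonneg_right card_E_le (by positivity)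
        linarith
    _ = (2 * K8 + 4 * K) / n := by field_simp; ring

namespace S9aux

/-- the derivative of the field after the back transform -/
theorem bt_main_eq {n : ℕ} [NeZero n] (R : Polynomial ℝ) (B : ZMod n → Om n → ℝ)
    (hB : ∀ x, B (-x) = B x) (x w : ZMod n) :
    bt (fun j ω => pY R B j ω * De (cl x) (Yv B j) ω) (w + x) = fun ω =>
      (∑ y ∈ (univ.erase (0 : ZMod n)).filter (fun y => cl y = cl x),
        (B y ω - 2 * sg (ω (cl x)) * De (cl x) (B y) ω) *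
          ((bt (pY R B) (w + 2 * x) ω + bt (pY R B) w ω) / 2)) +
      ∑ v ∈ univ.erase (0 : ZMod n),
        sx v ω * (bt (pY R B) (w + x + v) ω * De (cl x) (B v) ω) := by
  funext ω
  have hn : (n : ℝ) ≠ 0 := by exact_mod_cast (NeZero.ne n)
  -- a single frequency
  have hone : ∀ y z : ZMod n, (∑ j : ZMod n, pY R B j ω * (co (j * y) * co (j * z))) / n =
      (bt (pY R B) (z + y) ω + bt (pY R B) (z - y) ω) / 2 := by
    intro y z
    have e1 : ∀ j : ZMod n, pY R B j ω * (co (j * y) * co (j * z)) =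
        (pY R B j ω * co (j * (z + y)) + pY R B j ω * co (j * (z - y))) / 2 := by
      intro j
      rw [mul_comm (co (j * y)) (co (j * z)), co_mul_co, mul_add, mul_sub]
      ring
    simp_rw [e1]
    rw [← Finset.sum_div, Finset.sum_add_distrib, bt, bt]
    field_simp
  -- expand
  have h1 : bt (fun j ω => pY R B j ω * De (cl x) (Yv B j) ω) (w + x) ω =
      (∑ y ∈ (univ.erase (0 : ZMod n)).filter (fun y => cl y = cl x),
        (B y ω - 2 * sg (ω (cl x)) * De (cl x) (B y) ω) *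
          ((∑ j : ZMod n, pY R B j ω * (co (j * y) * co (j * (w + x)))) / n)) +
      ∑ v ∈ univ.erase (0 : ZMod n), sx v ω * De (cl x) (B v) ω *
          ((∑ j : ZMod n, pY R B j ω * (co (j * v) * co (j * (w + x)))) / n) := by
    rw [bt]
    have e1 : ∀ j : ZMod n, pY R B j ω * De (cl x) (Yv B j) ω * co (j * (w + x)) =
        (∑ y ∈ (univ.erase (0 : ZMod n)).filter (fun y => cl y = cl x),
          (B y ω - 2 * sg (ω (cl x)) * De (cl x) (B y) ω) *
            (pY R B j ω * (co (j * y) * co (j * (w + x))))) +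
        ∑ v ∈ univ.erase (0 : ZMod n), sx v ω * De (cl x) (B v) ω *
            (pY R B j ω * (co (j * v) * co (j * (w + x)))) := by
      intro j
      rw [De_Yv, mul_assoc, mul_comm, add_mul, add_mul, Finset.sum_mul, Finset.sum_mul,
        Finset.sum_mul, Finset.sum_mul]
      congr 1
      · exact Finset.sum_congr rfl fun y _ => by ring
      · exact Finset.sum_congr rfl fun y _ => by ring
    simp_rw [e1]
    rw [Finset.sum_add_distrib, add_div, Finset.sum_comm, Finset.sum_div]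
    congr 1
    · refine Finset.sum_congr rfl fun y _ => ?_
      rw [← Finset.mul_sum, mul_div_assoc]
    · rw [Finset.sum_comm, Finset.sum_div]
      refine Finset.sum_congr rfl fun y _ => ?_
      rw [← Finset.mul_sum, mul_div_assoc]
  rw [h1]
  congr 1
  · refine Finset.sum_congr rfl fun y hy => ?_
    rw [hone]
    congr 1
    have hcl := (Finset.mem_filter.mp hy).2
    rcases (cl_eq_iff y x).mp hcl with h | h
    · rw [h, show w + x + x = w + 2 * x by ring, show w + x - x = w by ring]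
    · rw [h, show w + x + -x = w by ring, show w + x - -x = w + 2 * x by ring, add_comm]
  · -- symmetrisation of the feedback
    have h2 : ∀ v : ZMod n, sx v ω * De (cl x) (B v) ω *
        ((∑ j : ZMod n, pY R B j ω * (co (j * v) * co (j * (w + x)))) / n) =
        (sx v ω * (bt (pY R B) (w + x + v) ω * De (cl x) (B v) ω) +
        sx (-v) ω * (bt (pY R B) (w + x + -v) ω * De (cl x) (B (-v)) ω)) / 2 := by
      intro v
      have e1 : sx (-v) ω = sx v ω := by rw [sx, sx, cl_neg]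
      rw [hone, e1, hB, ← sub_eq_add_neg]
      ring
    simp_rw [h2]
    rw [← Finset.sum_div, Finset.sum_add_distrib]
    have h3 : ∑ v ∈ univ.erase (0 : ZMod n),
        sx (-v) ω * (bt (pY R B) (w + x + -v) ω * De (cl x) (B (-v)) ω) =
        ∑ v ∈ univ.erase (0 : ZMod n),
        sx v ω * (bt (pY R B) (w + x + v) ω * De (cl x) (B v) ω) := by
      refine Finset.sum_nbij' (fun v => -v) (fun v => -v) ?_ ?_ ?_ ?_ ?_
      · intro v hv
        rw [Finset.mem_erase] at hv ⊢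
        exact ⟨neg_ne_zero.mpr hv.1, Finset.mem_univ _⟩
      · intro v hv
        rw [Finset.mem_erase] at hv ⊢
        exact ⟨neg_ne_zero.mpr hv.1, Finset.mem_univ _⟩
      · intro v _; exact neg_neg v
      · intro v _; exact neg_neg v
      · intro v _; rfl
    rw [h3]; ring

end S9aux

open S9aux in
/-- (S11) -/
theorem S11 (d : ℕ) (C : ℝ) (Q : Polynomial ℝ) (C1 : ℝ) : ∃ C' : ℝ, ∀ (n : ℕ) [NeZero n]
    (B : ZMod n → Om n → ℝ), Inv n B d C → ∀ w : ZMod n,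
      nrm (bt (pY (Polynomial.derivative Q) B) w) ^ 2 ≤ C1 / n →
      ∑ x ∈ univ.erase (0 : ZMod n), nrm (De (cl x) (bt (pY Q B) (w + x))) ^ 2 ≤ C' / n := by
  obtain ⟨K, hK, hrem⟩ := bt_rem_bound d C Q
  obtain ⟨K7, h7⟩ := S7 d C (Polynomial.derivative Q)
  obtain ⟨K3, h3⟩ := S3 d C (Polynomial.derivative Q)
  set R := Polynomial.derivative Q with hR
  set M : ℝ := 3 ^ ((d + 1) + R.natDegree * (d + 1)) with hM
  have hM0 : 0 ≤ M := by positivity
  refine ⟨4 * (4 * M * 9 * |C| * ((2 * |K3| + |C1|) / 2)) + 4 * K7 + 2 * K, ?_⟩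
  intro n _ B hB w hw
  have hn : (0 : ℝ) < n := by exact_mod_cast Nat.pos_of_ne_zero (NeZero.ne n)
  -- the three parts
  have hsplit : ∀ x : ZMod n, nrm (De (cl x) (bt (pY Q B) (w + x))) ^ 2 ≤
      4 * nrm (fun ω => ∑ y ∈ (univ.erase (0 : ZMod n)).filter (fun y => cl y = cl x),
        (B y ω - 2 * sg (ω (cl x)) * De (cl x) (B y) ω) *
          ((bt (pY R B) (w + 2 * x) ω + bt (pY R B) w ω) / 2)) ^ 2 +
      4 * nrm (fun ω => ∑ v ∈ univ.erase (0 : ZMod n),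
        sx v ω * (bt (pY R B) (w + x + v) ω * De (cl x) (B v) ω)) ^ 2 +
      2 * (K / (n : ℝ) ^ 2) := by
    intro x
    rw [De_bt_split, ← hR]
    refine (nrm_add_sq_le _ _).trans ?_
    have e1 := hrem n B hB (cl x) (w + x)
    have e2 := nrm_add_sq_le (fun ω => ∑ y ∈ (univ.erase (0 : ZMod n)).filter
        (fun y => cl y = cl x), (B y ω - 2 * sg (ω (cl x)) * De (cl x) (B y) ω) *
          ((bt (pY R B) (w + 2 * x) ω + bt (pY R B) w ω) / 2))
      (fun ω => ∑ v ∈ univ.erase (0 : ZMod n),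
        sx v ω * (bt (pY R B) (w + x + v) ω * De (cl x) (B v) ω))
    rw [bt_main_eq R B hB.even x w]
    linarith
  -- the direct part
  have hdir : ∀ x : ZMod n, x ≠ 0 →
      nrm (fun ω => ∑ y ∈ (univ.erase (0 : ZMod n)).filter (fun y => cl y = cl x),
        (B y ω - 2 * sg (ω (cl x)) * De (cl x) (B y) ω) *
          ((bt (pY R B) (w + 2 * x) ω + bt (pY R B) w ω) / 2)) ^ 2 ≤
      4 * M * 9 * (|C| / n) *
        ((nrm (bt (pY R B) (w + 2 * x)) ^ 2 + nrm (bt (pY R B) w) ^ 2) / 2) := by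
    intro x hx
    set S := (univ.erase (0 : ZMod n)).filter (fun y => cl y = cl x) with hS
    have hcard : (S.card : ℝ) ≤ 2 := by
      have h1 : S ⊆ univ.filter (fun y : ZMod n => cl y = cl x) :=
        Finset.filter_subset_filter _ (Finset.erase_subset _ _)
      exact_mod_cast (Finset.card_le_card h1).trans (card_fiber_le (cl x))
    set L : ℝ := (nrm (bt (pY R B) (w + 2 * x)) ^ 2 + nrm (bt (pY R B) w) ^ 2) / 2 with hL
    have hL0 : 0 ≤ L := by positivity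
    have hterm : ∀ y ∈ S, nrm (fun ω => (B y ω - 2 * sg (ω (cl x)) * De (cl x) (B y) ω) *
          ((bt (pY R B) (w + 2 * x) ω + bt (pY R B) w ω) / 2)) ^ 2 ≤ M * (9 * (|C| / n) * L) := by
      intro y hy
      have hy0 : y ≠ 0 := (Finset.mem_erase.mp (Finset.mem_filter.mp hy).1).1
      have hdeg1 : Deg (d + 1) (fun ω => B y ω - 2 * sg (ω (cl x)) * De (cl x) (B y) ω) := by
        apply Deg.sub ((hB.deg y).mono (Nat.le_succ d))
        have e1 : Deg (1 + d) (fun ω : Om n => sg (ω (cl x)) * De (cl x) (B y) ω) :=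
          Deg.mul (Deg_sg _) (Deg.De _ (hB.deg y))
        have e2 := Deg.const_mul 2 e1
        have e3 : (fun ω : Om n => 2 * sg (ω (cl x)) * De (cl x) (B y) ω) =
            fun ω => 2 * (sg (ω (cl x)) * De (cl x) (B y) ω) := by
          funext ω; ring
        rw [e3]
        exact e2.mono (Nat.le_of_eq (Nat.add_comm 1 d))
      have hdeg2 : Deg (R.natDegree * (d + 1))
          (fun ω => (bt (pY R B) (w + 2 * x) ω + bt (pY R B) w ω) / 2) := by
        have e1 := Deg.mul_const (1 / 2 : ℝ) (Deg.add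
          (Deg_bt1 (fun j => Deg_pY d R B hB.deg j) (w + 2 * x))
          (Deg_bt1 (fun j => Deg_pY d R B hB.deg j) w))
        have e3 : (fun ω : Om n => (bt (pY R B) (w + 2 * x) ω + bt (pY R B) w ω) / 2) =
            fun ω => (bt (pY R B) (w + 2 * x) ω + bt (pY R B) w ω) * (1 / 2) := by
          funext ω; ring
        rw [e3]; exact e1
      refine (nrm_mul_sq_le hdeg1 hdeg2).trans ?_
      rw [← hM]
      apply mul_le_mul_of_nonneg_left _ hM0
      apply mul_le_mul _ _ (sq_nonneg _) (by positivity)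
      · -- the factor `b`
        have e1 : nrm (fun ω => B y ω - 2 * sg (ω (cl x)) * De (cl x) (B y) ω) ≤
            3 * nrm (B y) := by
          refine (nrm_sub_le _ _).trans ?_
          have e2 : (fun ω : Om n => 2 * sg (ω (cl x)) * De (cl x) (B y) ω) =
              fun ω => 2 * (sg (ω (cl x)) * De (cl x) (B y) ω) := by
            funext ω; ring
          have e3 : nrm (fun ω : Om n => 2 * sg (ω (cl x)) * De (cl x) (B y) ω) ≤
              2 * nrm (B y) := by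
            rw [e2, nrm_const_mul, nrm_sg_mul, abs_of_pos (by norm_num : (0 : ℝ) < 2)]
            exact mul_le_mul_of_nonneg_left (nrm_De_le _ _) (by norm_num)
          have e4 : nrm (fun ω : Om n => B y ω) = nrm (B y) := rfl
          linarith
        have e5 := pow_le_pow_left₀ (nrm_nonneg _) e1 2
        have e6 := hB.b1 y hy0
        have e7 : C / n ≤ |C| / n := div_le_div_of_nonneg_right (le_abs_self C) hn.le
        calc nrm (fun ω => B y ω - 2 * sg (ω (cl x)) * De (cl x) (B y) ω) ^ 2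
            ≤ (3 * nrm (B y)) ^ 2 := e5
          _ = 9 * nrm (B y) ^ 2 := by ring
          _ ≤ 9 * (|C| / n) := by linarith
      · -- the factor `β`
        have e3 : (fun ω : Om n => (bt (pY R B) (w + 2 * x) ω + bt (pY R B) w ω) / 2) =
            fun ω => (1 / 2 : ℝ) * (bt (pY R B) (w + 2 * x) ω + bt (pY R B) w ω) := by
          funext ω; ring
        rw [e3, nrm_const_mul, mul_pow]
        have e4 := nrm_add_sq_le (bt (pY R B) (w + 2 * x)) (bt (pY R B) w)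
        have e5 : |(1 / 2 : ℝ)| ^ 2 = 1 / 4 := by
          rw [abs_of_pos (by norm_num : (0 : ℝ) < 1 / 2)]; norm_num
        rw [e5, hL]
        linarith
    refine (nrm_sum_sq_le S _).trans ?_
    calc (S.card : ℝ) * ∑ y ∈ S, nrm (fun ω => (B y ω - 2 * sg (ω (cl x)) *
          De (cl x) (B y) ω) * ((bt (pY R B) (w + 2 * x) ω + bt (pY R B) w ω) / 2)) ^ 2
        ≤ (S.card : ℝ) * ∑ y ∈ S, M * (9 * (|C| / n) * L) :=
          mul_le_mul_of_nonneg_left (Finset.sum_le_sum hterm) (Nat.cast_nonneg _)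
      _ = (S.card : ℝ) * ((S.card : ℝ) * (M * (9 * (|C| / n) * L))) := by
          rw [Finset.sum_const, nsmul_eq_mul]
      _ ≤ 2 * (2 * (M * (9 * (|C| / n) * L))) := by
          have h0 : 0 ≤ M * (9 * (|C| / n) * L) := by positivity
          apply mul_le_mul hcard _ (mul_nonneg (Nat.cast_nonneg _) h0) (by norm_num)
          exact mul_le_mul_of_nonneg_right hcard h0
      _ = 4 * M * 9 * (|C| / n) * L := by ring
  -- sums over `x`
  have hβ : ∑ x : ZMod n, nrm (bt (pY R B) x) ^ 2 ≤ |K3| := by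
    refine (sum_nrm_bt_sq_le _).trans ?_
    rw [div_le_iff₀ hn]
    calc ∑ j : ZMod n, nrm (pY R B j) ^ 2 ≤ ∑ _j : ZMod n, |K3| :=
          Finset.sum_le_sum fun j _ => (h3 n B hB j).trans (le_abs_self _)
      _ = |K3| * n := by
          rw [Finset.sum_const, Finset.card_univ, ZMod.card, nsmul_eq_mul, mul_comm]
  have hβ2 : ∑ x ∈ univ.erase (0 : ZMod n), nrm (bt (pY R B) (w + 2 * x)) ^ 2 ≤ 2 * |K3| := by
    calc ∑ x ∈ univ.erase (0 : ZMod n), nrm (bt (pY R B) (w + 2 * x)) ^ 2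
        ≤ ∑ x : ZMod n, nrm (bt (pY R B) (w + 2 * x)) ^ 2 :=
          Finset.sum_le_sum_of_subset_of_nonneg (Finset.erase_subset _ _)
            fun _ _ _ => sq_nonneg _
      _ ≤ 2 * ∑ x : ZMod n, nrm (bt (pY R B) x) ^ 2 :=
          sum_two_mul_le (fun x => nrm (bt (pY R B) x) ^ 2) (fun _ => sq_nonneg _) w
      _ ≤ 2 * |K3| := by linarith
  have hcardE : ((univ.erase (0 : ZMod n)).card : ℝ) ≤ n := by
    have h1 : (univ.erase (0 : ZMod n)).card ≤ (univ : Finset (ZMod n)).card :=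
      Finset.card_le_card (Finset.erase_subset _ _)
    rw [Finset.card_univ, ZMod.card] at h1
    exact_mod_cast h1
  have hβw : ∑ x ∈ univ.erase (0 : ZMod n), nrm (bt (pY R B) w) ^ 2 ≤ |C1| := by
    rw [Finset.sum_const, nsmul_eq_mul]
    have e1 : nrm (bt (pY R B) w) ^ 2 ≤ |C1| / n :=
      hw.trans (div_le_div_of_nonneg_right (le_abs_self _) hn.le)
    calc ((univ.erase (0 : ZMod n)).card : ℝ) * nrm (bt (pY R B) w) ^ 2
        ≤ n * (|C1| / n) := mul_le_mul hcardE e1 (sq_nonneg _) hn.le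
      _ = |C1| := by field_simp
  have hsumdir : ∑ x ∈ univ.erase (0 : ZMod n),
      nrm (fun ω => ∑ y ∈ (univ.erase (0 : ZMod n)).filter (fun y => cl y = cl x),
        (B y ω - 2 * sg (ω (cl x)) * De (cl x) (B y) ω) *
          ((bt (pY R B) (w + 2 * x) ω + bt (pY R B) w ω) / 2)) ^ 2 ≤
      4 * M * 9 * (|C| / n) * ((2 * |K3| + |C1|) / 2) := by
    calc _ ≤ ∑ x ∈ univ.erase (0 : ZMod n), 4 * M * 9 * (|C| / n) *
        ((nrm (bt (pY R B) (w + 2 * x)) ^ 2 + nrm (bt (pY R B) w) ^ 2) / 2) :=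
          Finset.sum_le_sum fun x hx => hdir x (Finset.mem_erase.mp hx).1
      _ = 4 * M * 9 * (|C| / n) * ((∑ x ∈ univ.erase (0 : ZMod n),
          nrm (bt (pY R B) (w + 2 * x)) ^ 2 +
          ∑ x ∈ univ.erase (0 : ZMod n), nrm (bt (pY R B) w) ^ 2) / 2) := by
          rw [← Finset.mul_sum, ← Finset.sum_div, Finset.sum_add_distrib]
      _ ≤ 4 * M * 9 * (|C| / n) * ((2 * |K3| + |C1|) / 2) := by
          apply mul_le_mul_of_nonneg_left _ (by positivity)
          linarith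
  have h7' := h7 n B hB w
  calc ∑ x ∈ univ.erase (0 : ZMod n), nrm (De (cl x) (bt (pY Q B) (w + x))) ^ 2
      ≤ ∑ x ∈ univ.erase (0 : ZMod n), (4 * nrm (fun ω =>
        ∑ y ∈ (univ.erase (0 : ZMod n)).filter (fun y => cl y = cl x),
        (B y ω - 2 * sg (ω (cl x)) * De (cl x) (B y) ω) *
          ((bt (pY R B) (w + 2 * x) ω + bt (pY R B) w ω) / 2)) ^ 2 +
      4 * nrm (fun ω => ∑ v ∈ univ.erase (0 : ZMod n),
        sx v ω * (bt (pY R B) (w + x + v) ω * De (cl x) (B v) ω)) ^ 2 +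
      2 * (K / (n : ℝ) ^ 2)) := Finset.sum_le_sum fun x _ => hsplit x
    _ = 4 * ∑ x ∈ univ.erase (0 : ZMod n), nrm (fun ω =>
        ∑ y ∈ (univ.erase (0 : ZMod n)).filter (fun y => cl y = cl x),
        (B y ω - 2 * sg (ω (cl x)) * De (cl x) (B y) ω) *
          ((bt (pY R B) (w + 2 * x) ω + bt (pY R B) w ω) / 2)) ^ 2 +
      4 * ∑ x ∈ univ.erase (0 : ZMod n), nrm (fun ω => ∑ v ∈ univ.erase (0 : ZMod n),
        sx v ω * (bt (pY R B) (w + x + v) ω * De (cl x) (B v) ω)) ^ 2 +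
      ((univ.erase (0 : ZMod n)).card : ℝ) * (2 * (K / (n : ℝ) ^ 2)) := by
        rw [Finset.sum_add_distrib, Finset.sum_add_distrib, ← Finset.mul_sum, ← Finset.mul_sum,
          Finset.sum_const, nsmul_eq_mul]
    _ ≤ 4 * (4 * M * 9 * (|C| / n) * ((2 * |K3| + |C1|) / 2)) + 4 * (K7 / n) +
        n * (2 * (K / (n : ℝ) ^ 2)) := by
        have e1 : ((univ.erase (0 : ZMod n)).card : ℝ) * (2 * (K / (n : ℝ) ^ 2)) ≤
            n * (2 * (K / (n : ℝ) ^ 2)) :=
          mul_le_mul_of_nonneg_right hcardE (by positivity)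
        linarith
    _ = (4 * (4 * M * 9 * |C| * ((2 * |K3| + |C1|) / 2)) + 4 * K7 + 2 * K) / n := by
        field_simp

namespace S9aux

theorem nrm_add4_sq_le {E : Type} [Fintype E] [DecidableEq E] (F G H L : (E → Bool) → ℝ) :
    nrm (fun ω => F ω + G ω + H ω - L ω) ^ 2 ≤
      4 * nrm F ^ 2 + 4 * nrm G ^ 2 + 4 * nrm H ^ 2 + 4 * nrm L ^ 2 := by
  have h1 : nrm (fun ω => F ω + G ω + H ω - L ω) ≤ nrm F + nrm G + nrm H + nrm L := by
    refine (nrm_sub_le (fun ω => F ω + G ω + H ω) L).trans ?_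
    have h2 := nrm_add_le (fun ω => F ω + G ω) H
    have h3 := nrm_add_le F G
    linarith
  have h4 := pow_le_pow_left₀ (nrm_nonneg _) h1 2
  nlinarith [sq_nonneg (nrm F - nrm G), sq_nonneg (nrm F - nrm H), sq_nonneg (nrm F - nrm L),
    sq_nonneg (nrm G - nrm H), sq_nonneg (nrm G - nrm L), sq_nonneg (nrm H - nrm L)]

theorem De_nextB {n : ℕ} [NeZero n] (κ : ℝ) (ψ : Polynomial ℝ) (B : ZMod n → Om n → ℝ)
    (e : Fin (n / 2 + 1)) (u : ZMod n) :
    De e (nextB κ ψ B u) = bt (fun j => De e (pY ψ B j)) u := by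
  have h1 : nextB κ ψ B u = fun ω => (fun _ => κ / Real.sqrt (n : ℝ)) ω + bt (pY ψ B) u ω := rfl
  rw [h1, De_add, De_const, De_bt]
  funext ω
  simp

/-- the algebraic identity behind (S12) -/
theorem next_sum_eq {n : ℕ} [NeZero n] (κ : ℝ) (ψ : Polynomial ℝ) (B : ZMod n → Om n → ℝ)
    (e : Fin (n / 2 + 1)) :
    (fun ω => ∑ u ∈ univ.erase (0 : ZMod n), nextB κ ψ B u ω * De e (nextB κ ψ B u) ω) =
    fun ω => (κ / Real.sqrt (n : ℝ)) * De e (pY ψ B 0) ω +
      bt (fun j ω => pY (ψ * Polynomial.derivative ψ) B j ω * De e (Yv B j) ω) 0 ω +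
      (n : ℝ)⁻¹ * (∑ j : ZMod n, pY ψ B j ω * remv ψ B e j ω) -
      nextB κ ψ B 0 ω * De e (nextB κ ψ B 0) ω := by
  funext ω
  have h1 : ∑ u : ZMod n, nextB κ ψ B u ω * De e (nextB κ ψ B u) ω =
      (κ / Real.sqrt (n : ℝ)) * De e (pY ψ B 0) ω +
      (∑ j : ZMod n, pY ψ B j ω * De e (pY ψ B j) ω) / n := by
    have e1 : ∀ u : ZMod n, nextB κ ψ B u ω * De e (nextB κ ψ B u) ω =
        (κ / Real.sqrt (n : ℝ)) * bt (fun j => De e (pY ψ B j)) u ω +
        bt (pY ψ B) u ω * bt (fun j => De e (pY ψ B j)) u ω := by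
      intro u
      rw [De_nextB, nextB]; ring
    simp_rw [e1]
    rw [Finset.sum_add_distrib, ← Finset.mul_sum, sum_bt, sum_bt_mul_bt _ _ (pY_neg ψ B)]
  have h2 : (∑ j : ZMod n, pY ψ B j ω * De e (pY ψ B j) ω) / n =
      bt (fun j ω => pY (ψ * Polynomial.derivative ψ) B j ω * De e (Yv B j) ω) 0 ω +
      (n : ℝ)⁻¹ * (∑ j : ZMod n, pY ψ B j ω * remv ψ B e j ω) := by
    rw [bt_zero_eq, ← div_eq_inv_mul, ← add_div, ← Finset.sum_add_distrib]
    congr 1
    refine Finset.sum_congr rfl fun j _ => ?_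
    rw [remv, pY, pY, pY, Polynomial.eval_mul]
    ring
  have h3 := Finset.add_sum_erase (univ : Finset (ZMod n))
    (fun u => nextB κ ψ B u ω * De e (nextB κ ψ B u) ω) (Finset.mem_univ 0)
  rw [h1, h2] at h3
  linarith

/-- the remainder against a bounded factor -/
theorem mul_rem_bound (d : ℕ) (C : ℝ) (Q : Polynomial ℝ) : ∃ K : ℝ, 0 ≤ K ∧ ∀ (n : ℕ) [NeZero n]
    (B : ZMod n → Om n → ℝ), Inv n B d C → ∀ e,
      nrm (fun ω => (n : ℝ)⁻¹ * (∑ j : ZMod n, pY Q B j ω * remv Q B e j ω)) ^ 2 ≤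
        K / (n : ℝ) ^ 2 := by
  obtain ⟨K, hK, h⟩ := rem_bound d C Q
  obtain ⟨K3, h3⟩ := S3 d C Q
  set D : ℕ := Q.natDegree * (d + 1) with hD
  set D' : ℕ := Q.natDegree * (d + 1) +
    ((Polynomial.derivative Q).natDegree * (d + 1) + (d + 1)) with hD'
  refine ⟨(3 ^ (D + D') * (Real.sqrt |K3| * K)) ^ 2, by positivity, ?_⟩
  intro n _ B hB e
  have hn : (0 : ℝ) < n := by exact_mod_cast Nat.pos_of_ne_zero (NeZero.ne n)
  have hdeg : ∀ j, Deg D' (remv Q B e j) := by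
    intro j
    have e1 : Deg D' (De e (pY Q B j)) :=
      (Deg.De e (Deg_pY d Q B hB.deg j)).mono (Nat.le_add_right _ _)
    have e2 : Deg D' (fun ω => pY (Polynomial.derivative Q) B j ω * De e (Yv B j) ω) :=
      (Deg.mul (Deg_pY d (Polynomial.derivative Q) B hB.deg j)
        (Deg.De e (S2 d B hB.deg j))).mono (Nat.le_add_left _ _)
    exact Deg.sub e1 e2
  have h1 : nrm (fun ω => (n : ℝ)⁻¹ * (∑ j : ZMod n, pY Q B j ω * remv Q B e j ω)) ≤
      (n : ℝ)⁻¹ * (3 ^ (D + D') * (Real.sqrt |K3| * K)) := by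
    rw [nrm_const_mul, abs_of_pos (inv_pos.mpr hn)]
    apply mul_le_mul_of_nonneg_left _ (inv_pos.mpr hn).le
    refine (nrm_sum_le _ _).trans ?_
    have e1 : ∀ j : ZMod n, nrm (fun ω => pY Q B j ω * remv Q B e j ω) ≤
        3 ^ (D + D') * (Real.sqrt |K3| * nrm (remv Q B e j)) := by
      intro j
      refine (nrm_mul_le (Deg_pY d Q B hB.deg j) (hdeg j)).trans ?_
      have e2 : nrm (pY Q B j) ≤ Real.sqrt |K3| :=
        Real.le_sqrt_of_sq_le ((h3 n B hB j).trans (le_abs_self _))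
      exact mul_le_mul_of_nonneg_left (mul_le_mul_of_nonneg_right e2 (nrm_nonneg _))
        (by positivity)
    refine (Finset.sum_le_sum fun j _ => e1 j).trans ?_
    rw [← Finset.mul_sum, ← Finset.mul_sum]
    apply mul_le_mul_of_nonneg_left _ (by positivity)
    exact mul_le_mul_of_nonneg_left (h n B hB e) (Real.sqrt_nonneg _)
  refine (pow_le_pow_left₀ (nrm_nonneg _) h1 2).trans (le_of_eq ?_)
  rw [mul_pow, inv_pow, div_eq_inv_mul]

end S9aux

open S9aux in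
/-- (S12) -/
theorem S12 (d : ℕ) (C κ : ℝ) (ψ : Polynomial ℝ) : ∃ C' : ℝ, ∀ (n : ℕ) [NeZero n]
    (B : ZMod n → Om n → ℝ), Inv n B d C →
      ∑ e, nrm (fun ω => ∑ u ∈ univ.erase (0 : ZMod n),
        nextB κ ψ B u ω * De e (nextB κ ψ B u) ω) ^ 2 ≤ C' / n := by
  obtain ⟨K, hK, hrem⟩ := mul_rem_bound d C ψ
  obtain ⟨K8, h8⟩ := S8 d C (ψ * Polynomial.derivative ψ)
  obtain ⟨K9, h9⟩ := S9 d C ψ
  obtain ⟨K3, h3⟩ := S3 d C ψ
  set D : ℕ := ψ.natDegree * (d + 1) with hD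
  refine ⟨4 * (κ ^ 2 * (D * |K3|)) + 4 * K8 + 4 * (2 * K) +
    4 * (3 ^ (D + D) * ((2 * κ ^ 2 + 2 * |K3|) * |K9|)), ?_⟩
  intro n _ B hB
  have hn : (0 : ℝ) < n := by exact_mod_cast Nat.pos_of_ne_zero (NeZero.ne n)
  have hn1 : (1 : ℝ) ≤ n := by exact_mod_cast Nat.pos_of_ne_zero (NeZero.ne n)
  have hK3 : ∀ j, nrm (pY ψ B j) ^ 2 ≤ |K3| := fun j => (h3 n B hB j).trans (le_abs_self _)
  have hDegp : ∀ j, Deg D (pY ψ B j) := fun j => Deg_pY d ψ B hB.deg j
  -- the four parts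
  have hsplit : ∀ e, nrm (fun ω => ∑ u ∈ univ.erase (0 : ZMod n),
        nextB κ ψ B u ω * De e (nextB κ ψ B u) ω) ^ 2 ≤
      4 * nrm (fun ω => (κ / Real.sqrt (n : ℝ)) * De e (pY ψ B 0) ω) ^ 2 +
      4 * nrm (bt (fun j ω => pY (ψ * Polynomial.derivative ψ) B j ω * De e (Yv B j) ω) 0) ^ 2 +
      4 * nrm (fun ω => (n : ℝ)⁻¹ * (∑ j : ZMod n, pY ψ B j ω * remv ψ B e j ω)) ^ 2 +
      4 * nrm (fun ω => nextB κ ψ B 0 ω * De e (nextB κ ψ B 0) ω) ^ 2 := by
    intro e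
    rw [next_sum_eq]
    exact nrm_add4_sq_le _ _ _ _
  -- part 1
  have hp1 : ∑ e, nrm (fun ω => (κ / Real.sqrt (n : ℝ)) * De e (pY ψ B 0) ω) ^ 2 ≤
      κ ^ 2 * (D * |K3|) / n := by
    have e1 : ∀ e, nrm (fun ω => (κ / Real.sqrt (n : ℝ)) * De e (pY ψ B 0) ω) ^ 2 =
        κ ^ 2 / n * nrm (De e (pY ψ B 0)) ^ 2 := by
      intro e
      have e2 : nrm (fun ω => (κ / Real.sqrt (n : ℝ)) * De e (pY ψ B 0) ω) =
          |κ / Real.sqrt (n : ℝ)| * nrm (De e (pY ψ B 0)) := nrm_const_mul _ _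
      rw [e2, mul_pow, sq_abs, div_pow, Real.sq_sqrt hn.le]
    simp_rw [e1]
    rw [← Finset.mul_sum]
    have e3 := sum_nrm_De_sq_le (hDegp 0)
    calc κ ^ 2 / n * ∑ e, nrm (De e (pY ψ B 0)) ^ 2
        ≤ κ ^ 2 / n * (D * |K3|) := by
          apply mul_le_mul_of_nonneg_left _ (by positivity)
          exact e3.trans (mul_le_mul_of_nonneg_left (hK3 0) (Nat.cast_nonneg _))
      _ = κ ^ 2 * (D * |K3|) / n := by ring
  -- part 2
  have hp2 := h8 n B hB 0
  -- part 3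
  have hp3 : ∑ e, nrm (fun ω => (n : ℝ)⁻¹ * (∑ j : ZMod n, pY ψ B j ω * remv ψ B e j ω)) ^ 2 ≤
      2 * K / n := by
    calc ∑ e, nrm (fun ω => (n : ℝ)⁻¹ * (∑ j : ZMod n, pY ψ B j ω * remv ψ B e j ω)) ^ 2
        ≤ ∑ _e : Fin (n / 2 + 1), K / (n : ℝ) ^ 2 := Finset.sum_le_sum fun e _ => hrem n B hB e
      _ = ((n / 2 + 1 : ℕ) : ℝ) * (K / (n : ℝ) ^ 2) := by
          rw [Finset.sum_const, Finset.card_univ, Fintype.card_fin, nsmul_eq_mul]
      _ ≤ (2 * n) * (K / (n : ℝ) ^ 2) := mul_le_mul_of_nonneg_right card_E_le (by positivity)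
      _ = 2 * K / n := by field_simp
  -- part 4
  have hbt0 : nrm (bt (pY ψ B) 0) ^ 2 ≤ |K3| := by
    have e1 : ∑ x : ZMod n, nrm (bt (pY ψ B) x) ^ 2 ≤ |K3| := by
      refine (sum_nrm_bt_sq_le _).trans ?_
      rw [div_le_iff₀ hn]
      calc ∑ j : ZMod n, nrm (pY ψ B j) ^ 2 ≤ ∑ _j : ZMod n, |K3| :=
            Finset.sum_le_sum fun j _ => hK3 j
        _ = |K3| * n := by
            rw [Finset.sum_const, Finset.card_univ, ZMod.card, nsmul_eq_mul, mul_comm]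
    exact (Finset.single_le_sum (f := fun x => nrm (bt (pY ψ B) x) ^ 2)
      (fun x _ => sq_nonneg _) (Finset.mem_univ 0)).trans e1
  have hnext0 : nrm (nextB κ ψ B 0) ^ 2 ≤ 2 * κ ^ 2 + 2 * |K3| := by
    have e1 : nextB κ ψ B 0 = fun ω => (fun _ => κ / Real.sqrt (n : ℝ)) ω + bt (pY ψ B) 0 ω := rfl
    rw [e1]
    refine (nrm_add_sq_le _ _).trans ?_
    have e2 : nrm (fun _ : Om n => κ / Real.sqrt (n : ℝ)) ^ 2 ≤ κ ^ 2 := by
      rw [nrm_const, sq_abs, div_pow, Real.sq_sqrt hn.le]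
      exact div_le_self (sq_nonneg _) hn1
    linarith
  have hdegN : Deg D (nextB κ ψ B 0) := by
    have e1 : nextB κ ψ B 0 = fun ω => (fun _ => κ / Real.sqrt (n : ℝ)) ω + bt (pY ψ B) 0 ω := rfl
    rw [e1]
    exact Deg.add (Deg_const _ _) (Deg_bt1 hDegp 0)
  have hp4 : ∑ e, nrm (fun ω => nextB κ ψ B 0 ω * De e (nextB κ ψ B 0) ω) ^ 2 ≤
      3 ^ (D + D) * ((2 * κ ^ 2 + 2 * |K3|) * |K9|) / n := by
    have e1 : ∀ e, nrm (fun ω => nextB κ ψ B 0 ω * De e (nextB κ ψ B 0) ω) ^ 2 ≤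
        3 ^ (D + D) * (2 * κ ^ 2 + 2 * |K3|) * nrm (De e (bt (pY ψ B) 0)) ^ 2 := by
      intro e
      refine (nrm_mul_sq_le hdegN (Deg.De e hdegN)).trans ?_
      have e2 : De e (nextB κ ψ B 0) = De e (bt (pY ψ B) 0) := by rw [De_nextB, De_bt]
      rw [e2, mul_assoc]
      apply mul_le_mul_of_nonneg_left _ (by positivity)
      exact mul_le_mul_of_nonneg_right hnext0 (sq_nonneg _)
    calc ∑ e, nrm (fun ω => nextB κ ψ B 0 ω * De e (nextB κ ψ B 0) ω) ^ 2
        ≤ ∑ e, 3 ^ (D + D) * (2 * κ ^ 2 + 2 * |K3|) * nrm (De e (bt (pY ψ B) 0)) ^ 2 :=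
          Finset.sum_le_sum fun e _ => e1 e
      _ = 3 ^ (D + D) * (2 * κ ^ 2 + 2 * |K3|) * ∑ e, nrm (De e (bt (pY ψ B) 0)) ^ 2 := by
          rw [← Finset.mul_sum]
      _ ≤ 3 ^ (D + D) * (2 * κ ^ 2 + 2 * |K3|) * (|K9| / n) := by
          apply mul_le_mul_of_nonneg_left _ (by positivity)
          exact (h9 n B hB 0).trans (div_le_div_of_nonneg_right (le_abs_self _) hn.le)
      _ = _ := by ring
  calc ∑ e, nrm (fun ω => ∑ u ∈ univ.erase (0 : ZMod n),
        nextB κ ψ B u ω * De e (nextB κ ψ B u) ω) ^ 2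
      ≤ ∑ e, (4 * nrm (fun ω => (κ / Real.sqrt (n : ℝ)) * De e (pY ψ B 0) ω) ^ 2 +
      4 * nrm (bt (fun j ω => pY (ψ * Polynomial.derivative ψ) B j ω * De e (Yv B j) ω) 0) ^ 2 +
      4 * nrm (fun ω => (n : ℝ)⁻¹ * (∑ j : ZMod n, pY ψ B j ω * remv ψ B e j ω)) ^ 2 +
      4 * nrm (fun ω => nextB κ ψ B 0 ω * De e (nextB κ ψ B 0) ω) ^ 2) :=
        Finset.sum_le_sum fun e _ => hsplit e
    _ = 4 * ∑ e, nrm (fun ω => (κ / Real.sqrt (n : ℝ)) * De e (pY ψ B 0) ω) ^ 2 +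
      4 * ∑ e, nrm (bt (fun j ω => pY (ψ * Polynomial.derivative ψ) B j ω *
        De e (Yv B j) ω) 0) ^ 2 +
      4 * ∑ e, nrm (fun ω => (n : ℝ)⁻¹ * (∑ j : ZMod n, pY ψ B j ω * remv ψ B e j ω)) ^ 2 +
      4 * ∑ e, nrm (fun ω => nextB κ ψ B 0 ω * De e (nextB κ ψ B 0) ω) ^ 2 := by
        rw [Finset.sum_add_distrib, Finset.sum_add_distrib, Finset.sum_add_distrib,
          ← Finset.mul_sum, ← Finset.mul_sum, ← Finset.mul_sum, ← Finset.mul_sum]
    _ ≤ 4 * (κ ^ 2 * (D * |K3|) / n) + 4 * (K8 / n) + 4 * (2 * K / n) +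
      4 * (3 ^ (D + D) * ((2 * κ ^ 2 + 2 * |K3|) * |K9|) / n) := by linarith
    _ = _ := by ring

end S9File

end Pool.Agent.CTheta
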