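import Pool.Agent.Work.MP_2c2d16_pr.SE.Tools
import Pool.Agent.Work.MP_2c2d16_pr.SE.S16

set_option autoImplicit false
set_option linter.unusedSectionVars false

namespace Pool.Agent.CTheta

open Finset

/-- (S3b) -/
theorem S3b (d : ℕ) (C : ℝ) (Q : Polynomial ℝ) : ∃ C' : ℝ, 0 ≤ C' ∧ ∀ (n : ℕ) [NeZero n]
    (B : ZMod n → Om n → ℝ), Inv n B d C → ∑ x : ZMod n, nrm (bt (pY Q B) x) ^ 2 ≤ C' := by
  obtain ⟨C3, h3⟩ := S3 d C Q
  refine ⟨|C3|, abs_nonneg _, ?_⟩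
  intro n _ B hB
  have hn : (0 : ℝ) < n := by exact_mod_cast Nat.pos_of_ne_zero (NeZero.ne n)
  refine (sum_nrm_bt_sq_le _).trans ?_
  rw [div_le_iff₀ hn]
  calc ∑ j : ZMod n, nrm (pY Q B j) ^ 2 ≤ ∑ j : ZMod n, |C3| :=
        Finset.sum_le_sum fun j _ => (h3 n B hB j).trans (le_abs_self _)
    _ = |C3| * n := by
        rw [Finset.sum_const, Finset.card_univ, ZMod.card, nsmul_eq_mul, mul_comm]

theorem S5b (d : ℕ) (C : ℝ) (Q : Polynomial ℝ) : ∃ C' : ℝ, 0 ≤ C' ∧ ∀ (n : ℕ) [NeZero n]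
    (B : ZMod n → Om n → ℝ), Inv n B d C → ∀ e,
      ∑ x : ZMod n, nrm (De e (bt (pY Q B) x)) ^ 2 ≤ C' / n := by
  obtain ⟨C5, h5⟩ := S5 d C Q
  refine ⟨|C5|, abs_nonneg _, ?_⟩
  intro n _ B hB e
  have hn : (0 : ℝ) < n := by exact_mod_cast Nat.pos_of_ne_zero (NeZero.ne n)
  simp only [De_bt]
  refine (sum_nrm_bt_sq_le _).trans ?_
  apply div_le_div_of_nonneg_right _ hn.le
  exact (h5 n B hB e).trans (le_abs_self _)


end Pool.Agent.CTheta
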